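import Pool.Agent.MP_7a2e76_pr.Steps

/-! Sides of the explored triangles and the corner classes around vertices. -/

namespace Pool.Agent.MP_7a2e76_pr

open Set Relation

inductive C3 where
  | a : C3
  | b : C3
  | c : C3
  deriving DecidableEq

instance : Finite C3 := by
  refine Finite.of_injective (fun x : C3 => match x with
    | .a => (0 : Fin 3)
    | .b => 1
    | .c => 2) ?_
  intro x y h
  cases x <;> cases y <;> simp_all

def nx : Eid × C3 → Eid × C3
  | (e, .a) => (e, .b)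
  | (e, .b) => (e, .c)
  | (e, .c) => (e, .a)

@[simp] theorem nx_fst (x : Eid × C3) : (nx x).1 = x.1 := by
  obtain ⟨e, t⟩ := x; cases t <;> rfl

theorem nx3 (x : Eid × C3) : nx (nx (nx x)) = x := by
  obtain ⟨e, t⟩ := x; cases t <;> rfl

namespace St

def tri (s : St) (e : Eid) : Prop := e ∈ s.A ∨ e ∈ s.B

def eid (s : St) : Eid × C3 → Eid
  | (e, .a) => e
  | (e, .b) => if e ∈ s.A then .s1 e else s.mate e
  | (e, .c) => .s2 e

def up (s : St) : Eid × C3 → Prop
  | (_, .a) => True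
  | (e, .b) => e ∉ s.A
  | (_, .c) => False

def sr (s : St) : Eid × C3 → Vx
  | (e, .a) => e.lft
  | (e, .b) => s.rgt e
  | (e, .c) => s.rgt (.s2 e)

variable {s s' : St}

theorem Inv.triE (h : Inv s) {e : Eid} (he : s.tri e) : s.isE e :=
  he.elim (h.AE e) (h.BE e)

theorem Inv.ntri (h : Inv s) (j : ℤ) : ¬ s.tri (s.es j) := fun hh =>
  hh.elim (h.nA j) (h.nB j)

theorem Inv.sr_up (h : Inv s) {x : Eid × C3} (hx : s.tri x.1) (hu : s.up x) :
    s.sr x = (s.eid x).lft ∧ s.sr (nx x) = s.rgt (s.eid x) := by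
  obtain ⟨e, t⟩ := x
  cases t with
  | a => exact ⟨rfl, rfl⟩
  | b =>
    have hu' : e ∉ s.A := hu
    have hB : e ∈ s.B := hx.resolve_left hu'
    simp only [sr, eid, nx, if_neg hu']
    exact ⟨(h.lm e hB).symm, h.rm e hB⟩
  | c => exact absurd hu id

theorem Inv.sr_dn (h : Inv s) {x : Eid × C3} (hu : ¬ s.up x) :
    s.sr x = s.rgt (s.eid x) ∧ s.sr (nx x) = (s.eid x).lft := by
  obtain ⟨e, t⟩ := x
  cases t with
  | a => exact absurd trivial hu
  | b =>
    have hA : e ∈ s.A := not_not.1 hu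
    simp only [sr, eid, nx, if_pos hA]
    exact ⟨(h.r1 e hA).symm, h.r2 e hA⟩
  | c => exact ⟨rfl, rfl⟩

theorem Inv.eidE (h : Inv s) {x : Eid × C3} (hx : s.tri x.1) : s.isE (s.eid x) := by
  obtain ⟨e, t⟩ := x
  cases t with
  | a => exact h.triE hx
  | b =>
    by_cases hA : e ∈ s.A
    · simp only [eid, if_pos hA]; exact hA
    · simp only [eid, if_neg hA]; exact h.ME e (hx.resolve_left hA)
  | c => exact hx

theorem Inv.srV (h : Inv s) {x : Eid × C3} (hx : s.tri x.1) : s.isV (s.sr x) := by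
  by_cases hu : s.up x
  · rw [(h.sr_up hx hu).1]; exact h.lV _ (h.eidE hx)
  · rw [(h.sr_dn hu).1]; exact h.rV _ (h.eidE hx)

theorem Inv.sr_ne (h : Inv s) {x : Eid × C3} (hx : s.tri x.1) : s.sr (nx x) ≠ s.sr x := by
  by_cases hu : s.up x
  · rw [(h.sr_up hx hu).1, (h.sr_up hx hu).2]; exact (h.ne _ (h.eidE hx)).symm
  · rw [(h.sr_dn hu).1, (h.sr_dn hu).2]; exact h.ne _ (h.eidE hx)

theorem up_cov {x : Eid × C3} (hx : s.tri x.1) (hu : s.up x) : s.cov (s.eid x) := by
  obtain ⟨e, t⟩ := x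
  cases t with
  | a => exact hx.elim Or.inl (fun h => Or.inr (Or.inl h))
  | b =>
    have hu' : e ∉ s.A := hu
    simp only [eid, if_neg hu']
    exact Or.inr (Or.inr ⟨e, hx.resolve_left hu', rfl⟩)
  | c => exact absurd hu id

theorem Inv.cov_up (h : Inv s) {e : Eid} (he : s.cov e) :
    ∃ x : Eid × C3, s.tri x.1 ∧ s.up x ∧ s.eid x = e := by
  rcases he with he | he | ⟨e', he, rfl⟩
  · exact ⟨(e, .a), Or.inl he, trivial, rfl⟩
  · exact ⟨(e, .a), Or.inr he, trivial, rfl⟩
  · have : e' ∉ s.A := fun hh => h.AB _ hh he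
    exact ⟨(e', .b), Or.inr he, this, by simp only [eid, if_neg this]⟩

theorem dn_nO {x : Eid × C3} (hu : ¬ s.up x) : ¬ (s.eid x).isO := by
  obtain ⟨e, t⟩ := x
  cases t with
  | a => exact absurd trivial hu
  | b => simp only [eid, if_pos (not_not.1 hu)]; exact id
  | c => exact id

theorem nO_dn {e : Eid} (he : s.isE e) (hO : ¬ e.isO) :
    ∃ x : Eid × C3, s.tri x.1 ∧ ¬ s.up x ∧ s.eid x = e := by
  cases e with
  | orig i => exact absurd trivial hO
  | s1 e => exact ⟨(e, .b), Or.inl he, not_not.2 he, by simp only [eid, if_pos (show e ∈ s.A from he)]⟩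
  | s2 e => exact ⟨(e, .c), he, id, rfl⟩

theorem Inv.eid_inj (h : Inv s) {x y : Eid × C3} (hx : s.tri x.1) (hy : s.tri y.1)
    (hu : s.up x ↔ s.up y) (e : s.eid x = s.eid y) : x = y := by
  obtain ⟨e1, c1⟩ := x
  obtain ⟨e2, c2⟩ := y
  have k : ∀ e1 e2, s.tri e1 → e2 ∈ s.B → e1 ≠ s.mate e2 := by
    rintro e1 e2 (h1 | h1) h2 rfl
    exacts [h.MA _ h2 h1, h.MB _ h2 h1]
  by_cases a1 : e1 ∈ s.A <;> by_cases a2 : e2 ∈ s.A <;> cases c1 <;> cases c2 <;>
    simp only [up, eid, a1, a2, if_true, if_false, not_true, not_false_iff, iff_self,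
      iff_true, iff_false, reduceCtorEq, Eid.s1.injEq,
      Eid.s2.injEq] at hu e <;>
    first
      | (subst e; rfl)
      | exact absurd e (k _ _ hx (hy.resolve_left a2))
      | exact absurd e.symm (k _ _ hy (hx.resolve_left a1))
      | (rw [h.Minj e1 (hx.resolve_left a1) e2 (hy.resolve_left a2) e])

theorem Ext.tri (h : Ext s s') {e : Eid} (he : s.tri e) : s'.tri e :=
  he.imp (fun x => h.A x) (fun x => h.B x)

theorem Ext.memA (h : Ext s s') (h' : Inv s') {e : Eid} (he : s.tri e) : e ∈ s'.A ↔ e ∈ s.A :=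
  ⟨fun hh => he.resolve_right fun hB => h'.AB _ hh (h.B hB), fun hh => h.A hh⟩

theorem Ext.eid (h : Ext s s') (h' : Inv s') {x : Eid × C3} (hx : s.tri x.1) :
    s'.eid x = s.eid x := by
  obtain ⟨e, t⟩ := x
  cases t with
  | a => rfl
  | b =>
    simp only [St.eid, h.memA h' hx]
    split_ifs with hA
    · rfl
    · exact h.mate e (hx.resolve_left hA)
  | c => rfl

theorem Ext.up (h : Ext s s') (h' : Inv s') {x : Eid × C3} (hx : s.tri x.1) :
    s'.up x ↔ s.up x := by
  obtain ⟨e, t⟩ := x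
  cases t with
  | a => rfl
  | b => simp only [St.up, h.memA h' hx]
  | c => rfl

theorem Ext.sr (h : Ext s s') (h0 : Inv s) {x : Eid × C3} (hx : s.tri x.1) :
    s'.sr x = s.sr x := by
  obtain ⟨e, t⟩ := x
  cases t with
  | a => rfl
  | b => exact h.rgt e (h0.triE hx)
  | c => exact h.rgt (.s2 e) hx

def G (s : St) (x y : Eid × C3) : Prop :=
  s.tri y.1 ∧ ∃ y', s.tri y'.1 ∧ y' ≠ y ∧ s.eid y' = s.eid y ∧ x = nx y'

def Sim (s : St) : Eid × C3 → Eid × C3 → Prop := EqvGen s.G

theorem Sim.refl (x : Eid × C3) : s.Sim x x := EqvGen.refl x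
theorem Sim.symm {x y : Eid × C3} (h : s.Sim x y) : s.Sim y x := EqvGen.symm _ _ h
theorem Sim.trans {x y z : Eid × C3} (h : s.Sim x y) (h' : s.Sim y z) : s.Sim x z :=
  EqvGen.trans _ _ _ h h'

theorem Ext.sim (h : Ext s s') (h' : Inv s') {x y : Eid × C3} (hxy : s.Sim x y) :
    s'.Sim x y := by
  refine EqvGen.mono ?_ _ _ hxy
  rintro x y ⟨hy, y', hy', hne, he, rfl⟩
  exact ⟨h.tri hy, y', h.tri hy', hne, by rw [h.eid h' hy, h.eid h' hy', he], rfl⟩

theorem link {y z : Eid × C3} (hy : s.tri y.1) (hz : s.tri z.1) (hyu : ¬ s.up y)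
    (hzu : s.up z) (e : s.eid y = s.eid z) : s.Sim (nx y) z ∧ s.Sim y (nx z) := by
  have hne : y ≠ z := fun hh => hyu (hh ▸ hzu)
  exact ⟨EqvGen.rel _ _ ⟨hz, y, hy, hne, e, rfl⟩,
    Sim.symm (EqvGen.rel _ _ ⟨hy, z, hz, hne.symm, e.symm, rfl⟩)⟩

def AnR (s : St) (x : Eid × C3) (e : Eid) : Prop :=
  ∃ y : Eid × C3, s.tri y.1 ∧ ¬ s.up y ∧ s.eid y = e ∧ s.Sim x (nx y)

def AnL (s : St) (x : Eid × C3) (e : Eid) : Prop :=
  ∃ y : Eid × C3, s.tri y.1 ∧ ¬ s.up y ∧ s.eid y = e ∧ s.Sim x y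

theorem Ext.anR (h : Ext s s') (h' : Inv s') {x : Eid × C3} {e : Eid} (hx : s.AnR x e) :
    s'.AnR x e := by
  obtain ⟨y, h1, h2, h3, h4⟩ := hx
  exact ⟨y, h.tri h1, by rwa [h.up h' h1], by rwa [h.eid h' h1], h.sim h' h4⟩

theorem Ext.anL (h : Ext s s') (h' : Inv s') {x : Eid × C3} {e : Eid} (hx : s.AnL x e) :
    s'.AnL x e := by
  obtain ⟨y, h1, h2, h3, h4⟩ := hx
  exact ⟨y, h.tri h1, by rwa [h.up h' h1], by rwa [h.eid h' h1], h.sim h' h4⟩

theorem AnR.sim {x z : Eid × C3} (hx : s.AnR x (s.eid z)) (hz : s.tri z.1) (hu : s.up z) :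
    s.Sim x z := by
  obtain ⟨y, h1, h2, h3, h4⟩ := hx
  exact h4.trans (link h1 hz h2 hu h3).1

theorem AnL.sim {x z : Eid × C3} (hx : s.AnL x (s.eid z)) (hz : s.tri z.1) (hu : s.up z) :
    s.Sim x (nx z) := by
  obtain ⟨y, h1, h2, h3, h4⟩ := hx
  exact h4.trans (link h1 hz h2 hu h3).2

structure CInv (s : St) : Prop where
  c1 : ∀ j x, s.tri x.1 → s.sr x = s.vs j → s.AnR x (s.es j) ∨ s.AnL x (s.es (j - 1))
  c2 : ∀ v, (¬ v.isO ∨ ¬ s.expo v) → ∀ x y, s.tri x.1 → s.tri y.1 → s.sr x = v → s.sr y = v →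
    s.Sim x y

theorem lft_nO {e : Eid} (h : ¬ e.lft.isO) : ¬ e.isO := by
  cases e with
  | orig i => exact absurd trivial h
  | s1 e => exact id
  | s2 e => exact id

theorem Inv.rgt_nO (hs : Inv s) {e : Eid} (h : ¬ (s.rgt e).isO) : ¬ e.isO := by
  cases e with
  | orig i => rw [hs.ro] at h; exact absurd trivial h
  | s1 e => exact id
  | s2 e => exact id

/-- a new upper side glued on a non-original exposed edge is linked to old sides -/
theorem old_links (hs : Inv s) (h : Ext s s') (h' : Inv s') (j : ℤ) {z : Eid × C3}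
    (hz : s'.tri z.1) (hu : s'.up z) (he : s'.eid z = s.es j) (hO : ¬ (s.es j).isO) :
    (∃ x, s.tri x.1 ∧ s.sr x = s.vs j ∧ s'.Sim z x) ∧
    (∃ x, s.tri x.1 ∧ s.sr x = s.vs (j + 1) ∧ s'.Sim (nx z) x) := by
  obtain ⟨y, h1, h2, h3⟩ := nO_dn (hs.esE j) hO
  have l := link (h.tri h1) hz (by rwa [h.up h' h1]) hu (by rw [h.eid h' h1, h3, he])
  refine ⟨⟨nx y, by simpa using h1, ?_, l.1.symm⟩, ⟨y, h1, ?_, l.2.symm⟩⟩
  · rw [(hs.sr_dn h2).2, h3]; rfl
  · rw [(hs.sr_dn h2).1, h3, hs.rgtes]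

theorem CInv.mvA (hs : Inv s) (h : CInv s) (j : ℤ) : CInv (s.mvA j) := by
  have hs' := hs.mvA j
  have ex := ext_mvA hs j
  have tA : s.es j ∈ (s.mvA j).A := (mvA_mem j _).2 (Or.inl rfl)
  have te : (s.mvA j).tri (s.es j) := Or.inl tA
  have hnew : ∀ x : Eid × C3, (s.mvA j).tri x.1 → s.tri x.1 ∨
      (x = (s.es j, .a) ∧ (s.mvA j).sr x = s.vs j) ∨
      (x = (s.es j, .b) ∧ (s.mvA j).sr x = s.vs (j + 1)) ∨
      (x = (s.es j, .c) ∧ (s.mvA j).sr x = .apex (s.es j)) := by
    rintro ⟨e, t⟩ (hx | hx)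
    · rcases (mvA_mem j e).1 hx with rfl | hx
      · right
        cases t with
        | a => exact Or.inl ⟨rfl, rfl⟩
        | b => exact Or.inr (Or.inl ⟨rfl, (mvA_rgt hs j (hs.esE j)).trans (hs.rgtes j)⟩)
        | c => exact Or.inr (Or.inr ⟨rfl, mvA_rgt2 j⟩)
      · exact Or.inl (Or.inl hx)
    · exact Or.inl (Or.inr hx)
  have hva : ∀ i, s.vs i ≠ .apex (s.es j) := fun i hh => hs.nV j (hh ▸ hs.vsV i)
  have aR : ∀ x, (s.mvA j).Sim x (s.es j, .a) → (s.mvA j).AnR x (.s2 (s.es j)) :=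
    fun x hx => ⟨(s.es j, .c), te, id, rfl, hx⟩
  have aL : ∀ x, (s.mvA j).Sim x (s.es j, .b) → (s.mvA j).AnL x (.s1 (s.es j)) :=
    fun x hx => ⟨(s.es j, .b), te, not_not.2 tA, by simp only [eid, if_pos tA], hx⟩
  constructor
  · intro i x hx hxi
    rw [mvA_vs] at hxi
    rw [mvA_es, mvA_es]
    rcases hnew x hx with hx0 | ⟨rfl, e⟩ | ⟨rfl, e⟩ | ⟨rfl, e⟩
    · rw [ex.sr hs hx0] at hxi
      by_cases h1 : i ≤ j
      · rw [if_pos h1] at hxi
        rw [if_pos (show i - 1 < j by omega)]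
        rcases h.c1 i x hx0 hxi with k | k
        · left
          rcases h1.lt_or_eq with h1 | rfl
          · rw [if_pos h1]; exact ex.anR hs' k
          · rw [if_neg (lt_irrefl _), if_pos rfl]
            exact aR x (AnR.sim (z := (s.es i, .a)) (ex.anR hs' k) te trivial)
        · exact Or.inr (ex.anL hs' k)
      · rw [if_neg h1] at hxi
        by_cases h2 : i = j + 1
        · rw [if_pos h2] at hxi
          exact absurd (hxi ▸ hs.srV hx0) (hs.nV j)
        · rw [if_neg h2] at hxi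
          rw [if_neg (by omega), if_neg (by omega), if_neg h2, if_neg (by omega),
            if_neg (by omega)]
          rcases h.c1 _ x hx0 hxi with k | k
          · exact Or.inl (ex.anR hs' k)
          · right
            split_ifs with h3
            · rw [show i - 1 - 1 = j by omega] at k
              exact aL x (AnL.sim (z := (s.es j, .a)) (ex.anL hs' k) te trivial)
            · exact ex.anL hs' k
    · rw [e] at hxi
      have : i = j := by
        split_ifs at hxi
        · exact (hs.vinj hxi).symm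
        · exact absurd hxi (hva _)
        · have := hs.vinj hxi; omega
      subst this
      left
      rw [if_neg (lt_irrefl _), if_pos rfl]
      exact aR _ (Sim.refl _)
    · rw [e] at hxi
      have : i = j + 2 := by
        split_ifs at hxi
        · have := hs.vinj hxi; omega
        · exact absurd hxi (hva _)
        · have := hs.vinj hxi; omega
      subst this
      right
      rw [if_neg (by omega), if_neg (by omega), if_pos (by omega)]
      exact aL _ (Sim.refl _)
    · rw [e] at hxi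
      have : i = j + 1 := by
        split_ifs at hxi
        · exact absurd hxi.symm (hva _)
        · assumption
        · exact absurd hxi.symm (hva _)
      subst this
      right
      rw [if_neg (by omega), if_pos (by omega)]
      exact ⟨(s.es j, .c), te, id, rfl, Sim.refl _⟩
  · intro v hv x y hx hy hxv hyv
    have hexp : ∀ i, (s.mvA j).expo (s.vs i) := by
      intro i
      by_cases h1 : i ≤ j
      · exact ⟨i, by rw [mvA_vs, if_pos h1]⟩
      · exact ⟨i + 1, by rw [mvA_vs, if_neg (by omega), if_neg (by omega)]; simp⟩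
    have hv0 : ¬ v.isO ∨ ¬ s.expo v := hv.imp id fun k ⟨i, hi⟩ => k (hi ▸ hexp i)
    by_cases hva' : v = .apex (s.es j)
    · subst hva'
      have k : ∀ x : Eid × C3, (s.mvA j).tri x.1 → (s.mvA j).sr x = .apex (s.es j) →
          x = (s.es j, .c) := by
        intro x hx hxv
        rcases hnew x hx with hx0 | ⟨rfl, e⟩ | ⟨rfl, e⟩ | ⟨rfl, e⟩
        · rw [ex.sr hs hx0] at hxv
          exact absurd (hxv ▸ hs.srV hx0) (hs.nV j)
        · exact absurd (e.symm.trans hxv) (hva _)
        · exact absurd (e.symm.trans hxv) (hva _)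
        · rfl
      rw [k x hx hxv, k y hy hyv]
      exact Sim.refl _
    · have k : ∀ x : Eid × C3, (s.mvA j).tri x.1 → (s.mvA j).sr x = v →
          ∃ x', s.tri x'.1 ∧ s.sr x' = v ∧ (s.mvA j).Sim x x' := by
        intro x hx hxv
        rcases hnew x hx with hx0 | ⟨rfl, e⟩ | ⟨rfl, e⟩ | ⟨rfl, e⟩
        · exact ⟨x, hx0, by rwa [ex.sr hs hx0] at hxv, Sim.refl _⟩
        · rw [e] at hxv
          subst hxv
          exact (old_links hs ex hs' j (z := (s.es j, .a)) te trivial rfl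
            (lft_nO (hv.resolve_right (not_not.2 (hexp j))))).1
        · rw [e] at hxv
          subst hxv
          exact (old_links hs ex hs' j (z := (s.es j, .a)) te trivial rfl
            (hs.rgt_nO (by
              rw [hs.rgtes]; exact hv.resolve_right (not_not.2 (hexp _))))).2
        · exact absurd (hxv.symm.trans e) hva'
      obtain ⟨x', a1, a2, a3⟩ := k x hx hxv
      obtain ⟨y', b1, b2, b3⟩ := k y hy hyv
      exact a3.trans ((ex.sim hs' (h.c2 v hv0 x' y' a1 b1 a2 b2)).trans b3.symm)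

theorem CInv.mvB (hs : Inv s) (h : CInv s) (j : ℤ) : CInv (s.mvB j) := by
  have hs' := hs.mvB j
  have ex := ext_mvB hs j
  have tA : s.es j ∉ (s.mvB j).A := hs.nA j
  have te : (s.mvB j).tri (s.es j) := Or.inr ((mvB_mem j _).2 (Or.inl rfl))
  have eb : (s.mvB j).eid (s.es j, .b) = s.es (j + 1) := by
    simp only [eid, if_neg tA, mvB_mate']
  have hnew : ∀ x : Eid × C3, (s.mvB j).tri x.1 → s.tri x.1 ∨
      (x = (s.es j, .a) ∧ (s.mvB j).sr x = s.vs j) ∨
      (x = (s.es j, .b) ∧ (s.mvB j).sr x = s.vs (j + 1)) ∨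
      (x = (s.es j, .c) ∧ (s.mvB j).sr x = s.vs (j + 1 + 1)) := by
    rintro ⟨e, t⟩ (hx | hx)
    · exact Or.inl (Or.inl hx)
    · rcases (mvB_mem j e).1 hx with rfl | hx
      · right
        cases t with
        | a => exact Or.inl ⟨rfl, rfl⟩
        | b => exact Or.inr (Or.inl ⟨rfl, (mvB_rgt hs j (hs.esE j)).trans (hs.rgtes j)⟩)
        | c => exact Or.inr (Or.inr ⟨rfl, (mvB_rgt2 j).trans (hs.rgtes _)⟩)
      · exact Or.inl (Or.inr hx)
  have aR : ∀ x, (s.mvB j).Sim x (s.es j, .a) → (s.mvB j).AnR x (.s2 (s.es j)) :=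
    fun x hx => ⟨(s.es j, .c), te, id, rfl, hx⟩
  have aL : ∀ x, (s.mvB j).Sim x (s.es j, .c) → (s.mvB j).AnL x (.s2 (s.es j)) :=
    fun x hx => ⟨(s.es j, .c), te, id, rfl, hx⟩
  constructor
  · intro i x hx hxi
    rw [mvB_vs] at hxi
    rw [mvB_es, mvB_es]
    rcases hnew x hx with hx0 | ⟨rfl, e⟩ | ⟨rfl, e⟩ | ⟨rfl, e⟩
    · rw [ex.sr hs hx0] at hxi
      by_cases h1 : i ≤ j
      · rw [if_pos h1] at hxi
        rw [if_pos (show i - 1 < j by omega)]
        rcases h.c1 i x hx0 hxi with k | k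
        · left
          rcases h1.lt_or_eq with h1 | rfl
          · rw [if_pos h1]; exact ex.anR hs' k
          · rw [if_neg (lt_irrefl _), if_pos rfl]
            exact aR x (AnR.sim (z := (s.es i, .a)) (ex.anR hs' k) te trivial)
        · exact Or.inr (ex.anL hs' k)
      · rw [if_neg h1] at hxi
        rw [if_neg (by omega), if_neg (by omega), if_neg (by omega)]
        rcases h.c1 _ x hx0 hxi with k | k
        · exact Or.inl (ex.anR hs' k)
        · right
          split_ifs with h3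
          · rw [show i + 1 - 1 = j + 1 by omega, ← eb] at k
            exact aL x (AnL.sim (z := (s.es j, .b)) (eb ▸ ex.anL hs' (eb ▸ k)) te tA)
          · rw [show i - 1 + 1 = i + 1 - 1 by omega]
            exact ex.anL hs' k
    · rw [e] at hxi
      have : i = j := by
        split_ifs at hxi
        · exact (hs.vinj hxi).symm
        · have := hs.vinj hxi; omega
      subst this
      left
      rw [if_neg (lt_irrefl _), if_pos rfl]
      exact aR _ (Sim.refl _)
    · rw [e] at hxi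
      exfalso
      split_ifs at hxi <;> (have := hs.vinj hxi; omega)
    · rw [e] at hxi
      have : i = j + 1 := by
        split_ifs at hxi <;> (have := hs.vinj hxi; omega)
      subst this
      right
      rw [if_neg (by omega), if_pos (by omega)]
      exact aL _ (Sim.refl _)
  · intro v hv x y hx hy hxv hyv
    have hexp : ∀ i, i ≠ j + 1 → (s.mvB j).expo (s.vs i) := by
      intro i hi
      by_cases h1 : i ≤ j
      · exact ⟨i, by rw [mvB_vs, if_pos h1]⟩
      · exact ⟨i - 1, by rw [mvB_vs, if_neg (by omega)]; simp⟩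
    by_cases hva' : v = s.vs (j + 1)
    · subst hva'
      have k : ∀ x : Eid × C3, (s.mvB j).tri x.1 → (s.mvB j).sr x = s.vs (j + 1) →
          (s.mvB j).Sim x (s.es j, .b) := by
        intro x hx hxv
        rcases hnew x hx with hx0 | ⟨rfl, e⟩ | ⟨rfl, e⟩ | ⟨rfl, e⟩
        · rw [ex.sr hs hx0] at hxv
          rcases h.c1 _ x hx0 hxv with k | k
          · exact AnR.sim (eb ▸ ex.anR hs' k) te tA
          · rw [show j + 1 - 1 = j by omega] at k
            exact AnL.sim (z := (s.es j, .a)) (ex.anL hs' k) te trivial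
        · have := hs.vinj (e.symm.trans hxv); omega
        · exact Sim.refl _
        · have := hs.vinj (e.symm.trans hxv); omega
      exact (k x hx hxv).trans (k y hy hyv).symm
    · have hv0 : ¬ v.isO ∨ ¬ s.expo v :=
        hv.imp id fun k ⟨i, hi⟩ => k (hi ▸ hexp i (by rintro rfl; exact hva' hi.symm))
      have k : ∀ x : Eid × C3, (s.mvB j).tri x.1 → (s.mvB j).sr x = v →
          ∃ x', s.tri x'.1 ∧ s.sr x' = v ∧ (s.mvB j).Sim x x' := by
        intro x hx hxv
        rcases hnew x hx with hx0 | ⟨rfl, e⟩ | ⟨rfl, e⟩ | ⟨rfl, e⟩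
        · exact ⟨x, hx0, by rwa [ex.sr hs hx0] at hxv, Sim.refl _⟩
        · rw [e] at hxv
          subst hxv
          exact (old_links hs ex hs' j (z := (s.es j, .a)) te trivial rfl
            (lft_nO (hv.resolve_right (not_not.2 (hexp j (by omega)))))).1
        · exact absurd (hxv.symm.trans e) hva'
        · rw [e] at hxv
          subst hxv
          exact (old_links hs ex hs' (j + 1) (z := (s.es j, .b)) te tA eb
            (hs.rgt_nO (by
              rw [hs.rgtes]; exact hv.resolve_right (not_not.2 (hexp _ (by omega)))))).2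
      obtain ⟨x', a1, a2, a3⟩ := k x hx hxv
      obtain ⟨y', b1, b2, b3⟩ := k y hy hyv
      exact a3.trans ((ex.sim hs' (h.c2 v hv0 x' y' a1 b1 a2 b2)).trans b3.symm)

theorem Reach.cinv (h : Reach s) : CInv s := by
  induction h with
  | init =>
    exact ⟨fun j x hx => by simp [tri, St.init] at hx,
      fun v _ x y hx => by simp [tri, St.init] at hx⟩
  | a j hs ih => exact ih.mvA hs.inv j
  | b j hs ih => exact ih.mvB hs.inv j

end St

end Pool.Agent.MP_7a2e76_pr
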