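import Mathlib

/-!
Definitions for the statement: triangulations given as triangles glued along their sides,
finite triangulated discs, half-plane triangulations, the law `H_α` and the simple random walk.
-/

namespace Pool.Agent.MP_7a2e76_pr

open MeasureTheory

/-- Triangles glued along their sides, without self-loops.  `D` is the set of oriented sides
(three per triangle, each having its triangle on the left), `nxt` is the next side of the same
triangle, `rev` exchanges two sides glued into one edge and fixes the boundary sides, and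
`src d` is the vertex at which the side `d` starts (it ends at `src (nxt d)`).  Two sides start
at the same vertex exactly when their corners are identified by the gluings. -/
structure Tri (D V : Type) where
  nxt : D → D
  rev : D → D
  src : D → V
  nxt3 : ∀ d, nxt (nxt (nxt d)) = d
  rev2 : ∀ d, rev (rev d) = d
  noloop : ∀ d, src (nxt d) ≠ src d
  vert : ∀ a b, src a = src b ↔
    Relation.EqvGen (fun x y => rev y ≠ y ∧ x = nxt (rev y)) a b

/-- The triangular faces. -/
def Tri.faces {D V : Type} (T : Tri D V) : Set (Set D) :=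
  Set.range fun d => {d, T.nxt d, T.nxt (T.nxt d)}

/-- The edges: pairs of glued sides and single boundary sides. -/
def Tri.edges {D V : Type} (T : Tri D V) : Set (Set D) :=
  Set.range fun d => {d, T.rev d}

/-- Any two triangles are joined by a chain of triangles glued along edges. -/
def Tri.Conn {D V : Type} (T : Tri D V) : Prop :=
  ∀ a b, Relation.EqvGen (fun x y => y = T.nxt x ∨ y = T.rev x) a b

/-- `Q` is a finite simply connected triangulation (connected, Euler characteristic one) whose
boundary is the simple cycle of sides `b 0, …, b (m-1)`. -/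
structure IsDisc {D V : Type} (Q : Tri D V) (m : ℕ) (b : ℕ → D) : Prop where
  fin : Finite D
  conn : Q.Conn
  bdry : ∀ d, Q.rev d = d ↔ ∃ i < m, b i = d
  cyc : ∀ i < m, Q.src (Q.nxt (b i)) = Q.src (b ((i + 1) % m))
  simple : Set.InjOn (fun i => Q.src (b i)) (Set.Iio m)
  euler : (Set.range Q.src).ncard + Q.faces.ncard = Q.edges.ncard + 1

/-- A connected, locally finite triangulation, with sides and vertices labelled by natural
numbers, whose boundary is the simple bi-infinite path of sides `bd i`; the root edge is
`bd 0`. -/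
structure HalfPlane extends Tri ℕ ℕ where
  bd : ℤ → ℕ
  bdry : ∀ d, rev d = d ↔ ∃ i, bd i = d
  path : ∀ i, src (nxt (bd i)) = src (bd (i + 1))
  simple : Function.Injective fun i => src (bd i)
  locfin : ∀ v, {d | src d = v}.Finite
  conn : toTri.Conn

/-- The product σ-algebra: all labels are measurable. -/
instance : MeasurableSpace HalfPlane :=
  MeasurableSpace.comap (fun H => (H.nxt, H.rev, H.src, H.bd)) inferInstance

/-- The root vertex. -/
def HalfPlane.root (H : HalfPlane) : ℕ := H.src (H.bd 0)

/-- The event `A_Q`: `Q` is a sub-map of `H`, its marked segment `b 0, …, b (k-1)` lies on the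
boundary sides `bd a, …, bd (a+k-1)`, and no other vertex of `Q` is on the boundary of `H`. -/
def IsSub {D V : Type} (Q : Tri D V) (b : ℕ → D) (k : ℕ) (a : ℤ) (H : HalfPlane) : Prop :=
  ∃ f : D → ℕ, Function.Injective f ∧ (∀ d, f (Q.nxt d) = H.nxt (f d)) ∧
    (∀ d, Q.rev d ≠ d → f (Q.rev d) = H.rev (f d)) ∧
    (∀ d d', H.src (f d) = H.src (f d') → Q.src d = Q.src d') ∧
    (∀ i < k, f (b i) = H.bd (a + i)) ∧
    (∀ d j, H.src (f d) = H.src (H.bd j) → a ≤ j ∧ j ≤ a + k)

/-- `μ` is the law `H_α`: `μ(A_Q) = α^V(Q) β^(F(Q)-V(Q))` with `β = α(1-α)/2`, where `V(Q)`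
counts the vertices of `Q` off the marked segment and `F(Q)` the faces of `Q`. -/
def IsLaw (α : ℝ) (μ : Measure HalfPlane) : Prop :=
  ∀ (D V : Type) (Q : Tri D V) (m : ℕ) (b : ℕ → D) (k : ℕ) (a : ℤ),
    IsDisc Q m b → 0 < k → k < m →
    μ {H | IsSub Q b k a H} = ENNReal.ofReal
      (α ^ (Set.range Q.src \ (fun i => Q.src (b i)) '' Set.Iic k).ncard *
        (α * (1 - α) / 2) ^ ((Q.faces.ncard : ℤ) -
          (Set.range Q.src \ (fun i => Q.src (b i)) '' Set.Iic k).ncard))

/-- Number of edges joining `u` and `v`. -/
noncomputable def HalfPlane.mult (H : HalfPlane) (u v : ℕ) : ℕ :=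
  {e ∈ H.edges | ∃ d ∈ e, s(H.src d, H.src (H.nxt d)) = s(u, v)}.ncard

/-- Number of edges incident to `u`. -/
noncomputable def HalfPlane.deg (H : HalfPlane) (u : ℕ) : ℕ :=
  {e ∈ H.edges | ∃ d ∈ e, H.src d = u ∨ H.src (H.nxt d) = u}.ncard

/-- The simple graph of adjacent vertices, used for the graph distance. -/
def HalfPlane.graph (H : HalfPlane) : SimpleGraph ℕ :=
  SimpleGraph.fromRel fun u v => ∃ d, H.src d = u ∧ H.src (H.nxt d) = v

/-- Under `P`, given the map `H`, the second coordinate is simple random walk on `H` started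
at the root vertex: each step follows a uniformly chosen incident edge. -/
def IsWalk (P : Measure (HalfPlane × (ℕ → ℕ))) : Prop :=
  ∀ A : Set HalfPlane, MeasurableSet A → ∀ (n : ℕ) (x : ℕ → ℕ),
    P {z | z.1 ∈ A ∧ ∀ i ≤ n, z.2 i = x i} =
      ∫⁻ H in A, (if x 0 = H.root then
        ∏ i ∈ Finset.range n, (H.mult (x i) (x (i + 1)) : ENNReal) / (H.deg (x i) : ENNReal)
        else 0) ∂P.fst

end Pool.Agent.MP_7a2e76_pr
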