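import Pool.Agent.MP_7a2e76_pr.Real
import Pool.Agent.MP_7a2e76_pr.Corner

/-! A connected explored region is a finite triangulated disc. -/

namespace Pool.Agent.MP_7a2e76_pr

open Set Relation

namespace St

abbrev Sd (s : St) : Type := {x : Eid × C3 // s.tri x.1}

variable {s : St}

theorem finite_sd (s : St) : Finite s.Sd := by
  have h : {x : Eid × C3 | s.tri x.1}.Finite := by
    refine ((s.A ∪ s.B).finite_toSet.prod (finite_univ (α := C3))).subset ?_
    rintro ⟨e, t⟩ hx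
    exact ⟨by simpa [tri] using hx, trivial⟩
  exact h

def nxS (x : s.Sd) : s.Sd := ⟨nx x.1, by simpa using x.2⟩

open Classical in
noncomputable def revS (x : s.Sd) : s.Sd :=
  if h : ∃ y : s.Sd, y ≠ x ∧ s.eid y.1 = s.eid x.1 then h.choose else x

theorem Inv.sd_eq (h : Inv s) {x y : s.Sd} (hu : s.up x.1 ↔ s.up y.1)
    (e : s.eid x.1 = s.eid y.1) : x = y := Subtype.ext (h.eid_inj x.2 y.2 hu e)

theorem revS_eid (x : s.Sd) : s.eid (revS x).1 = s.eid x.1 := by
  unfold revS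
  split_ifs with h
  · exact h.choose_spec.2
  · rfl

theorem Inv.revS_spec (h : Inv s) {x y : s.Sd} (hne : y ≠ x) (e : s.eid y.1 = s.eid x.1) :
    revS x = y := by
  have hex : ∃ y : s.Sd, y ≠ x ∧ s.eid y.1 = s.eid x.1 := ⟨y, hne, e⟩
  unfold revS
  rw [dif_pos hex]
  have h1 : ¬ (s.up hex.choose.1 ↔ s.up x.1) := fun k =>
    hex.choose_spec.1 (h.sd_eq k hex.choose_spec.2)
  have h2 : ¬ (s.up y.1 ↔ s.up x.1) := fun k => hne (h.sd_eq k e)
  exact h.sd_eq (by tauto) (hex.choose_spec.2.trans e.symm)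

theorem Inv.revS_rev (h : Inv s) (x : s.Sd) : revS (revS x) = x := by
  by_cases hx : revS x = x
  · rw [hx, hx]
  · exact h.revS_spec (Ne.symm hx) (revS_eid x).symm

theorem Inv.revS_up (h : Inv s) {x : s.Sd} (hx : revS x ≠ x) :
    s.up (revS x).1 ↔ ¬ s.up x.1 := by
  have h1 : ¬ (s.up (revS x).1 ↔ s.up x.1) := fun k => hx (h.sd_eq k (revS_eid x))
  tauto

theorem Inv.sim_sd (h : Inv s) {x y : Eid × C3} (hxy : s.Sim x y) :
    (s.tri x.1 ↔ s.tri y.1) ∧ ∀ (hx : s.tri x.1) (hy : s.tri y.1),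
      EqvGen (fun x y : s.Sd => revS y ≠ y ∧ x = nxS (revS y)) ⟨x, hx⟩ ⟨y, hy⟩ := by
  induction hxy with
  | rel x y hr =>
    obtain ⟨hy, y', hy', hne, he, rfl⟩ := hr
    refine ⟨⟨fun _ => hy, fun _ => by simpa using hy'⟩, fun hx hy => ?_⟩
    have hne' : (⟨y', hy'⟩ : s.Sd) ≠ ⟨y, hy⟩ := fun k => hne (congrArg Subtype.val k)
    have e := h.revS_spec hne' he
    exact EqvGen.rel _ _ ⟨by rw [e]; exact hne', by rw [e]; rfl⟩
  | refl x => exact ⟨Iff.rfl, fun _ _ => EqvGen.refl _⟩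
  | symm x y _ ih => exact ⟨ih.1.symm, fun hx hy => EqvGen.symm _ _ (ih.2 hy hx)⟩
  | trans x y z _ _ ih ih' =>
    exact ⟨ih.1.trans ih'.1, fun hx hz =>
      EqvGen.trans _ _ _ (ih.2 hx (ih.1.1 hx)) (ih'.2 (ih.1.1 hx) hz)⟩

structure DL (s : St) (p q : ℤ) : Prop where
  lt : p < q
  eO : ∀ j, (s.es j).isO ↔ (j < p ∨ q ≤ j)
  vO : ∀ j, p < j → j < q → ¬ (s.vs j).isO

theorem DL.sim (hs : Reach s) {p q : ℤ} (h : DL s p q) {x y : Eid × C3} (hx : s.tri x.1)
    (hy : s.tri y.1) (e : s.sr x = s.sr y) : s.Sim x y := by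
  have hi := hs.inv
  by_cases hv : ¬ (s.sr x).isO ∨ ¬ s.expo (s.sr x)
  · exact hs.cinv.c2 _ hv x y hx hy rfl e.symm
  · push Not at hv
    obtain ⟨hO, j, hj⟩ := hv
    have hj1 : j ≤ p ∨ q ≤ j := by
      by_contra hh
      exact h.vO j (by omega) (by omega) (hj ▸ hO)
    have n1 : ∀ {x e}, s.AnR x e → ¬ e.isO := by
      rintro x e ⟨y, _, h2, rfl, _⟩; exact dn_nO h2
    have n2 : ∀ {x e}, s.AnL x e → ¬ e.isO := by
      rintro x e ⟨y, _, h2, rfl, _⟩; exact dn_nO h2
    rcases hj1 with hj1 | hj1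
    · have k : ∀ x, s.tri x.1 → s.sr x = s.vs j → s.AnR x (s.es j) := fun x hx hxj =>
        (hs.cinv.c1 j x hx hxj).resolve_right fun k => n2 k ((h.eO _).2 (Or.inl (by omega)))
      obtain ⟨x', a1, a2, a3, a4⟩ := k x hx hj.symm
      obtain ⟨y', b1, b2, b3, b4⟩ := k y hy (e.symm.trans hj.symm)
      rw [hi.eid_inj a1 b1 (by tauto) (a3.trans b3.symm)] at a4
      exact a4.trans b4.symm
    · have k : ∀ x, s.tri x.1 → s.sr x = s.vs j → s.AnL x (s.es (j - 1)) := fun x hx hxj =>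
        (hs.cinv.c1 j x hx hxj).resolve_left fun k => n1 k ((h.eO _).2 (Or.inr hj1))
      obtain ⟨x', a1, a2, a3, a4⟩ := k x hx hj.symm
      obtain ⟨y', b1, b2, b3, b4⟩ := k y hy (e.symm.trans hj.symm)
      rw [hi.eid_inj a1 b1 (by tauto) (a3.trans b3.symm)] at a4
      exact a4.trans b4.symm

theorem Inv.sr_rev (h : Inv s) {y : s.Sd} (hy : revS y ≠ y) :
    s.sr (nx (revS y).1) = s.sr y.1 := by
  have hu := h.revS_up hy
  by_cases k : s.up y.1
  · rw [(h.sr_dn (by tauto)).2, (h.sr_up y.2 k).1, revS_eid]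
  · rw [(h.sr_up (revS y).2 (by tauto)).2, (h.sr_dn k).1, revS_eid]

noncomputable def QT (hs : Reach s) {p q : ℤ} (h : DL s p q) : Tri s.Sd Vx where
  nxt := nxS
  rev := revS
  src := fun x => s.sr x.1
  nxt3 := fun x => Subtype.ext (nx3 x.1)
  rev2 := hs.inv.revS_rev
  noloop := fun x => hs.inv.sr_ne x.2
  vert := by
    intro a b
    constructor
    · intro e
      exact (hs.inv.sim_sd (h.sim hs a.2 b.2 e)).2 a.2 b.2
    · intro e
      induction e with
      | rel x y hr =>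
        obtain ⟨h1, rfl⟩ := hr
        exact hs.inv.sr_rev h1
      | refl x => rfl
      | symm x y _ ih => exact ih.symm
      | trans x y z _ _ ih ih' => exact ih.trans ih'

theorem isO_eq {e : Eid} (h : e.isO) : ∃ i, e = .orig i := by
  cases e with
  | orig i => exact ⟨i, rfl⟩
  | s1 e => exact absurd h id
  | s2 e => exact absurd h id

/-- the shape of the boundary outside the window -/
theorem DL.shape (hi : Inv s) {p q : ℤ} (h : DL s p q) : ∃ a b : ℤ, a < b ∧
    (∀ j < p, s.es j = .orig (a + j - p)) ∧ (∀ j, q ≤ j → s.es j = .orig (b + j - q)) ∧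
    (∀ j ≤ p, s.vs j = .orig (a + j - p)) ∧ (∀ j, q ≤ j → s.vs j = .orig (b + j - q)) := by
  obtain ⟨a0, ha⟩ := isO_eq ((h.eO (p - 1)).2 (Or.inl (by omega)))
  obtain ⟨b, hb⟩ := isO_eq ((h.eO q).2 (Or.inr le_rfl))
  have k : ∀ j i i', s.es j = .orig i → s.es (j + 1) = .orig i' → i' = i + 1 := by
    intro j i i' h1 h2
    have := hi.rgtes j
    rw [h1, hi.ro, vs, h2] at this
    simpa [Eid.lft] using this.symm
  have e1 : ∀ n : ℕ, s.es (p - 1 - n) = .orig (a0 - n) := by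
    intro n
    induction n with
    | zero => simpa using ha
    | succ n ih =>
      obtain ⟨i, hi'⟩ := isO_eq ((h.eO (p - 1 - (n + 1 : ℕ))).2 (Or.inl (by omega)))
      have := k _ _ _ hi' (by rw [← ih]; congr 1; push_cast; ring)
      rw [hi']; congr 1; push_cast; omega
  have e2 : ∀ n : ℕ, s.es (q + n) = .orig (b + n) := by
    intro n
    induction n with
    | zero => simpa using hb
    | succ n ih =>
      obtain ⟨i, hi'⟩ := isO_eq ((h.eO (q + (n + 1 : ℕ))).2 (Or.inr (by omega)))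
      have := k _ _ _ ih (by rw [← hi']; congr 1; push_cast; ring)
      rw [hi']; congr 1; push_cast; omega
  have f1 : ∀ j < p, s.es j = .orig (a0 + 1 + j - p) := by
    intro j hj
    have := e1 (p - 1 - j).toNat
    rw [Int.toNat_of_nonneg (by omega)] at this
    convert this using 2 <;> ring
  have f2 : ∀ j, q ≤ j → s.es j = .orig (b + j - q) := by
    intro j hj
    have := e2 (j - q).toNat
    rw [Int.toNat_of_nonneg (by omega)] at this
    convert this using 2 <;> ring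
  have g1 : ∀ j ≤ p, s.vs j = .orig (a0 + 1 + j - p) := by
    intro j hj
    have := hi.rgtes (j - 1)
    rw [f1 _ (by omega), hi.ro, sub_add_cancel] at this
    rw [← this]; congr 1; ring
  have g2 : ∀ j, q ≤ j → s.vs j = .orig (b + j - q) := by
    intro j hj; rw [vs, f2 j hj]; rfl
  refine ⟨a0 + 1, b, ?_, f1, f2, g1, g2⟩
  by_contra hh
  have : s.vs (q + (a0 + 1 - b)) = s.vs p := by
    rw [g2 _ (by omega), g1 _ le_rfl]; congr 1; ring
  have := hi.vinj this
  have := h.lt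
  omega

end St

end Pool.Agent.MP_7a2e76_pr
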