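import Pool.Agent.MP_7a2e76_pr.Disc

/-! The disc attached to a connected explored region: axioms, counts, and the event `A_Q`. -/

namespace Pool.Agent.MP_7a2e76_pr

open Set Relation

namespace St

variable {s : St}

structure Bdy (s : St) (p q a0 b0 : ℤ) (k m : ℕ) (bb : ℕ → s.Sd) : Prop where
  dl : DL s p q
  hk : (k : ℤ) = b0 - a0
  hm : (m : ℤ) = k + (q - p)
  ab : a0 < b0
  f1 : ∀ j < p, s.es j = .orig (a0 + j - p)
  f2 : ∀ j, q ≤ j → s.es j = .orig (b0 + j - q)
  g1 : ∀ j ≤ p, s.vs j = .orig (a0 + j - p)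
  g2 : ∀ j, q ≤ j → s.vs j = .orig (b0 + j - q)
  b1 : ∀ i < k, s.up (bb i).1 ∧ s.eid (bb i).1 = .orig (a0 + i)
  b2 : ∀ i, k ≤ i → i < m → ¬ s.up (bb i).1 ∧ s.eid (bb i).1 = s.es (q - 1 - (i - k))

theorem exists_bdy (hi : Inv s) {p q : ℤ} (h : DL s p q) :
    ∃ a0 b0 k m bb, Bdy s p q a0 b0 k m bb := by
  obtain ⟨a0, b0, ab, f1, f2, g1, g2⟩ := h.shape hi
  have hlt := h.lt
  have covO : ∀ i, a0 ≤ i → i < b0 → s.cov (.orig i) := by
    intro i h1 h2
    refine (hi.covE (.orig i) trivial).resolve_right ?_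
    rintro ⟨j, hj⟩
    rcases (h.eO j).1 (hj ▸ trivial) with k | k
    · rw [f1 j k] at hj; simp at hj; omega
    · rw [f2 j k] at hj; simp at hj; omega
  have key : ∀ i : ℕ, ∃ x : s.Sd, (i < (b0 - a0).toNat → s.up x.1 ∧ s.eid x.1 = .orig (a0 + i)) ∧
      ((b0 - a0).toNat ≤ i → i < (b0 - a0).toNat + (q - p).toNat →
        ¬ s.up x.1 ∧ s.eid x.1 = s.es (q - 1 - (i - (b0 - a0).toNat))) := by
    intro i
    by_cases h1 : i < (b0 - a0).toNat
    · obtain ⟨x, x1, x2, x3⟩ := hi.cov_up (covO (a0 + i) (by omega) (by omega))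
      exact ⟨⟨x, x1⟩, fun _ => ⟨x2, x3⟩, fun k => by omega⟩
    · by_cases h2 : i < (b0 - a0).toNat + (q - p).toNat
      · obtain ⟨x, x1, x2, x3⟩ := nO_dn (hi.esE (q - 1 - (i - (b0 - a0).toNat)))
          (by rw [h.eO]; omega)
        exact ⟨⟨x, x1⟩, fun k => by omega, fun _ _ => ⟨x2, x3⟩⟩
      · obtain ⟨x, x1, _⟩ := nO_dn (hi.esE p) (by rw [h.eO]; omega)
        exact ⟨⟨x, x1⟩, fun k => by omega, fun _ _ => by omega⟩
  choose bb hb1 hb2 using key
  exact ⟨a0, b0, (b0 - a0).toNat, (b0 - a0).toNat + (q - p).toNat, bb, h, by omega,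
    by omega, ab, f1, f2, g1, g2, hb1, hb2⟩

variable {p q a0 b0 : ℤ} {k m : ℕ} {bb : ℕ → s.Sd}

theorem Bdy.km (h : Bdy s p q a0 b0 k m bb) : 0 < k ∧ k < m := by
  have := h.hk; have := h.hm; have := h.ab; have := h.dl.lt
  omega

theorem Bdy.cov_rng (hi : Inv s) (h : Bdy s p q a0 b0 k m bb) {i : ℤ}
    (hc : s.cov (.orig i)) : a0 ≤ i ∧ i < b0 := by
  by_contra hh
  by_cases h1 : i < a0
  · refine hi.esN (p + i - a0) ?_
    rw [h.f1 _ (by omega)]; convert hc using 2; ring
  · refine hi.esN (q + i - b0) ?_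
    rw [h.f2 _ (by omega)]; convert hc using 2; ring

theorem Bdy.sr1 (hi : Inv s) (h : Bdy s p q a0 b0 k m bb) {i : ℕ} (h1 : i ≤ k) :
    s.sr (bb i).1 = .orig (a0 + i) := by
  rcases h1.lt_or_eq with h1 | rfl
  · rw [(hi.sr_up (bb i).2 (h.b1 i h1).1).1, (h.b1 i h1).2]; rfl
  · have := h.b2 i le_rfl h.km.2
    rw [(hi.sr_dn this.1).1, this.2, hi.rgtes, h.g2 _ (by omega)]
    have := h.hk
    congr 1; omega

theorem Bdy.sr2 (hi : Inv s) (h : Bdy s p q a0 b0 k m bb) {i : ℕ} (h1 : k ≤ i) (h2 : i < m) :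
    s.sr (bb i).1 = s.vs (q - (i - k)) := by
  have := h.b2 i h1 h2
  rw [(hi.sr_dn this.1).1, this.2, hi.rgtes]
  congr 1; ring

theorem Bdy.upO (hi : Inv s) (h : Bdy s p q a0 b0 k m bb) {x : s.Sd} (hO : (s.eid x.1).isO) :
    ∃ i < k, bb i = x := by
  have hu : s.up x.1 := by by_contra hh; exact dn_nO hh hO
  obtain ⟨i, e⟩ := isO_eq hO
  have := h.cov_rng hi (e ▸ up_cov x.2 hu)
  have hk := h.hk
  refine ⟨(i - a0).toNat, by omega, ?_⟩
  have b := h.b1 (i - a0).toNat (by omega)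
  refine hi.sd_eq (by tauto) ?_
  rw [b.2, e]; congr 1; omega

theorem Bdy.srO (hs : Reach s) (h : Bdy s p q a0 b0 k m bb) {x : s.Sd} {i : ℤ}
    (e : s.sr x.1 = .orig i) : a0 ≤ i ∧ i ≤ b0 := by
  have n : ∀ j, s.sr x.1 = s.vs j → p ≤ j ∧ j ≤ q := by
    intro j hj
    rcases hs.cinv.c1 j x.1 x.2 hj with ⟨y, _, h2, h3, _⟩ | ⟨y, _, h2, h3, _⟩
    · have := dn_nO h2
      rw [h3, h.dl.eO] at this; omega
    · have := dn_nO h2
      rw [h3, h.dl.eO] at this; omega
  by_contra hh
  by_cases h1 : i < a0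
  · have := n (p + i - a0) (by rw [e, h.g1 _ (by omega)]; congr 1; ring)
    omega
  · have := n (q + i - b0) (by rw [e, h.g2 _ (by omega)]; congr 1; ring)
    omega

theorem Bdy.bdry (hi : Inv s) (h : Bdy s p q a0 b0 k m bb) (x : s.Sd) :
    revS x = x ↔ ∃ i < m, bb i = x := by
  have hkm := h.km
  have hm := h.hm
  constructor
  · intro hx
    by_cases hu : s.up x.1
    · by_cases hO : (s.eid x.1).isO
      · obtain ⟨i, h1, h2⟩ := h.upO hi hO
        exact ⟨i, by omega, h2⟩
      · obtain ⟨y, y1, y2, y3⟩ := nO_dn (hi.eidE x.2) hO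
        have hne : (⟨y, y1⟩ : s.Sd) ≠ x := fun k => y2 (by rw [← k] at hu; exact hu)
        exact absurd ((hi.revS_spec hne y3).symm.trans hx) hne
    · rcases hi.covE _ (hi.eidE x.2) with hc | ⟨j, hj⟩
      · obtain ⟨y, y1, y2, y3⟩ := hi.cov_up hc
        have hne : (⟨y, y1⟩ : s.Sd) ≠ x := fun k => hu (by rw [← k]; exact y2)
        exact absurd ((hi.revS_spec hne y3).symm.trans hx) hne
      · have := dn_nO hu
        rw [← hj, h.dl.eO] at this
        have b := h.b2 (k + (q - 1 - j).toNat) (by omega) (by omega)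
        refine ⟨k + (q - 1 - j).toNat, by omega, hi.sd_eq (by tauto) ?_⟩
        rw [b.2, ← hj]; congr 1; omega
  · rintro ⟨i, h1, rfl⟩
    by_contra hne
    have hu := hi.revS_up hne
    have he := revS_eid (bb i)
    by_cases h2 : i < k
    · have b := h.b1 i h2
      exact dn_nO (s := s) (x := (revS (bb i)).1) (by tauto) (by rw [he, b.2]; trivial)
    · have b := h.b2 i (by omega) h1
      have := up_cov (revS (bb i)).2 (by tauto)
      rw [he, b.2] at this
      exact hi.esN _ this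

theorem Bdy.range_src (hs : Reach s) (h : Bdy s p q a0 b0 k m bb) :
    (range fun x : s.Sd => s.sr x.1) = Vx.apex '' s.A ∪ Vx.orig '' Icc a0 b0 := by
  have hi := hs.inv
  ext v
  constructor
  · rintro ⟨x, rfl⟩
    have hv := hi.srV x.2
    cases e : s.sr x.1 with
    | orig i => exact Or.inr ⟨i, h.srO hs e, e.symm⟩
    | apex e' => rw [e] at hv; exact Or.inl ⟨e', hv, e.symm⟩
  · rintro (⟨e, he, rfl⟩ | ⟨i, hi', rfl⟩)
    · exact ⟨⟨(e, .c), Or.inl he⟩, hi.r2 e he⟩
    · have hk := h.hk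
      obtain ⟨h1, h2⟩ := hi'
      refine ⟨bb (i - a0).toNat, ?_⟩
      simp only
      rw [h.sr1 hi (by omega)]; congr 1; omega

theorem Bdy.marked (hi : Inv s) (h : Bdy s p q a0 b0 k m bb) :
    (fun i => s.sr (bb i).1) '' Iic k = Vx.orig '' Icc a0 b0 := by
  have hk := h.hk
  ext v
  constructor
  · rintro ⟨i, h1, rfl⟩
    have h1' : i ≤ k := h1
    exact ⟨a0 + i, ⟨by omega, by omega⟩, (h.sr1 hi h1).symm⟩
  · rintro ⟨i, ⟨h1, h2⟩, rfl⟩
    refine ⟨(i - a0).toNat, show _ ≤ k by omega, ?_⟩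
    simp only
    rw [h.sr1 hi (by omega)]; congr 1; omega

theorem apex_inj : Function.Injective Vx.apex := fun _ _ h => by simpa using h
theorem vorig_inj : Function.Injective Vx.orig := fun _ _ h => by simpa using h
theorem eorig_inj : Function.Injective Eid.orig := fun _ _ h => by simpa using h
theorem s1_inj : Function.Injective Eid.s1 := fun _ _ h => by simpa using h
theorem s2_inj : Function.Injective Eid.s2 := fun _ _ h => by simpa using h

theorem Inv.card_tri (hi : Inv s) : ((s.A ∪ s.B : Finset Eid) : Set Eid).ncard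
    = s.A.card + s.B.card := by
  rw [ncard_coe_finset, Finset.card_union_of_disjoint (Finset.disjoint_left.2 hi.AB)]

theorem faces_card (hs : Reach s) (h : DL s p q) :
    (QT hs h).faces.ncard = s.A.card + s.B.card := by
  have e : (QT hs h).faces =
      (fun e => {x : s.Sd | x.1.1 = e}) '' ((s.A ∪ s.B : Finset Eid) : Set Eid) := by
    have k : ∀ d : s.Sd, ({d, nxS d, nxS (nxS d)} : Set s.Sd) = {x : s.Sd | x.1.1 = d.1.1} := by
      rintro ⟨⟨e, t⟩, hd⟩
      ext ⟨⟨e', t'⟩, hx⟩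
      simp only [mem_insert_iff, mem_singleton_iff, mem_ofPred_eq, nxS, Subtype.mk.injEq]
      cases t <;> cases t' <;> simp [nx]
    ext F
    constructor
    · rintro ⟨d, rfl⟩
      exact ⟨d.1.1, by simpa [tri] using d.2, (k d).symm⟩
    · rintro ⟨e, he, rfl⟩
      exact ⟨⟨(e, .a), by simpa [tri] using he⟩, k _⟩
  rw [e, InjOn.ncard_image, hs.inv.card_tri]
  intro e he e' _ hh
  have : (⟨(e, .a), by simpa [tri] using he⟩ : s.Sd) ∈ {x : s.Sd | x.1.1 = e} := rfl
  simp only at hh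
  rw [hh] at this
  exact this

theorem Bdy.edges_card (hs : Reach s) (h : Bdy s p q a0 b0 k m bb) :
    (QT hs h.dl).edges.ncard = s.A.card + (s.A.card + s.B.card) + k := by
  have hi := hs.inv
  have hk := h.hk
  have k1 : ∀ d : s.Sd, ({d, revS d} : Set s.Sd) = {x : s.Sd | s.eid x.1 = s.eid d.1} := by
    intro d
    ext x
    simp only [mem_insert_iff, mem_singleton_iff, mem_ofPred_eq]
    constructor
    · rintro (rfl | rfl)
      exacts [rfl, revS_eid d]
    · intro e
      by_cases hx : x = d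
      · exact Or.inl hx
      · exact Or.inr (hi.revS_spec hx e).symm
  have e : (QT hs h.dl).edges =
      (fun e => {x : s.Sd | s.eid x.1 = e}) '' (range fun d : s.Sd => s.eid d.1) := by
    rw [← range_comp]
    exact congrArg range (funext k1)
  have e2 : (range fun d : s.Sd => s.eid d.1) = Eid.s1 '' s.A ∪
      Eid.s2 '' ((s.A ∪ s.B : Finset Eid) : Set Eid) ∪ Eid.orig '' Ico a0 b0 := by
    ext e
    constructor
    · rintro ⟨d, rfl⟩
      have hE := hi.eidE d.2
      cases e : s.eid d.1 with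
      | orig i =>
        have hu : s.up d.1 := by by_contra hh; exact dn_nO hh (e ▸ trivial)
        exact Or.inr ⟨i, h.cov_rng hi (e ▸ up_cov d.2 hu), e.symm⟩
      | s1 e' => rw [e] at hE; exact Or.inl (Or.inl ⟨e', hE, e.symm⟩)
      | s2 e' =>
        rw [e] at hE
        exact Or.inl (Or.inr ⟨e', by simpa [isE] using hE, e.symm⟩)
    · rintro ((⟨e, he, rfl⟩ | ⟨e, he, rfl⟩) | ⟨i, ⟨h1, h2⟩, rfl⟩)
      · exact ⟨⟨(e, .b), Or.inl he⟩, by simp only [eid, if_pos (show e ∈ s.A from he)]⟩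
      · exact ⟨⟨(e, .c), by simpa [tri] using he⟩, rfl⟩
      · refine ⟨bb (i - a0).toNat, ?_⟩
        simp only
        rw [(h.b1 _ (by omega)).2]; congr 1; omega
  rw [e, InjOn.ncard_image, e2, ncard_union_eq, ncard_union_eq,
    ncard_image_of_injective _ s1_inj, ncard_image_of_injective _ s2_inj,
    ncard_image_of_injective _ eorig_inj, hi.card_tri, ncard_coe_finset]
  · congr 1
    rw [← Finset.coe_Ico, ncard_coe_finset, Int.card_Ico]; omega
  · rw [disjoint_left]; rintro _ ⟨x, _, rfl⟩ ⟨y, _, hy⟩; simp at hy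
  · rw [disjoint_left]; rintro _ (⟨x, _, rfl⟩ | ⟨x, _, rfl⟩) ⟨y, _, hy⟩ <;> simp at hy
  · rintro _ ⟨d, rfl⟩ _ _ hh
    have : d ∈ {x : s.Sd | s.eid x.1 = s.eid d.1} := rfl
    simp only at hh
    rw [hh] at this
    exact this

theorem Bdy.conn (hs : Reach s) (h : Bdy s p q a0 b0 k m bb) : (QT hs h.dl).Conn := by
  have hi := hs.inv
  let r : s.Sd → s.Sd → Prop := fun x y => y = nxS x ∨ y = revS x
  have hn : ∀ x, EqvGen r x (nxS x) := fun x => EqvGen.rel _ _ (Or.inl rfl)
  have hr : ∀ x, EqvGen r x (revS x) := fun x => EqvGen.rel _ _ (Or.inr rfl)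
  have hv : ∀ x y : s.Sd, s.sr x.1 = s.sr y.1 → EqvGen r x y := by
    intro x y e
    have e2 := ((QT hs h.dl).vert x y).1 e
    clear e
    induction e2 with
    | rel x y hxy =>
      obtain ⟨_, rfl⟩ := hxy
      exact EqvGen.symm _ _ (EqvGen.trans _ _ _ (hr y) (hn _))
    | refl x => exact EqvGen.refl _
    | symm x y _ ih => exact EqvGen.symm _ _ ih
    | trans x y z _ _ ih ih' => exact EqvGen.trans _ _ _ ih ih'
  have h0 : ∀ i ≤ k, EqvGen r (bb 0) (bb i) := by
    intro i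
    induction i with
    | zero => exact fun _ => EqvGen.refl _
    | succ i ih =>
      intro h1
      refine EqvGen.trans _ _ _ (ih (by omega)) (EqvGen.trans _ _ _ (hn _) (hv _ _ ?_))
      have b := h.b1 i (by omega)
      rw [h.sr1 hi h1]
      refine (hi.sr_up (bb i).2 b.1).2.trans ?_
      rw [b.2, hi.ro]; congr 1; push_cast; ring
  have ht : ∀ (e : Eid) (he : s.tri e) (t : C3), EqvGen r ⟨(e, .a), he⟩ ⟨(e, t), he⟩ := by
    intro e he t
    cases t with
    | a => exact EqvGen.refl _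
    | b => exact hn ⟨(e, .a), he⟩
    | c => exact EqvGen.symm _ _ (hn ⟨(e, .c), he⟩)
  have h1 : ∀ (e : Eid) (he : s.tri e), EqvGen r (bb 0) ⟨(e, .a), he⟩ := by
    intro e
    induction e with
    | orig i =>
      intro he
      obtain ⟨i', h2, h3⟩ := h.upO hi (x := ⟨(.orig i, .a), he⟩) trivial
      rw [← h3]; exact h0 i' h2.le
    | s1 e ih =>
      intro he
      have hA : e ∈ s.A := hi.triE he
      refine EqvGen.trans _ _ _ (ih (Or.inl hA)) (EqvGen.trans _ _ _ (ht e _ .b) ?_)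
      rw [← hi.revS_spec (x := ⟨(e, .b), Or.inl hA⟩) (y := ⟨(.s1 e, .a), he⟩)
        (fun k => by simp at k) (by simp only [eid, if_pos hA])]
      exact hr _
    | s2 e ih =>
      intro he
      have hA : s.tri e := hi.triE he
      refine EqvGen.trans _ _ _ (ih hA) (EqvGen.trans _ _ _ (ht e _ .c) ?_)
      rw [← hi.revS_spec (x := ⟨(e, .c), hA⟩) (y := ⟨(.s2 e, .a), he⟩)
        (fun k => by simp at k) rfl]
      exact hr _
  have h2 : ∀ x : s.Sd, EqvGen r (bb 0) x := fun ⟨(e, t), he⟩ =>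
    EqvGen.trans _ _ _ (h1 e he) (ht e he t)
  exact fun x y => EqvGen.trans _ _ _ (EqvGen.symm _ _ (h2 x)) (h2 y)

theorem Bdy.vcard (hs : Reach s) (h : Bdy s p q a0 b0 k m bb) :
    (range (QT hs h.dl).src \ (fun i => (QT hs h.dl).src (bb i)) '' Iic k).ncard = s.A.card := by
  have e : range (QT hs h.dl).src \ (fun i => (QT hs h.dl).src (bb i)) '' Iic k =
      Vx.apex '' s.A := by
    refine Eq.trans (congrArg₂ _ (h.range_src hs) (h.marked hs.inv)) ?_
    rw [union_sdiff_right, Disjoint.sdiff_eq_left]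
    rw [disjoint_left]; rintro _ ⟨x, _, rfl⟩ ⟨y, _, hy⟩; simp at hy
  rw [e, ncard_image_of_injective _ apex_inj, ncard_coe_finset]

theorem Bdy.isDisc (hs : Reach s) (h : Bdy s p q a0 b0 k m bb) : IsDisc (QT hs h.dl) m bb := by
  have hi := hs.inv
  have hkm := h.km
  have hm := h.hm
  have hk := h.hk
  refine ⟨finite_sd s, h.conn hs, h.bdry hi, ?_, ?_, ?_⟩
  · intro i h1
    change s.sr (nx (bb i).1) = s.sr (bb ((i + 1) % m)).1
    by_cases h2 : i < k
    · have b := h.b1 i h2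
      rw [Nat.mod_eq_of_lt (by omega), h.sr1 hi (by omega), (hi.sr_up (bb i).2 b.1).2, b.2,
        hi.ro]
      congr 1; push_cast; ring
    · have b := h.b2 i (by omega) h1
      rw [(hi.sr_dn b.1).2, b.2]
      change s.vs _ = _
      by_cases h3 : i + 1 < m
      · rw [Nat.mod_eq_of_lt h3, h.sr2 hi (by omega) h3]; congr 1; push_cast; ring
      · rw [show i + 1 = m by omega, Nat.mod_self, h.sr1 hi (Nat.zero_le _),
          h.g1 _ (by omega)]
        congr 1; omega
  · intro i h1 i' h2 e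
    have h1' : i < m := h1
    have h2' : i' < m := h2
    change s.sr (bb i).1 = s.sr (bb i').1 at e
    have mix : ∀ i i', i < k → k ≤ i' → i' < m → s.sr (bb i).1 ≠ s.sr (bb i').1 := by
      intro i i' a1 a2 a3 e
      rw [h.sr1 hi a1.le, h.sr2 hi a2 a3] at e
      by_cases a4 : i' = k
      · rw [h.g2 _ (by omega)] at e; simp at e; omega
      · exact h.dl.vO (q - (i' - k)) (by omega) (by omega) (e ▸ trivial)
    by_cases a1 : i < k <;> by_cases a2 : i' < k
    · rw [h.sr1 hi a1.le, h.sr1 hi a2.le] at e; simp at e; omega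
    · exact absurd e (mix _ _ a1 (by omega) h2')
    · exact absurd e.symm (mix _ _ a2 (by omega) h1')
    · rw [h.sr2 hi (by omega) h1', h.sr2 hi (by omega) h2'] at e
      have := hi.vinj e; omega
  · rw [faces_card, h.edges_card hs]
    have e : (range (QT hs h.dl).src).ncard = s.A.card + (k + 1) := by
      refine Eq.trans (congrArg ncard (h.range_src hs)) ?_
      rw [ncard_union_eq, ncard_image_of_injective _ apex_inj,
        ncard_image_of_injective _ vorig_inj, ncard_coe_finset]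
      · congr 1
        rw [← Finset.coe_Icc, ncard_coe_finset, Int.card_Icc]; omega
      · rw [disjoint_left]; rintro _ ⟨x, _, rfl⟩ ⟨y, _, hy⟩; simp at hy
    rw [e]; ring

theorem Bdy.rl (hs : Reach s) (h : Bdy s p q a0 b0 k m bb) {H : HalfPlane}
    (hH : IsSub (QT hs h.dl) bb k a0 H) : Rl s H := by
  have hi := hs.inv
  have hk := h.hk
  have hkm := h.km
  obtain ⟨f, finj, fn, fr, fv, fb, fo⟩ := hH
  change ∀ d, f (nxS d) = _ at fn
  change ∀ d, revS d ≠ d → f (revS d) = _ at fr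
  change ∀ d d' : s.Sd, _ → s.sr d.1 = s.sr d'.1 at fv
  have fv' : ∀ d d' : s.Sd, s.sr d.1 = s.sr d'.1 → H.src (f d) = H.src (f d') := by
    intro x y e
    have e2 := ((QT hs h.dl).vert x y).1 e
    clear e
    induction e2 with
    | rel x y hxy =>
      obtain ⟨h1, rfl⟩ := hxy
      change revS y ≠ y at h1
      change H.src (f (nxS (revS y))) = _
      rw [fn, fr y h1, H.nxt_rev]
      rw [← fr y h1]; exact fun k => h1 (finj k)
    | refl x => rfl
    | symm x y _ ih => exact ih.symm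
    | trans x y z _ _ ih ih' => exact ih.trans ih'
  have fO : ∀ (x : s.Sd) (i : ℤ), s.eid x.1 = .orig i → f x = H.bd i := by
    intro x i e
    obtain ⟨i', h2, rfl⟩ := h.upO hi (x := x) (e ▸ trivial)
    rw [fb i' h2]
    rw [(h.b1 i' h2).2] at e
    rw [eorig_inj e]
  have fmate : ∀ x y : s.Sd, s.up x.1 → ¬ s.up y.1 → s.eid x.1 = s.eid y.1 →
      f x = H.rev (f y) := by
    intro x y a1 a2 e
    have hne : x ≠ y := fun k => a2 (k ▸ a1)
    have e2 := hi.revS_spec hne e
    rw [← fr y (by rw [e2]; exact hne), e2]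
  have fa : ∀ (e : Eid) (he : s.tri e), f ⟨(e, .a), he⟩ = H.out e := by
    intro e
    induction e with
    | orig i => intro he; exact fO _ i rfl
    | s1 e ih =>
      intro he
      have hA : e ∈ s.A := hi.triE he
      rw [fmate ⟨(.s1 e, .a), he⟩ ⟨(e, .b), Or.inl hA⟩ trivial (not_not.2 hA)
        (by simp only [eid, if_pos hA])]
      exact congrArg H.rev ((fn ⟨(e, .a), Or.inl hA⟩).trans (by rw [ih]))
    | s2 e ih =>
      intro he
      have hA : s.tri e := hi.triE he
      rw [fmate ⟨(.s2 e, .a), he⟩ ⟨(e, .c), hA⟩ trivial id rfl]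
      refine congrArg H.rev ((fn ⟨(e, .b), hA⟩).trans (congrArg H.nxt ?_))
      exact (fn ⟨(e, .a), hA⟩).trans (by rw [ih])
  have fbb : ∀ (e : Eid) (he : s.tri e), f ⟨(e, .b), he⟩ = H.nxt (H.out e) := fun e he =>
    (fn ⟨(e, .a), he⟩).trans (by rw [fa])
  have fc : ∀ (e : Eid) (he : s.tri e), f ⟨(e, .c), he⟩ = H.nxt (H.nxt (H.out e)) :=
    fun e he => (fn ⟨(e, .b), he⟩).trans (by rw [fbb])
  have fd : ∀ y : s.Sd, ¬ s.up y.1 → f y = H.rev (H.out (s.eid y.1)) := by
    rintro ⟨⟨e, t⟩, he⟩ hu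
    cases t with
    | a => exact absurd trivial hu
    | b =>
      simp only [eid, if_pos (not_not.1 hu), HalfPlane.out, H.rev2]
      exact fbb e he
    | c =>
      simp only [eid, HalfPlane.out, H.rev2]
      exact fc e he
  have fu : ∀ x : s.Sd, s.up x.1 → f x = H.out (s.eid x.1) := by
    intro x hu
    by_cases hO : (s.eid x.1).isO
    · obtain ⟨i, e⟩ := isO_eq hO
      rw [fO x i e, e]; rfl
    · obtain ⟨y, y1, y2, y3⟩ := nO_dn (hi.eidE x.2) hO
      rw [fmate x ⟨y, y1⟩ hu y2 y3.symm, fd _ y2, H.rev2, y3]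
  have fs : ∀ x : s.Sd, H.src (f x) = H.psi (s.sr x.1) := by
    intro x
    have hv := hi.srV x.2
    cases e : s.sr x.1 with
    | apex e' =>
      rw [e] at hv
      rw [fv' x ⟨(e', .c), Or.inl hv⟩ (e.trans (hi.r2 e' hv).symm), fc]; rfl
    | orig i =>
      obtain ⟨h1, h2⟩ := h.srO hs e
      by_cases h3 : i < b0
      · rw [fv' x (bb (i - a0).toNat) (by rw [e, h.sr1 hi (by omega)]; congr 1; omega),
          fb _ (by omega)]
        simp only [HalfPlane.psi]; congr 2; omega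
      · have b := h.b1 (k - 1) (by omega)
        rw [fv' x (nxS (bb (k - 1))) (by
          rw [e]
          refine Eq.trans ?_ (hi.sr_up (bb (k - 1)).2 b.1).2.symm
          rw [b.2, hi.ro]; congr 1; omega), fn, fb _ (by omega), H.path]
        simp only [HalfPlane.psi]; congr 2; omega
  have fnb : ∀ y : s.Sd, ¬ s.up y.1 → H.rev (f y) ≠ f y := by
    intro y hu e
    obtain ⟨j, hj⟩ := (H.bdry _).1 e
    have a1 := fo y j (by rw [hj])
    have a2 := fo (nxS y) (j + 1) (by rw [fn, ← hj, H.path])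
    have a3 : f (bb (j - a0).toNat) = f y := by
      rw [fb _ (by omega), ← hj]; congr 1; omega
    exact hu (finj a3 ▸ (h.b1 _ (by omega)).1)
  have low : ∀ e, s.isE e → ¬ e.isO → ∃ y : s.Sd, ¬ s.up y.1 ∧ s.eid y.1 = e ∧
      H.out e = H.rev (f y) := by
    intro e he hO
    obtain ⟨y, y1, y2, y3⟩ := nO_dn he hO
    exact ⟨⟨y, y1⟩, y2, y3, by rw [fd _ y2, H.rev2, y3]⟩
  have rl : ∀ e, s.isE e → H.src (H.out e) = H.psi e.lft := by
    intro e he
    by_cases hO : e.isO
    · obtain ⟨i, rfl⟩ := isO_eq hO; rfl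
    · obtain ⟨y, y2, y3, y4⟩ := low e he hO
      rw [y4, H.src_rev (fnb y y2), ← fn, fs, ← y3]
      exact congrArg H.psi (hi.sr_dn y2).2
  have rr : ∀ e, s.isE e → H.src (H.nxt (H.out e)) = H.psi (s.rgt e) := by
    intro e he
    by_cases hO : e.isO
    · obtain ⟨i, rfl⟩ := isO_eq hO
      rw [hi.ro]; exact H.path i
    · obtain ⟨y, y2, y3, y4⟩ := low e he hO
      rw [y4, H.nxt_rev (fnb y y2), fs, ← y3]
      exact congrArg H.psi (hi.sr_dn y2).1
  have rv : ∀ u, s.isV u → ∀ u', s.isV u' → H.psi u = H.psi u' → u = u' := by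
    have ap : ∀ e (he : e ∈ s.A), H.psi (.apex e) = H.src (f ⟨(e, .c), Or.inl he⟩) :=
      fun e he => by rw [fc]; rfl
    have mix : ∀ e, e ∈ s.A → ∀ i, H.psi (.apex e) ≠ H.psi (.orig i) := by
      intro e he i hh
      rw [ap e he] at hh
      have a1 := fo _ i hh
      have a2 : s.sr (bb (i - a0).toNat).1 = .orig i := by
        rw [h.sr1 hi (by omega)]; congr 1; omega
      have a3 := fv _ (bb (i - a0).toNat) (hh.trans (by rw [fs, a2]))
      rw [a2] at a3
      have a4 := (hi.r2 e he).symm.trans a3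
      simp at a4
    intro u hu u' hu' e
    cases u with
    | orig i =>
      cases u' with
      | orig i' => rw [H.simple e]
      | apex e' => exact absurd e.symm (mix e' hu' i)
    | apex e1 =>
      cases u' with
      | orig i' => exact absurd e (mix e1 hu i')
      | apex e' =>
        rw [ap e1 hu, ap e' hu'] at e
        exact (hi.r2 e1 hu).symm.trans ((fv _ _ e).trans (hi.r2 e' hu'))
  refine ⟨rl, rr, ?_, rv, ?_, ?_⟩
  · intro e he
    have hA : e ∉ s.A := fun k => hi.AB e k he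
    rw [← fbb e (Or.inr he), fu ⟨(e, .b), Or.inr he⟩ hA]
    simp only [eid, if_neg hA]
  · have mix : ∀ i e, s.isE e → ¬ e.isO → H.out (.orig i) ≠ H.out e := by
      intro i e he hO hh
      obtain ⟨y, y2, _, y4⟩ := low e he hO
      have : f y = H.bd i := by
        rw [← H.rev2 (f y), ← y4, ← hh]; exact H.rev_bd i
      exact fnb y y2 (by rw [this, H.rev_bd])
    intro e he e' he' hh
    by_cases hO : e.isO <;> by_cases hO' : e'.isO
    · obtain ⟨i, rfl⟩ := isO_eq hO
      obtain ⟨i', rfl⟩ := isO_eq hO'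
      rw [H.bd_inj hh]
    · obtain ⟨i, rfl⟩ := isO_eq hO
      exact absurd hh (mix i e' he' hO')
    · obtain ⟨i, rfl⟩ := isO_eq hO'
      exact absurd hh.symm (mix i e he hO)
    · obtain ⟨y, _, y3, y4⟩ := low e he hO
      obtain ⟨y', _, y3', y4'⟩ := low e' he' hO'
      rw [y4, y4'] at hh
      rw [← y3, ← y3', finj (H.rev_inj hh)]
  · intro e he e' he' hO' hh
    obtain ⟨y', y2', y3', y4'⟩ := low e' he' hO'
    rw [y4', H.rev2] at hh
    by_cases hO : e.isO
    · obtain ⟨i, rfl⟩ := isO_eq hO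
      exact fnb y' y2' (by rw [← hh]; exact H.rev_bd i)
    · obtain ⟨y, y2, y3, y4⟩ := low e he hO
      rcases hi.covE e he with hc | ⟨j, rfl⟩
      · obtain ⟨x, x1, x2, x3⟩ := hi.cov_up hc
        have := fu ⟨x, x1⟩ x2
        rw [x3, hh] at this
        exact y2' (finj this ▸ x2)
      · rcases hi.covE e' he' with hc | ⟨j', rfl⟩
        · obtain ⟨x, x1, x2, x3⟩ := hi.cov_up hc
          have := fu ⟨x, x1⟩ x2
          rw [x3, y4', ← hh, y4, H.rev2] at this
          exact y2 (finj this ▸ x2)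
        · have a1 := rl _ he
          have a2 := rr _ he
          rw [hh, fs, (hi.sr_dn y2').1, y3', hi.rgtes] at a1
          rw [hh, ← fn, fs, hi.rgtes] at a2
          have a3 : s.sr (nxS y').1 = s.vs j' := (hi.sr_dn y2').2.trans (by rw [y3']; rfl)
          rw [a3] at a2
          have b1 := hi.vinj (rv _ (hi.vsV _) _ (hi.vsV j) a1)
          have b2 := hi.vinj (rv _ (hi.vsV _) _ (hi.vsV _) a2)
          omega

end St

end Pool.Agent.MP_7a2e76_pr
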