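import Mathlib

/-! Tutte trees describing how a polygon is filled by triangles, and their weights. -/

namespace Pool.Agent.MP_7a2e76_pr

open scoped ENNReal

inductive Fill where
  | nil : Fill
  | new : Fill → Fill
  | split : Fill → Fill → Fill

namespace Fill

def code : Fill → ℕ
  | nil => 0
  | new A => 2 * code A + 1
  | split A B => 2 * Nat.pair (code A) (code B) + 2

theorem code_inj : Function.Injective code := by
  intro A
  induction A with
  | nil => intro B h; cases B <;> simp [code] at h ⊢
  | new A ih =>
    intro B h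
    cases B with
    | nil => simp [code] at h
    | new B => simp only [code] at h; rw [ih (by omega : code A = code B)]
    | split B C => simp only [code] at h; omega
  | split A A' ih ih' =>
    intro B h
    cases B with
    | nil => simp [code] at h
    | new B => simp only [code] at h; omega
    | split B C =>
      simp only [code] at h
      have h2 : Nat.pair (code A) (code A') = Nat.pair (code B) (code C) := by omega
      rw [Nat.pair_eq_pair] at h2
      rw [ih h2.1, ih' h2.2]

instance : Countable Fill := code_inj.countable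

def len : Fill → ℕ
  | nil => 1
  | new A => len A - 1
  | split A B => len A + len B

def ok : Fill → Prop
  | nil => True
  | new A => ok A ∧ 2 ≤ len A
  | split A B => ok A ∧ ok B

def nA : Fill → ℕ
  | nil => 0
  | new A => nA A + 1
  | split A B => nA A + nA B

def nB : Fill → ℕ
  | nil => 0
  | new A => nB A
  | split A B => nB A + nB B + 1

def sz (A : Fill) : ℕ := nA A + nB A

@[simp] theorem sz_nil : sz nil = 0 := rfl
@[simp] theorem sz_new (A : Fill) : sz (new A) = sz A + 1 := by simp [sz, nA, nB]; omega
@[simp] theorem sz_split (A B : Fill) : sz (split A B) = sz A + sz B + 1 := by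
  simp [sz, nA, nB]; omega

theorem len_pos : ∀ {A : Fill}, ok A → 1 ≤ len A
  | nil, _ => le_rfl
  | new A, h => by have := h.2; simp only [len]; omega
  | split A B, h => by have := len_pos h.1; simp only [len]; omega

open Classical in
/-- weight of the filling together with the closing triangle -/
noncomputable def bw (a b : ℝ≥0∞) (A : Fill) : ℝ≥0∞ :=
  if ok A then a ^ nA A * b ^ (nB A + 1) else 0

variable {a b : ℝ≥0∞}

theorem bw_nil : bw a b nil = b := by simp [bw, ok, nA, nB]

theorem bw_new (A : Fill) : bw a b (new A) = if 2 ≤ len A then a * bw a b A else 0 := by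
  by_cases h : ok A <;> by_cases h2 : 2 ≤ len A <;> simp [bw, ok, nA, nB, h, h2]
  ring

theorem bw_split (A B : Fill) : bw a b (split A B) = bw a b A * bw a b B := by
  by_cases h : ok A <;> by_cases h2 : ok B <;> simp [bw, ok, nA, nB, h, h2]
  ring

theorem bw_of_not_ok {A : Fill} (h : ¬ ok A) : bw a b A = 0 := by simp [bw, h]

def eqv : Fill ≃ Option (Fill ⊕ Fill × Fill) where
  toFun
    | nil => none
    | new A => some (Sum.inl A)
    | split A B => some (Sum.inr (A, B))
  invFun
    | none => nil
    | some (Sum.inl A) => new A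
    | some (Sum.inr (A, B)) => split A B
  left_inv := by intro A; cases A <;> rfl
  right_inv := by
    rintro (_ | A | ⟨A, B⟩) <;> rfl

theorem tsum_option {X : Type} (g : Option X → ℝ≥0∞) :
    ∑' o, g o = g none + ∑' x, g (some x) := by
  classical
  rw [ENNReal.tsum_eq_add_tsum_ite none]
  congr 1
  symm
  have h := (Option.some_injective X).tsum_eq
    (f := fun o => if o = none then (0 : ℝ≥0∞) else g o) (by
      intro o ho
      cases o with
      | none => simp at ho
      | some x => exact ⟨x, rfl⟩)
  simp only [reduceCtorEq, if_false] at h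
  convert h

theorem tsum_sum' {X Y : Type} (g : X ⊕ Y → ℝ≥0∞) :
    ∑' o, g o = ∑' x, g (Sum.inl x) + ∑' y, g (Sum.inr y) :=
  Summable.tsum_sum ENNReal.summable ENNReal.summable

theorem tsum_fill (g : Fill → ℝ≥0∞) :
    ∑' A, g A = g nil + ∑' A, g (new A) + ∑' A, ∑' B, g (split A B) := by
  rw [← eqv.symm.tsum_eq, tsum_option, tsum_sum', ENNReal.tsum_prod', add_assoc]
  rfl

theorem tsum_le_of_trunc (g : Fill → ℝ≥0∞) (t : ℝ≥0∞)
    (h : ∀ m, ∑' A, (if sz A < m then g A else 0) ≤ t) : ∑' A, g A ≤ t := by
  rw [ENNReal.tsum_eq_iSup_sum]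
  refine iSup_le fun s => le_trans ?_ (h (s.sup sz + 1))
  refine le_trans (le_of_eq ?_) (ENNReal.sum_le_tsum s)
  refine Finset.sum_congr rfl fun A hA => ?_
  rw [if_pos (Nat.lt_succ_of_le (Finset.le_sup hA))]

/-- exponential moment bound through a super-solution -/
theorem exp_bound (y yi z t : ℝ≥0∞) (hy : y * yi = 1)
    (ht : b * y + a * z * yi * t + z * (t * t) ≤ t) :
    ∑' A, bw a b A * (y ^ len A * z ^ sz A) ≤ t := by
  refine tsum_le_of_trunc _ _ fun m => ?_
  induction m with
  | zero => simp
  | succ m ih =>
    rw [tsum_fill]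
    refine le_trans (add_le_add (add_le_add ?_ ?_) ?_) ht
    · simp [bw_nil, len]
    · refine le_trans ?_ (mul_le_mul_right ih _)
      rw [← ENNReal.tsum_mul_left]
      refine ENNReal.tsum_le_tsum fun A => ?_
      by_cases h1 : sz A < m
      · rw [if_pos (by simpa using h1), if_pos h1, bw_new]
        by_cases h2 : 2 ≤ len A
        · rw [if_pos h2]
          obtain ⟨k, hk⟩ : ∃ k, len A = k + 1 := ⟨len A - 1, by omega⟩
          simp only [len, hk, sz_new, Nat.add_sub_cancel, pow_succ]
          refine le_of_eq ?_
          calc a * bw a b A * (y ^ k * (z ^ sz A * z))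
              = a * bw a b A * (y ^ k * (z ^ sz A * z)) * (y * yi) := by rw [hy, mul_one]
            _ = _ := by ring
        · simp [h2]
      · rw [if_neg (by simpa using h1)]; simp
    · refine le_trans ?_ (mul_le_mul_right (mul_le_mul' ih ih) _)
      rw [← ENNReal.tsum_mul_right, ← ENNReal.tsum_mul_left]
      refine ENNReal.tsum_le_tsum fun A => ?_
      rw [← ENNReal.tsum_mul_left, ← ENNReal.tsum_mul_left]
      refine ENNReal.tsum_le_tsum fun B => ?_
      by_cases h1 : sz (split A B) < m + 1
      · have h2 := h1
        rw [sz_split] at h2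
        rw [if_pos h1, if_pos (by omega), if_pos (by omega), bw_split]
        simp only [len, sz_split, pow_add, pow_one]
        exact le_of_eq (by ring)
      · rw [if_neg h1]; simp

/-- second order bound for fillings of length at least two -/
theorem two_bound (ha : a ≤ 1) (y t : ℝ≥0∞) (hy : 2 ≤ y) (ht : t ≠ ∞)
    (h : ∑' A, bw a b A * y ^ len A ≤ t) :
    ∑' A, (if 2 ≤ len A then bw a b A * y ^ len A else 0) ≤ 2 * (t * t) := by
  set X := ∑' A, (if 2 ≤ len A then bw a b A * y ^ len A else 0) with hX
  have hXt : X ≤ t := by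
    refine le_trans (ENNReal.tsum_le_tsum fun A => ?_) h
    split_ifs <;> simp
  have hXf : X ≠ ∞ := ne_top_of_le_ne_top ht hXt
  have h1 : 2 * X ≤ X + 2 * (t * t) := by
    conv_lhs => rw [hX, tsum_fill]
    rw [mul_add, mul_add]
    refine add_le_add ?_ ?_
    · simp only [len]
      rw [if_neg (by omega), mul_zero, zero_add, ← ENNReal.tsum_mul_left]
      refine ENNReal.tsum_le_tsum fun A => ?_
      by_cases h2 : 2 ≤ len A
      · rw [if_pos h2]
        split_ifs
        · rw [bw_new, if_pos h2]
          obtain ⟨k, hk⟩ : ∃ k, len A = k + 1 := ⟨len A - 1, by omega⟩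
          simp only [hk, Nat.add_sub_cancel, pow_succ]
          calc 2 * (a * bw a b A * y ^ k) ≤ y * (1 * bw a b A * y ^ k) := by gcongr
            _ = _ := by ring
        · simp
      · rw [if_neg (by omega)]; simp
    · refine mul_le_mul_right (le_trans ?_ (mul_le_mul' h h)) _
      rw [← ENNReal.tsum_mul_right]
      refine ENNReal.tsum_le_tsum fun A => ?_
      rw [← ENNReal.tsum_mul_left]
      refine ENNReal.tsum_le_tsum fun B => ?_
      split_ifs
      · rw [bw_split]
        simp only [len, pow_add]
        exact le_of_eq (by ring)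
      · simp
  rw [two_mul X] at h1
  exact (ENNReal.add_le_add_iff_left hXf).1 h1

/-- finiteness of the expected size -/
theorem size_bound (L d : ℝ≥0∞) (hb : b ≠ ∞) (hL : L ≠ ∞) (hd : d ≠ 0)
    (h0 : a + 2 * ∑' A, bw a b A ≤ 1) (h1 : ∑' A, bw a b A * len A ≤ L)
    (h2 : 2 * L + d ≤ a) : ∑' A, bw a b A * (sz A + 1 : ℕ) ≠ ∞ := by
  have ha : a ≠ ∞ := ne_top_of_le_ne_top ENNReal.one_ne_top (le_trans le_self_add h0)
  set F := ∑' A, bw a b A with hF
  let X : ℕ → ℝ≥0∞ := fun m =>
    ∑' A, (if sz A < m then bw a b A * (len A * (sz A + 1 : ℕ)) else 0)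
  let Y : ℕ → ℝ≥0∞ := fun m => ∑' A, (if sz A < m then bw a b A * (sz A + 1 : ℕ) else 0)
  have hYX : ∀ m, Y m ≤ X m := by
    intro m
    refine ENNReal.tsum_le_tsum fun A => ?_
    split_ifs
    · by_cases hA : ok A
      · have : (1 : ℝ≥0∞) ≤ len A := by exact_mod_cast len_pos hA
        calc bw a b A * (sz A + 1 : ℕ) = bw a b A * (1 * (sz A + 1 : ℕ)) := by rw [one_mul]
          _ ≤ _ := by gcongr
      · simp [bw_of_not_ok hA]
    · exact le_rfl
  have hXX : ∀ m, X m ≤ X (m + 1) := by
    intro m
    refine ENNReal.tsum_le_tsum fun A => ?_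
    by_cases h : sz A < m
    · rw [if_pos h, if_pos (by omega)]
    · rw [if_neg h]; simp
  have key : ∀ m, X (m + 1) + a * Y m ≤ b + a * L + X m + 2 * L * Y m := by
    intro m
    have e1 : (∑' A, (if sz (new A) < m + 1 then
        bw a b (new A) * (len (new A) * (sz (new A) + 1 : ℕ)) else 0)) + a * Y m
        ≤ a * X m + a * L := by
      refine le_trans ?_ (add_le_add le_rfl (mul_le_mul_right h1 a))
      simp only [X, Y]
      rw [← ENNReal.tsum_mul_left, ← ENNReal.tsum_mul_left, ← ENNReal.tsum_mul_left,
        ← ENNReal.tsum_add, ← ENNReal.tsum_add]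
      refine ENNReal.tsum_le_tsum fun A => ?_
      by_cases h : sz A < m
      · rw [if_pos (by simpa using h), if_pos h, if_pos h, bw_new]
        by_cases hA : ok A
        · obtain ⟨k, hk⟩ : ∃ k, len A = k + 1 := ⟨len A - 1, by have := len_pos hA; omega⟩
          have e : a * bw a b A * ((k : ℝ≥0∞) * ((sz A + 1 + 1 : ℕ))) +
              a * (bw a b A * (sz A + 1 : ℕ)) ≤
              a * (bw a b A * ((k + 1 : ℕ) * (sz A + 1 : ℕ))) + a * (bw a b A * (k + 1 : ℕ)) := by
            push_cast
            calc _ ≤ a * bw a b A * ((k : ℝ≥0∞) * (sz A + 1 + 1)) +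
                a * (bw a b A * (sz A + 1)) + a * bw a b A := le_self_add
              _ = _ := by ring
          refine le_trans (add_le_add ?_ le_rfl) (hk ▸ e)
          simp only [len, hk, sz_new, Nat.add_sub_cancel]
          split_ifs
          · exact le_rfl
          · simp
        · simp [bw_of_not_ok hA]
      · rw [if_neg (by simpa using h), if_neg h]; simp
    have e2 : (∑' A, ∑' B, (if sz (split A B) < m + 1 then
        bw a b (split A B) * (len (split A B) * (sz (split A B) + 1 : ℕ)) else 0))
        ≤ 2 * F * X m + 2 * L * Y m := by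
      have e3 : 2 * F * X m + 2 * (∑' A, bw a b A * len A) * Y m =
          X m * F + F * X m + (∑' A, bw a b A * len A) * Y m
            + Y m * (∑' A, bw a b A * len A) := by ring
      refine le_trans ?_ (add_le_add le_rfl (mul_le_mul_left (mul_le_mul_right h1 2) _))
      rw [e3]
      simp only [X, Y, hF]
      rw [← ENNReal.tsum_mul_right, ← ENNReal.tsum_mul_right, ← ENNReal.tsum_mul_right,
        ← ENNReal.tsum_mul_right, ← ENNReal.tsum_add, ← ENNReal.tsum_add, ← ENNReal.tsum_add]
      refine ENNReal.tsum_le_tsum fun A => ?_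
      rw [← ENNReal.tsum_mul_left, ← ENNReal.tsum_mul_left,
        ← ENNReal.tsum_mul_left, ← ENNReal.tsum_mul_left,
        ← ENNReal.tsum_add, ← ENNReal.tsum_add, ← ENNReal.tsum_add]
      refine ENNReal.tsum_le_tsum fun B => ?_
      by_cases h1 : sz (split A B) < m + 1
      · have h2 := h1
        rw [sz_split] at h2
        rw [if_pos h1, if_pos (by omega), if_pos (by omega), if_pos (by omega),
          if_pos (by omega), bw_split]
        simp only [len, sz_split]
        push_cast
        exact le_of_eq (by ring)
      · rw [if_neg h1]; simp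
    have e4 : X (m + 1) = b + (∑' A, (if sz (new A) < m + 1 then
        bw a b (new A) * (len (new A) * (sz (new A) + 1 : ℕ)) else 0)) +
        ∑' A, ∑' B, (if sz (split A B) < m + 1 then
        bw a b (split A B) * (len (split A B) * (sz (split A B) + 1 : ℕ)) else 0) := by
      simp only [X]
      rw [tsum_fill]
      simp [bw_nil, len]
    rw [e4]
    calc _ = b + ((∑' A, (if sz (new A) < m + 1 then
        bw a b (new A) * (len (new A) * (sz (new A) + 1 : ℕ)) else 0)) + a * Y m) +
        ∑' A, ∑' B, (if sz (split A B) < m + 1 then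
        bw a b (split A B) * (len (split A B) * (sz (split A B) + 1 : ℕ)) else 0) := by ring
      _ ≤ b + (a * X m + a * L) + (2 * F * X m + 2 * L * Y m) := by gcongr
      _ = b + a * L + (a + 2 * F) * X m + 2 * L * Y m := by ring
      _ ≤ b + a * L + 1 * X m + 2 * L * Y m := by gcongr
      _ = _ := by rw [one_mul]
  have hfin : ∀ m, X m ≠ ∞ := by
    intro m
    induction m with
    | zero => simp [X]
    | succ m ih =>
      have hY := ne_top_of_le_ne_top ih (hYX m)
      refine ne_top_of_le_ne_top ?_ (le_trans le_self_add (key m))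
      finiteness
  have hY : ∀ m, Y m ≤ (b + a * L) / d := by
    intro m
    have hYf := ne_top_of_le_ne_top (hfin m) (hYX m)
    have k1 : X m + 2 * L * Y m + d * Y m ≤ X m + 2 * L * Y m + (b + a * L) := by
      calc X m + 2 * L * Y m + d * Y m = X m + (2 * L + d) * Y m := by ring
        _ ≤ X (m + 1) + a * Y m := by gcongr; exact hXX m
        _ ≤ _ := key m
        _ = _ := by ring
    have k2 := (ENNReal.add_le_add_iff_left (by have := hfin m; finiteness)).1 k1
    rw [ENNReal.le_div_iff_mul_le (Or.inl hd) (Or.inr (by finiteness)), mul_comm]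
    exact k2
  refine ne_top_of_le_ne_top ?_ (tsum_le_of_trunc _ _ hY)
  exact ENNReal.div_ne_top (by finiteness) hd

end Fill

end Pool.Agent.MP_7a2e76_pr
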