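import Mathlib

/-! Random walk on a locally finite multigraph: reversibility, Green function and resistance. -/

namespace Pool.Agent.MP_7a2e76_pr

open Set
open scoped ENNReal

structure MG (E V : Type) where
  src : E → V
  flip : E → E
  flip2 : ∀ e, flip (flip e) = e
  fin : ∀ v, {e | src e = v}.Finite

theorem enn_amgm (x y : ℝ≥0∞) : 2 * (x * y) ≤ x * x + y * y := by
  by_cases hx : x = ∞
  · simp [hx]
  by_cases hy : y = ∞
  · simp [hy]
  lift x to NNReal using hx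
  lift y to NNReal using hy
  norm_cast
  rw [← NNReal.coe_le_coe]
  push_cast
  nlinarith [sq_nonneg ((x : ℝ) - y)]

namespace MG

variable {E V : Type} (G : MG E V)

def tgt (e : E) : V := G.src (G.flip e)

noncomputable def star (v : V) : Finset E := (G.fin v).toFinset

noncomputable def deg (v : V) : ℕ := (G.star v).card

theorem mem_star {v : V} {e : E} : e ∈ G.star v ↔ G.src e = v := by simp [star]

theorem tgt_flip (e : E) : G.tgt (G.flip e) = G.src e := by rw [tgt, G.flip2]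

theorem deg_src (e : E) : G.deg (G.src e) ≠ 0 :=
  Finset.card_ne_zero.2 ⟨e, G.mem_star.2 rfl⟩

theorem deg_tgt (e : E) : G.deg (G.tgt e) ≠ 0 := G.deg_src _

noncomputable def avg (Φ : V → ℝ≥0∞) (u : V) : ℝ≥0∞ :=
  (G.deg u : ℝ≥0∞)⁻¹ * ∑ e ∈ G.star u, Φ (G.tgt e)

theorem avg_mono {Φ Ψ : V → ℝ≥0∞} {u : V} (h : ∀ e, G.src e = u → Φ (G.tgt e) ≤ Ψ (G.tgt e)) :
    G.avg Φ u ≤ G.avg Ψ u :=
  mul_le_mul_right (Finset.sum_le_sum fun e he => h e (G.mem_star.1 he)) _

theorem avg_add (Φ Ψ : V → ℝ≥0∞) (u : V) :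
    G.avg (fun w => Φ w + Ψ w) u = G.avg Φ u + G.avg Ψ u := by
  simp only [avg, Finset.sum_add_distrib, mul_add]

theorem avg_mul (c : ℝ≥0∞) (Φ : V → ℝ≥0∞) (u : V) :
    G.avg (fun w => c * Φ w) u = c * G.avg Φ u := by
  simp only [avg, ← Finset.mul_sum, mul_left_comm]

theorem avg_const {u : V} (hu : G.deg u ≠ 0) (c : ℝ≥0∞) : G.avg (fun _ => c) u = c := by
  simp only [avg, Finset.sum_const, nsmul_eq_mul]
  rw [← mul_assoc, show (G.star u).card = G.deg u from rfl,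
    ENNReal.inv_mul_cancel (by simpa using hu) (by simp), one_mul]

theorem avg_le (u : V) (c : ℝ≥0∞) {Φ : V → ℝ≥0∞} (h : ∀ e, G.src e = u → Φ (G.tgt e) ≤ c) :
    G.avg Φ u ≤ c := by
  by_cases hu : G.deg u = 0
  · have : G.star u = ∅ := Finset.card_eq_zero.1 hu
    simp [avg, this]
  · rw [← G.avg_const hu c]; exact G.avg_mono h

theorem deg_avg (Φ : V → ℝ≥0∞) (u : V) :
    G.deg u * G.avg Φ u = ∑ e ∈ G.star u, Φ (G.tgt e) := by
  by_cases hu : G.deg u = 0
  · have : G.star u = ∅ := Finset.card_eq_zero.1 hu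
    simp [avg, this]
  · rw [avg, ← mul_assoc, ENNReal.mul_inv_cancel (by simpa using hu) (by simp), one_mul]

theorem tsum_star (F : E → ℝ≥0∞) : ∑' e, F e = ∑' v, ∑ e ∈ G.star v, F e := by
  rw [← ENNReal.tsum_fiberwise F G.src]
  refine tsum_congr fun v => ?_
  rw [← Finset.tsum_subtype']
  refine tsum_congr_set_coe F ?_
  ext e; simp [star]

theorem tsum_src (F : V → ℝ≥0∞) : ∑' e, F (G.src e) = ∑' v, G.deg v * F v := by
  rw [G.tsum_star]
  refine tsum_congr fun v => ?_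
  rw [Finset.sum_congr rfl (g := fun _ => F v) fun e he => by rw [G.mem_star.1 he]]
  simp [deg]

def flipE : E ≃ E := ⟨G.flip, G.flip, G.flip2, G.flip2⟩

theorem tsum_flip (F : V → V → ℝ≥0∞) :
    ∑' e, F (G.src e) (G.tgt e) = ∑' e, F (G.tgt e) (G.src e) := by
  rw [← G.flipE.tsum_eq]
  refine tsum_congr fun e => ?_
  change F (G.tgt e) (G.tgt (G.flip e)) = _
  rw [tgt_flip]

theorem tsum_avg (f g : V → ℝ≥0∞) :
    ∑' e, f (G.src e) * G.avg g (G.src e) = ∑' e, f (G.src e) * g (G.tgt e) := by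
  rw [G.tsum_src (fun v => f v * G.avg g v), G.tsum_star]
  refine tsum_congr fun v => ?_
  rw [mul_left_comm, deg_avg, Finset.mul_sum]
  exact Finset.sum_congr rfl fun e he => by rw [G.mem_star.1 he]

noncomputable def ip (f g : V → ℝ≥0∞) : ℝ≥0∞ := ∑' e, f (G.src e) * g (G.src e)

theorem ip_comm (f g : V → ℝ≥0∞) : G.ip f g = G.ip g f := tsum_congr fun _ => mul_comm _ _

theorem ip_avg (f g : V → ℝ≥0∞) : G.ip f (G.avg g) = G.ip (G.avg f) g := by
  rw [G.ip_comm (G.avg f), ip, ip, tsum_avg, tsum_avg, G.tsum_flip (fun a b => f a * g b)]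
  exact tsum_congr fun _ => mul_comm _ _

theorem ip_iter (k : ℕ) (f g : V → ℝ≥0∞) : G.ip f (G.avg^[k] g) = G.ip (G.avg^[k] f) g := by
  induction k generalizing f with
  | zero => rfl
  | succ k ih => rw [Function.iterate_succ_apply', ip_avg, ih, Function.iterate_succ_apply]

open Classical in
noncomputable def dl (x : V) : V → ℝ≥0∞ := fun z => if z = x then (G.deg x : ℝ≥0∞)⁻¹ else 0

theorem ip_dl {x : V} (hx : G.deg x ≠ 0) (h : V → ℝ≥0∞) : G.ip (G.dl x) h = h x := by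
  rw [ip, G.tsum_src (fun v => G.dl x v * h v), tsum_eq_single x]
  · simp only [dl, if_true]
    rw [← mul_assoc, ENNReal.mul_inv_cancel (by simpa using hx) (by simp), one_mul]
  · intro v hv; simp [dl, hv]

theorem ip_dl_le (x : V) (h : V → ℝ≥0∞) : G.ip (G.dl x) h ≤ h x := by
  by_cases hx : G.deg x = 0
  · rw [ip, G.tsum_src (fun v => G.dl x v * h v), tsum_eq_single x]
    · simp [hx]
    · intro v hv; simp [dl, hv]
  · exact (G.ip_dl hx h).le

theorem iter_mono (S : Set V) (hS : ∀ e, G.src e ∈ S → G.tgt e ∈ S) {Φ Ψ : V → ℝ≥0∞}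
    (h : ∀ v ∈ S, Φ v ≤ Ψ v) (k : ℕ) : ∀ u ∈ S, G.avg^[k] Φ u ≤ G.avg^[k] Ψ u := by
  induction k with
  | zero => exact h
  | succ k ih =>
    intro u hu
    rw [Function.iterate_succ_apply', Function.iterate_succ_apply']
    exact G.avg_mono fun e he => ih _ (hS e (he ▸ hu))

theorem iter_le (c : ℝ≥0∞) {Φ : V → ℝ≥0∞} (h : ∀ v, Φ v ≤ c) (k : ℕ) :
    ∀ u, G.avg^[k] Φ u ≤ c := by
  induction k with
  | zero => exact h
  | succ k ih =>
    intro u
    rw [Function.iterate_succ_apply']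
    exact G.avg_le u c fun e _ => ih _

/-- expected cost: `ω` at each of the first `k` positions, `Φ` at the last one -/
noncomputable def cst (ω Φ : V → ℝ≥0∞) : ℕ → V → ℝ≥0∞
  | 0 => Φ
  | k + 1 => fun u => ω u + G.avg (cst ω Φ k) u

theorem cst_mono {ω ω' Φ : V → ℝ≥0∞} (h : ∀ v, ω v ≤ ω' v) (k : ℕ) :
    ∀ u, G.cst ω Φ k u ≤ G.cst ω' Φ k u := by
  induction k with
  | zero => exact fun _ => le_rfl
  | succ k ih => exact fun u => add_le_add (h u) (G.avg_mono fun e _ => ih _)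

theorem cst_add (ω ω' Φ Φ' : V → ℝ≥0∞) (k : ℕ) : ∀ u,
    G.cst (fun v => ω v + ω' v) (fun v => Φ v + Φ' v) k u =
      G.cst ω Φ k u + G.cst ω' Φ' k u := by
  induction k with
  | zero => exact fun _ => rfl
  | succ k ih =>
    intro u
    simp only [cst]
    rw [show G.cst (fun v => ω v + ω' v) (fun v => Φ v + Φ' v) k = _ from funext ih, avg_add]
    ring

theorem cst_const (c : ℝ≥0∞) (Φ : V → ℝ≥0∞) (k : ℕ) : ∀ u, G.deg u ≠ 0 →
    G.cst (fun _ => c) Φ k u = G.avg^[k] Φ u + k * c := by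
  induction k with
  | zero => intro u _; simp [cst]
  | succ k ih =>
    intro u hu
    simp only [cst]
    have e : G.avg (G.cst (fun _ => c) Φ k) u = G.avg (fun w => G.avg^[k] Φ w + k * c) u :=
      le_antisymm (G.avg_mono fun e _ => (ih _ (G.deg_tgt e)).le)
        (G.avg_mono fun e _ => (ih _ (G.deg_tgt e)).ge)
    rw [e, avg_add, G.avg_const hu, Function.iterate_succ_apply']
    push_cast; ring

theorem avg_sum {ι : Type} (t : Finset ι) (Φ : ι → V → ℝ≥0∞) (u : V) :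
    G.avg (fun w => ∑ i ∈ t, Φ i w) u = ∑ i ∈ t, G.avg (Φ i) u := by
  simp only [avg]
  rw [Finset.sum_comm, Finset.mul_sum]

theorem cst_eq_sum (ω : V → ℝ≥0∞) (k : ℕ) :
    G.cst ω (fun _ => 0) k = fun u => ∑ i ∈ Finset.range k, G.avg^[i] ω u := by
  induction k with
  | zero => rfl
  | succ k ih =>
    funext u
    simp only [cst]
    rw [ih, avg_sum, Finset.sum_range_succ', add_comm]
    simp only [Function.iterate_succ_apply', Function.iterate_zero, id]

theorem ip_cst (f g : V → ℝ≥0∞) (k : ℕ) :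
    G.ip f (G.cst g (fun _ => 0) k) = G.ip (G.cst f (fun _ => 0) k) g := by
  have e : ∀ f g : V → ℝ≥0∞, G.ip f (G.cst g (fun _ => 0) k) =
      ∑ i ∈ Finset.range k, G.ip f (G.avg^[i] g) := by
    intro f g
    simp only [cst_eq_sum, ip, Finset.mul_sum]
    exact Summable.tsum_finsetSum fun _ _ => ENNReal.summable
  rw [e, G.ip_comm _ g, e]
  exact Finset.sum_congr rfl fun i _ => by rw [ip_iter, ip_comm]

/-- truncated normalised Green function -/
noncomputable def gr (k : ℕ) (x : V) : V → ℝ≥0∞ := G.cst (G.dl x) (fun _ => 0) k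

theorem gr_succ_le (x : V) (k : ℕ) : ∀ y, G.gr k x y ≤ G.gr (k + 1) x y := by
  intro y
  simp only [gr, cst_eq_sum, Finset.sum_range_succ]
  exact le_self_add

theorem gr_max (x : V) (k : ℕ) : ∀ y, G.gr k x y ≤ G.gr k x x := by
  induction k with
  | zero => exact fun _ => le_rfl
  | succ k ih =>
    intro y
    by_cases hy : y = x
    · rw [hy]
    · refine le_trans ?_ (G.gr_succ_le x k x)
      change G.dl x y + G.avg (G.gr k x) y ≤ _
      simp only [dl, if_neg hy, zero_add]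
      exact G.avg_le y _ fun e _ => ih _

theorem cst_green {x : V} (hx : G.deg x ≠ 0) (ω : V → ℝ≥0∞) (k : ℕ) :
    G.cst ω (fun _ => 0) k x ≤ (∑' e, ω (G.src e)) * G.gr k x x := by
  rw [← G.ip_dl hx (G.cst ω _ k), ip_cst, ip, ← ENNReal.tsum_mul_right]
  refine ENNReal.tsum_le_tsum fun e => ?_
  rw [mul_comm]
  exact mul_le_mul_right (G.gr_max x k _) _

theorem gr_mass (x : V) (k : ℕ) : ∑' e, G.gr k x (G.src e) ≤ k := by
  have h := G.ip_cst (fun _ => 1) (G.dl x) k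
  rw [G.ip_comm _ (G.dl x)] at h
  simp only [ip, one_mul] at h
  refine h.le.trans ((G.ip_dl_le x _).trans ?_)
  rw [cst_eq_sum]
  refine le_trans (Finset.sum_le_sum fun i _ => G.iter_le 1 (fun _ => le_rfl) i x) ?_
  simp

/-- energy of a test function, with a mass term -/
noncomputable def En (τ : ℝ≥0∞) (φ : V → ℝ) : ℝ≥0∞ :=
  2⁻¹ * ∑' e, ENNReal.ofReal ((φ (G.src e) - φ (G.tgt e)) ^ 2) +
    τ * ∑' e, ENNReal.ofReal (φ (G.src e) ^ 2)

noncomputable def resist (τ : ℝ≥0∞) (z : V) : ℝ≥0∞ :=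
  ⨆ φ : V → ℝ, ENNReal.ofReal (2 * φ z) - G.En τ φ

theorem resist_le_iff {τ : ℝ≥0∞} {z : V} {R : ℝ≥0∞} :
    G.resist τ z ≤ R ↔ ∀ φ : V → ℝ, ENNReal.ofReal (2 * φ z) ≤ R + G.En τ φ := by
  simp only [resist, iSup_le_iff, tsub_le_iff_right]

theorem En_smul (τ : ℝ≥0∞) (c : ℝ) (φ : V → ℝ) :
    G.En τ (fun v => c * φ v) = ENNReal.ofReal (c ^ 2) * G.En τ φ := by
  simp only [En, ← mul_sub, mul_pow, ENNReal.ofReal_mul (sq_nonneg c), ENNReal.tsum_mul_left]
  ring

theorem gr_fin {x : V} (hx : G.deg x ≠ 0) (k : ℕ) (y : V) : G.gr k x y ≠ ∞ := by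
  refine ne_top_of_le_ne_top (ENNReal.natCast_ne_top k) ((G.gr_max x k y).trans ?_)
  obtain ⟨e, he⟩ := Finset.card_ne_zero.1 hx
  rw [← G.mem_star.1 he]
  refine le_trans ?_ (G.gr_mass (G.src e) k)
  exact ENNReal.le_tsum (f := fun e' => G.gr k (G.src e) (G.src e')) e

theorem gr_energy {x : V} (hx : G.deg x ≠ 0) (τ : ℝ≥0∞) (k : ℕ) :
    G.En τ (fun v => (G.gr k x v).toReal) ≤ (1 + τ * k) * G.gr k x x := by
  set φ := G.gr k x with hφ
  have hf := G.gr_fin hx k
  have hsq : ∀ v, ENNReal.ofReal ((φ v).toReal ^ 2) = φ v * φ v := by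
    intro v
    rw [ENNReal.ofReal_pow ENNReal.toReal_nonneg, ENNReal.ofReal_toReal (hf v), sq]
  have h1 : ∑' e, φ (G.src e) * φ (G.src e) ≤ k * φ x := by
    refine le_trans ?_ (mul_le_mul_left (G.gr_mass x k) _)
    rw [← ENNReal.tsum_mul_right]
    exact ENNReal.tsum_le_tsum fun e => mul_le_mul_right (G.gr_max x k _) _
  have h2 : ∑' e, φ (G.src e) * φ (G.tgt e) ≤ k * φ x := by
    refine le_trans ?_ (mul_le_mul_left (G.gr_mass x k) _)
    rw [← ENNReal.tsum_mul_right]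
    exact ENNReal.tsum_le_tsum fun e => mul_le_mul_right (G.gr_max x k _) _
  have h3 : ∑' e, φ (G.src e) * φ (G.src e) ≤ φ x + ∑' e, φ (G.src e) * φ (G.tgt e) := by
    rw [← G.tsum_avg, ← G.ip_dl hx φ, ip, ← ENNReal.tsum_add]
    refine ENNReal.tsum_le_tsum fun e => ?_
    rw [mul_comm (G.dl x _), ← mul_add]
    exact mul_le_mul_right (G.gr_succ_le x k _) _
  have h4 : ∑' e, ENNReal.ofReal (((φ (G.src e)).toReal - (φ (G.tgt e)).toReal) ^ 2) +
      2 * ∑' e, φ (G.src e) * φ (G.tgt e) = 2 * ∑' e, φ (G.src e) * φ (G.src e) := by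
    rw [two_mul (∑' e, φ (G.src e) * φ (G.src e))]
    conv_rhs => rw [← show ∑' e, φ (G.tgt e) * φ (G.tgt e) = ∑' e, φ (G.src e) * φ (G.src e)
      from (G.tsum_flip (fun a _ => φ a * φ a)).symm]
    conv_rhs => enter [1]; rw [show ∑' e, φ (G.tgt e) * φ (G.tgt e) =
      ∑' e, φ (G.src e) * φ (G.src e) from (G.tsum_flip (fun a _ => φ a * φ a)).symm]
    rw [← ENNReal.tsum_mul_left, ← ENNReal.tsum_add, ← ENNReal.tsum_add]
    refine tsum_congr fun e => ?_
    have a1 := hf (G.src e)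
    have a2 := hf (G.tgt e)
    rw [← hφ] at a1 a2
    generalize φ (G.src e) = a at a1 ⊢
    generalize φ (G.tgt e) = b at a2 ⊢
    lift a to NNReal using a1
    lift b to NNReal using a2
    rw [← ENNReal.toReal_eq_toReal_iff' (by finiteness) (by finiteness),
      ENNReal.toReal_add (by finiteness) (by finiteness),
      ENNReal.toReal_add (by finiteness) (by finiteness), ENNReal.toReal_ofReal (sq_nonneg _)]
    simp only [ENNReal.toReal_mul, ENNReal.coe_toReal, ENNReal.toReal_ofNat]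
    ring
  have h5 : ∑' e, ENNReal.ofReal (((φ (G.src e)).toReal - (φ (G.tgt e)).toReal) ^ 2)
      ≤ 2 * φ x := by
    have hfin : 2 * ∑' e, φ (G.src e) * φ (G.tgt e) ≠ ∞ :=
      ENNReal.mul_ne_top (by simp) (ne_top_of_le_ne_top
        (ENNReal.mul_ne_top (by simp) (hf x)) h2)
    rw [← ENNReal.add_le_add_iff_right hfin, h4, ← mul_add]
    exact mul_le_mul_right h3 2
  simp only [En, hsq]
  calc _ ≤ 2⁻¹ * (2 * φ x) + τ * (k * φ x) := by gcongr
    _ = _ := by
      rw [← mul_assoc, ENNReal.inv_mul_cancel (by simp) (by simp)]; ring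

theorem gr_le_resist {x : V} (hx : G.deg x ≠ 0) (τ : NNReal) (k : ℕ) :
    G.gr k x x ≤ (1 + τ * k) * G.resist τ x := by
  set c : ℝ := 1 + τ * k with hc
  have hc0 : 0 < c := by positivity
  have hce : (1 + τ * k : ℝ≥0∞) = ENNReal.ofReal c := by
    rw [hc, ENNReal.ofReal_add zero_le_one (by positivity), ENNReal.ofReal_mul (by positivity)]
    simp
  have h := G.resist_le_iff.1 (le_refl (G.resist τ x))
    (fun v => c⁻¹ * (G.gr k x v).toReal)
  rw [En_smul] at h
  have h2 := h.trans (add_le_add le_rfl (mul_le_mul_right (G.gr_energy hx τ k) _))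
  have hg := G.gr_fin hx k x
  rw [hce] at h2 ⊢
  generalize G.gr k x x = g at h2 hg ⊢
  have e1 : ENNReal.ofReal (c⁻¹ ^ 2) * (ENNReal.ofReal c * g) = ENNReal.ofReal c⁻¹ * g := by
    rw [← mul_assoc, ← ENNReal.ofReal_mul (by positivity)]
    congr 2; field_simp
  have e2 : ENNReal.ofReal (2 * (c⁻¹ * g.toReal)) =
      ENNReal.ofReal c⁻¹ * g + ENNReal.ofReal c⁻¹ * g := by
    rw [two_mul, ENNReal.ofReal_add (by positivity) (by positivity),
      ENNReal.ofReal_mul (by positivity), ENNReal.ofReal_toReal hg]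
  rw [e1, e2, ENNReal.add_le_add_iff_right (by finiteness)] at h2
  calc g = ENNReal.ofReal c * (ENNReal.ofReal c⁻¹ * g) := by
        rw [← mul_assoc, ← ENNReal.ofReal_mul hc0.le, mul_inv_cancel₀ hc0.ne']; simp
    _ ≤ _ := by gcongr

theorem resist_half (τ : ℝ≥0∞) (z : V) (φ : V → ℝ) :
    ENNReal.ofReal (2 * φ z) ≤ 2 * G.resist τ z + 2⁻¹ * G.En τ φ := by
  have h := G.resist_le_iff.1 (le_refl (G.resist τ z)) (fun v => 2⁻¹ * φ v)
  rw [En_smul] at h
  have e1 : ENNReal.ofReal (2 * φ z) = 2 * ENNReal.ofReal (2 * (2⁻¹ * φ z)) := by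
    rw [← mul_assoc (2 : ℝ), mul_inv_cancel₀ two_ne_zero, one_mul,
      ENNReal.ofReal_mul zero_le_two, ENNReal.ofReal_ofNat]
  rw [e1]
  refine (mul_le_mul_right h 2).trans (le_of_eq ?_)
  rw [mul_add, ← mul_assoc (2 : ℝ≥0∞) (ENNReal.ofReal _)]
  congr 2
  rw [ENNReal.ofReal_pow (by positivity), ENNReal.ofReal_inv_of_pos two_pos,
    ENNReal.ofReal_ofNat, sq, ← mul_assoc, ENNReal.mul_inv_cancel (by simp) (by simp), one_mul]

/-- balls -/
def InB (ρ : V) : ℕ → V → Prop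
  | 0, y => y = ρ
  | r + 1, y => InB ρ r y ∨ ∃ e, InB ρ r (G.src e) ∧ G.tgt e = y

theorem InB.mono {G : MG E V} {ρ y : V} {r r' : ℕ} (h : G.InB ρ r y) (hr : r ≤ r') :
    G.InB ρ r' y := by
  induction hr with
  | refl => exact h
  | step _ ih => exact Or.inl ih

end MG

end Pool.Agent.MP_7a2e76_pr
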