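import Pool.Agent.MP_7a2e76_pr.Real
import Pool.Agent.MP_7a2e76_pr.Graph

/-! The multigraph of a half-plane triangulation and the link with the walk of the statement. -/

namespace Pool.Agent.MP_7a2e76_pr

open Set MeasureTheory
open scoped ENNReal

namespace HalfPlane

variable (H : HalfPlane)

abbrev OE := {x : ℕ × Bool // x.2 = true → H.rev x.1 = x.1}

def osrc (o : H.OE) : ℕ := if o.1.2 = true then H.src (H.nxt o.1.1) else H.src o.1.1

def fw (d : ℕ) : H.OE := ⟨(d, false), by simp⟩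

def oflip (o : H.OE) : H.OE :=
  if o.1.2 = true then H.fw o.1.1
  else if h : H.rev o.1.1 = o.1.1 then ⟨(o.1.1, true), fun _ => h⟩ else H.fw (H.rev o.1.1)

theorem oflip_fw1 {d : ℕ} (h : H.rev d = d) : H.oflip (H.fw d) = ⟨(d, true), fun _ => h⟩ := by
  simp [oflip, fw, h]

theorem oflip_fw2 {d : ℕ} (h : H.rev d ≠ d) : H.oflip (H.fw d) = H.fw (H.rev d) := by
  simp [oflip, fw, h]

theorem oe_cases (o : H.OE) : (∃ d, o = H.fw d) ∨ ∃ d, H.rev d = d ∧ o = H.oflip (H.fw d) := by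
  obtain ⟨⟨d, b⟩, h⟩ := o
  cases b with
  | false => exact Or.inl ⟨d, rfl⟩
  | true => exact Or.inr ⟨d, h rfl, (H.oflip_fw1 (h rfl)).symm⟩

theorem oflip2 (o : H.OE) : H.oflip (H.oflip o) = o := by
  obtain ⟨⟨d, b⟩, h⟩ := o
  cases b with
  | false =>
    change H.oflip (H.oflip (H.fw d)) = H.fw d
    by_cases h1 : H.rev d = d
    · rw [H.oflip_fw1 h1]; simp [oflip]
    · rw [H.oflip_fw2 h1, H.oflip_fw2 (by rw [H.rev2]; exact Ne.symm h1), H.rev2]
  | true =>
    have : H.oflip ⟨(d, true), h⟩ = H.fw d := by simp [oflip]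
    rw [this, H.oflip_fw1 (h rfl)]

def mg : MG H.OE ℕ where
  src := H.osrc
  flip := H.oflip
  flip2 := H.oflip2
  fin := by
    intro v
    refine Finite.of_injOn (f := fun o : H.OE =>
      ((if o.1.2 = true then H.nxt o.1.1 else o.1.1), o.1.2))
      (t := {d | H.src d = v} ×ˢ univ) ?_ ?_ ((H.locfin v).prod finite_univ)
    · intro o ho
      refine ⟨?_, trivial⟩
      simp only [mem_ofPred_eq, osrc] at ho ⊢
      split_ifs at ho ⊢ <;> exact ho
    · rintro ⟨⟨d, b⟩, h⟩ _ ⟨⟨d', b'⟩, h'⟩ _ e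
      simp only [Prod.mk.injEq] at e
      obtain ⟨e1, rfl⟩ := e
      cases b with
      | false => simp at e1; simp [e1]
      | true => simp at e1; simp [H.nxt_inj e1]

theorem src_fw (d : ℕ) : H.mg.src (H.fw d) = H.src d := by simp [mg, osrc, fw]

theorem tgt_fw (d : ℕ) : H.mg.tgt (H.fw d) = H.src (H.nxt d) := by
  change H.osrc (H.oflip (H.fw d)) = _
  by_cases h1 : H.rev d = d
  · rw [H.oflip_fw1 h1]; simp [osrc]
  · rw [H.oflip_fw2 h1]; exact (H.src_fw _).trans (H.src_rev h1)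

theorem src_ne_tgt (o : H.OE) : H.mg.tgt o ≠ H.mg.src o := by
  rcases H.oe_cases o with ⟨d, rfl⟩ | ⟨d, _, rfl⟩
  · rw [src_fw, tgt_fw]; exact H.noloop d
  · change H.mg.tgt (H.mg.flip _) ≠ H.mg.tgt _
    rw [MG.tgt_flip, src_fw, tgt_fw]; exact (H.noloop d).symm

def eset (o : H.OE) : Set ℕ := {o.1.1, H.rev o.1.1}

theorem eset_flip (o : H.OE) : H.eset (H.mg.flip o) = H.eset o := by
  have k : ∀ d, H.eset (H.oflip (H.fw d)) = H.eset (H.fw d) := by
    intro d
    by_cases h1 : H.rev d = d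
    · rw [H.oflip_fw1 h1]; rfl
    · rw [H.oflip_fw2 h1]; simp only [eset, fw, H.rev2]; exact pair_comm _ _
  rcases H.oe_cases o with ⟨d, rfl⟩ | ⟨d, _, rfl⟩
  · exact k d
  · change H.eset (H.oflip (H.oflip _)) = _
    rw [oflip2, k]

theorem eset_eq {o o' : H.OE} (h : H.eset o = H.eset o') : o' = o ∨ o' = H.mg.flip o := by
  have k : ∀ d d', H.eset (H.fw d) = H.eset (H.fw d') →
      H.fw d' = H.fw d ∨ H.fw d' = H.mg.flip (H.fw d) := by
    intro d d' e
    have : d' ∈ H.eset (H.fw d) := by rw [e]; exact Or.inl rfl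
    rcases this with rfl | e2
    · exact Or.inl rfl
    · change d' = H.rev d at e2
      by_cases h1 : H.rev d = d
      · left; rw [e2, h1]
      · right; rw [e2]; exact (H.oflip_fw2 h1).symm
  have c : ∀ o : H.OE, ∃ d, o = H.fw d ∨ o = H.mg.flip (H.fw d) := fun o =>
    (H.oe_cases o).elim (fun ⟨d, h⟩ => ⟨d, Or.inl h⟩) (fun ⟨d, h⟩ => ⟨d, Or.inr h.2⟩)
  obtain ⟨d, rfl | rfl⟩ := c o <;> obtain ⟨d', rfl | rfl⟩ := c o' <;>
    (try simp only [eset_flip] at h) <;> rcases k d d' h with e | e <;> rw [e] <;>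
    simp [H.mg.flip2]

theorem eset_inj (u : ℕ) : InjOn H.eset {o | H.mg.src o = u} := by
  intro o ho o' ho' e
  rcases H.eset_eq e with h | h
  · exact h.symm
  · exact absurd (show H.mg.tgt o = H.mg.src o by
      rw [MG.tgt, ← h]; exact ho'.trans ho.symm) (H.src_ne_tgt o)

theorem eset_of_mem {d0 d : ℕ} (h : d ∈ ({d0, H.rev d0} : Set ℕ)) :
    H.eset (H.fw d) = {d0, H.rev d0} := by
  rcases h with rfl | rfl
  · rfl
  · simp only [eset, fw, H.rev2]; exact pair_comm _ _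

theorem eset_data (o : H.OE) : H.eset o ∈ H.edges ∧ ∃ d ∈ H.eset o,
    (H.src d = H.mg.src o ∧ H.src (H.nxt d) = H.mg.tgt o) ∨
    (H.src d = H.mg.tgt o ∧ H.src (H.nxt d) = H.mg.src o) := by
  refine ⟨⟨o.1.1, rfl⟩, ?_⟩
  rcases H.oe_cases o with ⟨d, rfl⟩ | ⟨d, _, rfl⟩
  · exact ⟨d, Or.inl rfl, Or.inl ⟨(H.src_fw d).symm, (H.tgt_fw d).symm⟩⟩
  · refine ⟨d, ?_, Or.inr ⟨?_, (H.tgt_fw d).symm⟩⟩
    · rw [show H.oflip (H.fw d) = H.mg.flip (H.fw d) from rfl, eset_flip]; exact Or.inl rfl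
    · exact ((H.mg.tgt_flip _).trans (H.src_fw d)).symm

theorem deg_eq (u : ℕ) : H.deg u = H.mg.deg u := by
  have e : {e ∈ H.edges | ∃ d ∈ e, H.src d = u ∨ H.src (H.nxt d) = u} =
      H.eset '' {o | H.mg.src o = u} := by
    ext e
    constructor
    · rintro ⟨⟨d0, rfl⟩, d, hd, h | h⟩
      · exact ⟨H.fw d, (H.src_fw d).trans h, H.eset_of_mem hd⟩
      · exact ⟨H.mg.flip (H.fw d), (H.tgt_fw d).trans h,
          (H.eset_flip _).trans (H.eset_of_mem hd)⟩
    · rintro ⟨o, ho, rfl⟩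
      obtain ⟨h1, d, hd, h2 | h2⟩ := H.eset_data o
      · exact ⟨h1, d, hd, Or.inl (h2.1.trans ho)⟩
      · exact ⟨h1, d, hd, Or.inr (h2.2.trans ho)⟩
  rw [deg, e, (H.eset_inj u).ncard_image, MG.deg, MG.star,
    ncard_eq_toFinset_card _ (H.mg.fin u)]

theorem mult_eq (u v : ℕ) :
    H.mult u v = ((H.mg.star u).filter fun o => H.mg.tgt o = v).card := by
  have e : {e ∈ H.edges | ∃ d ∈ e, s(H.src d, H.src (H.nxt d)) = s(u, v)} =
      H.eset '' {o | H.mg.src o = u ∧ H.mg.tgt o = v} := by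
    ext e
    constructor
    · rintro ⟨⟨d0, rfl⟩, d, hd, h⟩
      rcases Sym2.eq_iff.1 h with h | h
      · exact ⟨H.fw d, ⟨(H.src_fw d).trans h.1, (H.tgt_fw d).trans h.2⟩, H.eset_of_mem hd⟩
      · exact ⟨H.mg.flip (H.fw d), ⟨(H.tgt_fw d).trans h.2,
          (H.mg.tgt_flip _).trans ((H.src_fw d).trans h.1)⟩,
          (H.eset_flip _).trans (H.eset_of_mem hd)⟩
    · rintro ⟨o, ho, rfl⟩
      obtain ⟨h1, d, hd, h2 | h2⟩ := H.eset_data o
      · exact ⟨h1, d, hd, by rw [h2.1, h2.2, ho.1, ho.2]⟩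
      · exact ⟨h1, d, hd, by rw [h2.1, h2.2, ho.1, ho.2, Sym2.eq_swap]⟩
  rw [mult, e, ((H.eset_inj u).mono fun o ho => ho.1).ncard_image, ← ncard_coe_finset]
  congr 1
  ext o; simp [MG.mem_star]

theorem avg_eq (Φ : ℕ → ℝ≥0∞) (u : ℕ) :
    H.mg.avg Φ u = ∑' w, (H.mult u w : ℝ≥0∞) / (H.deg u : ℝ≥0∞) * Φ w := by
  rw [MG.avg, deg_eq]
  have e : ∑ e ∈ H.mg.star u, Φ (H.mg.tgt e) = ∑' w, (H.mult u w : ℝ≥0∞) * Φ w := by
    have : ∀ w, (H.mult u w : ℝ≥0∞) * Φ w =
        ∑ e ∈ H.mg.star u, if H.mg.tgt e = w then Φ w else 0 := by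
      intro w
      rw [mult_eq, ← Finset.sum_filter, Finset.sum_const, nsmul_eq_mul]
    simp only [this]
    rw [Summable.tsum_finsetSum fun _ _ => ENNReal.summable]
    refine Finset.sum_congr rfl fun e _ => ?_
    rw [tsum_eq_single (H.mg.tgt e) (fun w hw => if_neg (Ne.symm hw)), if_pos rfl]
  rw [e, ← ENNReal.tsum_mul_left]
  refine tsum_congr fun w => ?_
  rw [div_eq_mul_inv]; ring

theorem path_sum (Φ : ℕ → ℝ≥0∞) (n : ℕ) : ∀ y,
    ∑' x : Fin (n + 1) → ℕ, (if x 0 = y then ∏ i : Fin n,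
      (H.mult (x i.castSucc) (x i.succ) : ℝ≥0∞) / (H.deg (x i.castSucc) : ℝ≥0∞) else 0) *
      Φ (x (Fin.last n)) = H.mg.avg^[n] Φ y := by
  induction n with
  | zero =>
    intro y
    rw [tsum_eq_single (fun _ => y)]
    · simp
    · intro x hx
      rw [if_neg, zero_mul]
      intro h
      exact hx (funext fun i => by rw [Fin.fin_one_eq_zero i, h])
  | succ n ih =>
    intro y
    rw [Function.iterate_succ_apply', avg_eq, ← (Fin.consEquiv fun _ => ℕ).tsum_eq,
      ENNReal.tsum_prod', tsum_eq_single y]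
    · simp only [← ih, ← ENNReal.tsum_mul_left]
      rw [ENNReal.tsum_comm]
      refine tsum_congr fun x => ?_
      rw [tsum_eq_single (x 0) (fun w hw => by rw [if_neg (Ne.symm hw)]; simp)]
      simp only [Fin.consEquiv_apply, Fin.cons_zero, if_true, Fin.prod_univ_succ,
        Fin.castSucc_zero, Fin.cons_succ, ← Fin.succ_castSucc, ← Fin.succ_last, mul_assoc]
    · intro w hw
      simp [hw]

def Near : ℕ → ℕ → Prop
  | 0, y => y = H.root
  | r + 1, y => Near r y ∨ ∃ w, Near r w ∧ H.graph.Adj w y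

theorem adj_iff {u v : ℕ} : H.graph.Adj u v ↔ ∃ o, H.mg.src o = u ∧ H.mg.tgt o = v := by
  rw [graph, SimpleGraph.fromRel_adj]
  constructor
  · rintro ⟨_, ⟨d, h1, h2⟩ | ⟨d, h1, h2⟩⟩
    · exact ⟨H.fw d, (H.src_fw d).trans h1, (H.tgt_fw d).trans h2⟩
    · exact ⟨H.mg.flip (H.fw d), (H.tgt_fw d).trans h2,
        (H.mg.tgt_flip _).trans ((H.src_fw d).trans h1)⟩
  · rintro ⟨o, rfl, rfl⟩
    obtain ⟨_, d, _, h2 | h2⟩ := H.eset_data o
    · exact ⟨(H.src_ne_tgt o).symm, Or.inl ⟨d, h2⟩⟩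
    · exact ⟨(H.src_ne_tgt o).symm, Or.inr ⟨d, h2⟩⟩

theorem adj_oe (o : H.OE) : H.graph.Adj (H.mg.src o) (H.mg.tgt o) :=
  H.adj_iff.2 ⟨o, rfl, rfl⟩

theorem Near.mono {H : HalfPlane} {y r r' : ℕ} (h : H.Near r y) (hr : r ≤ r') : H.Near r' y := by
  induction hr with
  | refl => exact h
  | step _ ih => exact Or.inl ih

theorem dist_tgt (o : H.OE) :
    H.graph.dist H.root (H.mg.tgt o) ≤ H.graph.dist H.root (H.mg.src o) + 1 := by
  have := (H.adj_oe o).diff_dist_adj (u := H.root)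
  omega

theorem near_iff (r : ℕ) : ∀ y, H.Near r y ↔
    H.graph.Reachable H.root y ∧ H.graph.dist H.root y ≤ r := by
  induction r with
  | zero =>
    intro y
    constructor
    · rintro rfl; exact ⟨SimpleGraph.Reachable.refl _, by simp⟩
    · rintro ⟨h1, h2⟩
      exact (h1.dist_eq_zero_iff.1 (by omega)).symm
  | succ r ih =>
    intro y
    constructor
    · rintro (h | ⟨w, h, ha⟩)
      · exact ⟨((ih y).1 h).1, by have := ((ih y).1 h).2; omega⟩
      · refine ⟨((ih w).1 h).1.trans ha.reachable, ?_⟩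
        have := ha.diff_dist_adj (u := H.root)
        have := ((ih w).1 h).2
        omega
    · rintro ⟨h1, h2⟩
      by_cases h3 : H.graph.dist H.root y ≤ r
      · exact Or.inl ((ih y).2 ⟨h1, h3⟩)
      · obtain ⟨p, hp⟩ := h1.symm.exists_walk_length_eq_dist
        rw [SimpleGraph.dist_comm] at hp
        cases p with
        | nil => simp at h3
        | cons ha q =>
          refine Or.inr ⟨_, (ih _).2 ⟨q.reachable.symm, ?_⟩, ha.symm⟩
          have := SimpleGraph.dist_le q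
          rw [SimpleGraph.dist_comm] at this
          simp only [SimpleGraph.Walk.length_cons] at hp
          omega

theorem deg_root : H.mg.deg H.root ≠ 0 := by
  rw [root, ← H.src_fw]; exact H.mg.deg_src _

open Classical in
theorem iter_far (k : ℕ) : ∀ r u, H.Near r u →
    H.mg.avg^[k] (fun y => if ¬ H.Near (r + k) y then 1 else 0) u = 0 := by
  induction k with
  | zero => intro r u h; simp [h]
  | succ k ih =>
    intro r u h
    rw [Function.iterate_succ_apply']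
    refine le_antisymm (H.mg.avg_le u 0 fun e he => le_of_eq ?_) (by simp)
    rw [show r + (k + 1) = r + 1 + k by ring]
    exact ih (r + 1) _ (Or.inr ⟨u, h, he ▸ H.adj_oe e⟩)

end HalfPlane

theorem meas_near (r : ℕ) : ∀ y, MeasurableSet {H : HalfPlane | H.Near r y} := by
  induction r with
  | zero =>
    intro y
    exact measurableSet_eq_fun measurable_const (meas_src (meas_bd 0))
  | succ r ih =>
    intro y
    simp only [HalfPlane.Near, HalfPlane.graph, SimpleGraph.fromRel_adj,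
      measurableSet_setOfPred] at ih ⊢
    have k : ∀ u v, Measurable fun H : HalfPlane => ∃ d, H.src d = u ∧ H.src (H.nxt d) = v :=
      fun u v => Measurable.exists fun d => (meas_eq (meas_src measurable_const)
        measurable_const).and (meas_eq (meas_src (meas_nxt measurable_const)) measurable_const)
    exact (ih y).or (Measurable.exists fun w => (ih w).and
      (measurable_const.and ((k w y).or (k y w))))

theorem tsum_lintegral_le {X ι : Type} [MeasurableSpace X] (μ : Measure X)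
    (f : ι → X → ℝ≥0∞) : ∑' i, ∫⁻ x, f i x ∂μ ≤ ∫⁻ x, ∑' i, f i x ∂μ := by
  classical
  rw [ENNReal.tsum_eq_iSup_sum]
  refine iSup_le fun t => le_trans ?_ (lintegral_mono fun x => ENNReal.sum_le_tsum t)
  induction t using Finset.induction_on with
  | empty => simp
  | insert i t hi ih =>
    simp only [Finset.sum_insert hi]
    exact (add_le_add le_rfl ih).trans (le_lintegral_add _ _)

open Classical in
theorem walk_bound {P : Measure (HalfPlane × (ℕ → ℕ))} (hW : IsWalk P) (n : ℕ)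
    (p : HalfPlane → ℕ → Prop) (hp : ∀ y, MeasurableSet {H | p H y}) :
    P {z | p z.1 (z.2 n)} ≤
      ∫⁻ H, H.mg.avg^[n] (fun y => if p H y then 1 else 0) H.root ∂P.fst := by
  let ex : (Fin (n + 1) → ℕ) → ℕ → ℕ := fun x i => if h : i < n + 1 then x ⟨i, h⟩ else 0
  have hex : ∀ x (i : Fin (n + 1)), ex x i = x i := fun x i => by simp only [ex, dif_pos i.2]
  have h1 : {z : HalfPlane × (ℕ → ℕ) | p z.1 (z.2 n)} ⊆ ⋃ x : Fin (n + 1) → ℕ,
      {z | z.1 ∈ {H | p H (x (Fin.last n))} ∧ ∀ i ≤ n, z.2 i = ex x i} := by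
    intro z hz
    refine mem_iUnion.2 ⟨fun i => z.2 i, hz, fun i hi => ?_⟩
    simp only [ex, dif_pos (Nat.lt_succ_of_le hi)]
  refine (measure_mono h1).trans ((measure_iUnion_le _).trans ?_)
  simp only [← HalfPlane.path_sum]
  refine le_trans (ENNReal.tsum_le_tsum fun x => ?_) (tsum_lintegral_le _ _)
  rw [hW _ (hp _) n (ex x), ← lintegral_indicator (hp _)]
  refine lintegral_mono fun H => ?_
  by_cases h : p H (x (Fin.last n))
  · rw [indicator_of_mem (show H ∈ {H | p H (x (Fin.last n))} from h), if_pos h, mul_one,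
      Finset.prod_range]
    refine le_of_eq ?_
    have e0 : ex x 0 = x 0 := hex x 0
    rw [e0]
    congr 1
    refine Finset.prod_congr rfl fun i _ => ?_
    rw [show ex x i = x i.castSucc from hex x i.castSucc,
      show ex x (i + 1) = x i.succ from hex x i.succ]
  · rw [indicator_of_notMem (show H ∉ {H | p H (x (Fin.last n))} from h)]; simp

end Pool.Agent.MP_7a2e76_pr
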