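import Pool.Agent.MP_7a2e76_pr.Link
import Pool.Agent.MP_7a2e76_pr.Disc2

/-! Edges at swallowed vertices are exactly the model edges. -/

namespace Pool.Agent.MP_7a2e76_pr

open Set Relation
open scoped ENNReal
open St

namespace St

def hs (s : St) (h : Eid × Bool) : Vx := if h.2 = true then h.1.lft else s.rgt h.1
def ht (s : St) (h : Eid × Bool) : Vx := if h.2 = true then s.rgt h.1 else h.1.lft

open Classical in
noncomputable def mst (s : St) (v : Vx) : Finset (Eid × Bool) :=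
  if h : {h : Eid × Bool | s.isE h.1 ∧ s.hs h = v}.Finite then h.toFinset else ∅

variable {s s' : St}

theorem fin_nO (s : St) : {e | s.isE e ∧ ¬ e.isO}.Finite := by
  refine ((s.A.finite_toSet.image Eid.s1).union
    ((s.A ∪ s.B).finite_toSet.image Eid.s2)).subset ?_
  rintro e ⟨h1, h2⟩
  cases e with
  | orig i => exact absurd trivial h2
  | s1 e => exact Or.inl ⟨e, h1, rfl⟩
  | s2 e => exact Or.inr ⟨e, by simpa [isE] using h1, rfl⟩

theorem Inv.mst_fin (hi : Inv s) (v : Vx) :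
    {h : Eid × Bool | s.isE h.1 ∧ s.hs h = v}.Finite := by
  have h1 : {i : ℤ | Vx.orig i = v ∨ Vx.orig (i + 1) = v}.Finite := by
    refine Finite.union (s := {i | Vx.orig i = v}) (t := {i | Vx.orig (i + 1) = v}) ?_ ?_
    · exact Set.Subsingleton.finite fun i hi j hj => vorig_inj (hi.trans hj.symm)
    · exact Set.Subsingleton.finite fun i hi j hj => by
        have := vorig_inj (hi.trans hj.symm); omega
  refine (((fin_nO s).union (h1.image Eid.orig)).prod (finite_univ (α := Bool))).subset ?_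
  rintro ⟨e, b⟩ ⟨h2, h3⟩
  refine ⟨?_, trivial⟩
  by_cases hO : e.isO
  · obtain ⟨i, rfl⟩ := isO_eq hO
    refine Or.inr ⟨i, ?_, rfl⟩
    cases b with
    | true => exact Or.inl h3
    | false => exact Or.inr ((hi.ro i).symm.trans h3)
  · exact Or.inl ⟨h2, hO⟩

theorem Inv.mem_mst (hi : Inv s) {v : Vx} {h : Eid × Bool} :
    h ∈ s.mst v ↔ s.isE h.1 ∧ s.hs h = v := by
  rw [mst, dif_pos (hi.mst_fin v), Finite.mem_toFinset]; rfl

theorem Inv.hsV (hi : Inv s) {h : Eid × Bool} (he : s.isE h.1) : s.isV (s.hs h) := by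
  unfold hs; split_ifs
  exacts [hi.lV _ he, hi.rV _ he]

theorem Inv.htV (hi : Inv s) {h : Eid × Bool} (he : s.isE h.1) : s.isV (s.ht h) := by
  unfold ht; split_ifs
  exacts [hi.rV _ he, hi.lV _ he]

theorem Ext.hs (h : Ext s s') {x : Eid × Bool} (he : s.isE x.1) : s'.hs x = s.hs x := by
  simp only [St.hs, h.rgt _ he]

theorem Ext.ht (h : Ext s s') {x : Eid × Bool} (he : s.isE x.1) : s'.ht x = s.ht x := by
  simp only [St.ht, h.rgt _ he]

theorem Inv.cov_of_int (hi : Inv s) {h : Eid × Bool} (he : s.isE h.1) (hv : ¬ s.expo (s.hs h)) :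
    s.cov h.1 := by
  refine (hi.covE _ he).resolve_right ?_
  rintro ⟨j, hj⟩
  refine hv ?_
  unfold hs; split_ifs
  · exact ⟨j, by rw [← hj]; rfl⟩
  · exact ⟨j + 1, by rw [← hj, hi.rgtes]⟩

def n (s : St) : ℕ := s.A.card + s.B.card

end St

def HalfPlane.oe (H : HalfPlane) (h : Eid × Bool) : H.OE :=
  if h.2 = true then H.fw (H.out h.1) else H.mg.flip (H.fw (H.out h.1))

variable {s : St} {H : HalfPlane}

theorem Rl.src_oe (r : Rl s H) {h : Eid × Bool} (he : s.isE h.1) :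
    H.mg.src (H.oe h) = H.psi (s.hs h) := by
  unfold HalfPlane.oe hs
  split_ifs
  · rw [H.src_fw, r.l _ he]
  · exact (H.tgt_fw _).trans (r.r _ he)

theorem Rl.tgt_oe (r : Rl s H) {h : Eid × Bool} (he : s.isE h.1) :
    H.mg.tgt (H.oe h) = H.psi (s.ht h) := by
  unfold HalfPlane.oe ht
  split_ifs
  · rw [H.tgt_fw, r.r _ he]
  · rw [MG.tgt_flip, H.src_fw, r.l _ he]

theorem Rl.oe_inj (r : Rl s H) {h h' : Eid × Bool} (he : s.isE h.1) (he' : s.isE h'.1)
    (e : H.oe h = H.oe h') : h = h' := by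
  have fi : ∀ {d d'}, H.fw d = H.fw d' → d = d' := fun h => by
    simpa [HalfPlane.fw] using h
  have mix : ∀ e e', s.isE e → s.isE e' → H.fw (H.out e) ≠ H.mg.flip (H.fw (H.out e')) := by
    intro e e' h1 h2 k
    change H.fw (H.out e) = H.oflip (H.fw (H.out e')) at k
    by_cases h3 : H.rev (H.out e') = H.out e'
    · rw [H.oflip_fw1 h3] at k; simp [HalfPlane.fw] at k
    · rw [H.oflip_fw2 h3] at k
      refine r.j e h1 e' h2 (fun hO => ?_) (fi k)
      obtain ⟨i, rfl⟩ := isO_eq hO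
      exact h3 (H.rev_bd i)
  obtain ⟨e1, b1⟩ := h
  obtain ⟨e2, b2⟩ := h'
  cases b1 <;> cases b2 <;> simp only [HalfPlane.oe, if_true, Bool.false_eq_true, if_false] at e
  · rw [r.i e1 he e2 he' (fi (H.mg.flipE.injective e))]
  · exact absurd e.symm (mix _ _ he' he)
  · exact absurd e (mix _ _ he he')
  · rw [r.i e1 he e2 he' (fi e)]

theorem Rl.star_surj (r : Rl s H) (hi : Inv s) {v : Vx} (hv : s.isV v) (hx : ¬ s.expo v)
    {o : H.OE} (ho : H.mg.src o = H.psi v) : ∃ h ∈ s.mst v, H.oe h = o := by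
  let S : ℕ → Prop := fun d => ∃ e, s.tri e ∧
    (d = H.out e ∨ d = H.nxt (H.out e) ∨ d = H.nxt (H.nxt (H.out e)))
  have Sn : ∀ d, S d → S (H.nxt d) := by
    rintro d ⟨e, he, rfl | rfl | rfl⟩
    · exact ⟨e, he, Or.inr (Or.inl rfl)⟩
    · exact ⟨e, he, Or.inr (Or.inr rfl)⟩
    · exact ⟨e, he, Or.inl (H.nxt3 _)⟩
  have S1 : ∀ e, s.cov e → S (H.out e) := by
    rintro e (he | he | ⟨e', he, rfl⟩)
    · exact ⟨e, Or.inl he, Or.inl rfl⟩
    · exact ⟨e, Or.inr he, Or.inl rfl⟩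
    · exact ⟨e', Or.inr he, Or.inr (Or.inl (r.m e' he).symm)⟩
  have S2 : ∀ e, s.isE e → ¬ e.isO → S (H.rev (H.out e)) := by
    intro e he hO
    cases e with
    | orig i => exact absurd trivial hO
    | s1 e => exact ⟨e, Or.inl he, Or.inr (Or.inl (H.rev2 _))⟩
    | s2 e => exact ⟨e, he, Or.inr (Or.inr (H.rev2 _))⟩
  have S3 : ∀ d, S d → ∃ e, s.isE e ∧ (d = H.out e ∨ (¬ e.isO ∧ d = H.rev (H.out e))) := by
    rintro d ⟨e, he, rfl | rfl | rfl⟩
    · exact ⟨e, hi.triE he, Or.inl rfl⟩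
    · rcases he with he | he
      · exact ⟨.s1 e, he, Or.inr ⟨id, (H.rev2 _).symm⟩⟩
      · exact ⟨s.mate e, hi.ME e he, Or.inl (r.m e he)⟩
    · exact ⟨.s2 e, he, Or.inr ⟨id, (H.rev2 _).symm⟩⟩
  have nfix : ∀ e, s.isE e → ¬ e.isO → H.rev (H.out e) ≠ H.out e := fun e he hO k =>
    r.j e he e he hO k.symm
  have nO : ∀ e : Eid, H.rev (H.out e) ≠ H.out e → ¬ e.isO := fun e k hO => by
    obtain ⟨i, rfl⟩ := isO_eq hO
    exact k (H.rev_bd i)
  have cl : ∀ e, s.isE e → H.src (H.out e) = H.psi v → e.lft = v := fun e he k =>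
    r.v _ (hi.lV e he) _ hv ((r.l e he).symm.trans k)
  have cr : ∀ e, s.isE e → H.src (H.nxt (H.out e)) = H.psi v → s.rgt e = v := fun e he k =>
    r.v _ (hi.rV e he) _ hv ((r.r e he).symm.trans k)
  have covl : ∀ e, s.isE e → e.lft = v → s.cov e := fun e he k =>
    hi.cov_of_int (h := (e, true)) he (by simpa [hs, k] using hx)
  have covr : ∀ e, s.isE e → s.rgt e = v → s.cov e := fun e he k =>
    hi.cov_of_int (h := (e, false)) he (by simpa [hs, k] using hx)
  have key : ∀ a b, EqvGen (fun x y => H.rev y ≠ y ∧ x = H.nxt (H.rev y)) a b →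
      H.src a = H.psi v → (S a ↔ S b) := by
    intro a b hab
    induction hab with
    | rel x y hxy =>
      obtain ⟨h1, rfl⟩ := hxy
      intro h2
      have h3 : H.src y = H.psi v := (H.nxt_rev h1).symm.trans h2
      constructor
      · intro k
        have k2 := Sn _ (Sn _ k)
        rw [H.nxt3] at k2
        obtain ⟨e, he, k3 | ⟨_, k3⟩⟩ := S3 _ k2
        · have : y = H.rev (H.out e) := by rw [← k3, H.rev2]
          rw [this]
          refine S2 e he (nO e ?_)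
          rw [← this, ← k3]; exact h1.symm
        · have : y = H.out e := H.rev_inj k3
          rw [this] at h3 ⊢
          exact S1 e (covl e he (cl e he h3))
      · intro k
        obtain ⟨e, he, rfl | ⟨hO, rfl⟩⟩ := S3 _ k
        · exact Sn _ (S2 e he (nO e h1))
        · rw [H.rev2] at h2 ⊢
          exact Sn _ (S1 e (covr e he (cr e he h2)))
    | refl x => exact fun _ => Iff.rfl
    | symm x y hxy ih => exact fun k => (ih (((H.vert x y).2 hxy).trans k)).symm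
    | trans x y z hxy _ ih ih' =>
      exact fun k => (ih k).trans (ih' (((H.vert x y).2 hxy).symm.trans k))
  have all : ∀ d, H.src d = H.psi v → S d := by
    obtain ⟨d0, h1, h2⟩ : ∃ d0, H.src d0 = H.psi v ∧ S d0 := by
      cases v with
      | orig i => exact ⟨H.bd i, rfl, S1 (.orig i) (covl (.orig i) trivial rfl)⟩
      | apex e => exact ⟨_, rfl, e, Or.inl hv, Or.inr (Or.inr rfl)⟩
    exact fun d hd => (key d0 d ((H.vert _ _).1 (h1.trans hd.symm)) h1).1 h2
  rcases H.oe_cases o with ⟨d, rfl⟩ | ⟨d, hd, rfl⟩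
  · rw [H.src_fw] at ho
    obtain ⟨e, he, rfl | ⟨hO, rfl⟩⟩ := S3 d (all d ho)
    · exact ⟨(e, true), hi.mem_mst.2 ⟨he, cl e he ho⟩, rfl⟩
    · refine ⟨(e, false), hi.mem_mst.2 ⟨he, cr e he ?_⟩, H.oflip_fw2 (nfix e he hO)⟩
      rw [← H.src_rev (nfix e he hO)]; exact ho
  · obtain ⟨i, rfl⟩ := (H.bdry d).1 hd
    exact ⟨(.orig i, false), hi.mem_mst.2 ⟨trivial, cr (.orig i) trivial
      ((H.tgt_fw _).symm.trans ho)⟩, rfl⟩

theorem Rl.sum_star (r : Rl s H) (hi : Inv s) {v : Vx} (hv : s.isV v) (hx : ¬ s.expo v)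
    {M : Type} [AddCommMonoid M] (F : H.OE → M) :
    ∑ o ∈ H.mg.star (H.psi v), F o = ∑ h ∈ s.mst v, F (H.oe h) := by
  symm
  refine Finset.sum_bij (fun h _ => H.oe h) ?_ ?_ ?_ (fun _ _ => rfl)
  · intro h hh
    rw [hi.mem_mst] at hh
    rw [MG.mem_star, r.src_oe hh.1, hh.2]
  · intro h hh h' hh' e
    exact r.oe_inj (hi.mem_mst.1 hh).1 (hi.mem_mst.1 hh').1 e
  · intro o ho
    obtain ⟨h, h1, h2⟩ := r.star_surj hi hv hx (H.mg.mem_star.1 ho)
    exact ⟨h, h1, h2⟩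

theorem Rl.deg_eq (r : Rl s H) (hi : Inv s) {v : Vx} (hv : s.isV v) (hx : ¬ s.expo v) :
    H.mg.deg (H.psi v) = (s.mst v).card := by
  simpa [MG.deg] using r.sum_star hi hv hx (fun _ => (1 : ℕ))

theorem Rl.avg_eq (r : Rl s H) (hi : Inv s) {v : Vx} (hv : s.isV v) (hx : ¬ s.expo v)
    (Φ : ℕ → ℝ≥0∞) : H.mg.avg Φ (H.psi v) =
      ((s.mst v).card : ℝ≥0∞)⁻¹ * ∑ h ∈ s.mst v, Φ (H.psi (s.ht h)) := by
  rw [MG.avg, r.deg_eq hi hv hx, r.sum_star hi hv hx]
  congr 1
  exact Finset.sum_congr rfl fun h hh => by rw [r.tgt_oe (hi.mem_mst.1 hh).1]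

theorem Rl.adj (r : Rl s H) (hi : Inv s) {v : Vx} (hv : s.isV v) (hx : ¬ s.expo v) {y : ℕ}
    (ha : H.graph.Adj (H.psi v) y) : ∃ h, s.isE h.1 ∧ s.hs h = v ∧ H.psi (s.ht h) = y := by
  obtain ⟨o, h1, rfl⟩ := H.adj_iff.1 ha
  obtain ⟨h, h2, rfl⟩ := r.star_surj hi hv hx h1
  rw [hi.mem_mst] at h2
  exact ⟨h, h2.1, h2.2, (r.tgt_oe h2.1).symm⟩

theorem exists_oe (s : St) {v : Vx} (hv : s.isV v) : ∃ h : Eid × Bool, s.isE h.1 ∧ s.hs h = v := by
  cases v with
  | orig i => exact ⟨(.orig i, true), trivial, rfl⟩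
  | apex e => exact ⟨(.s1 e, true), hv, rfl⟩

theorem Rl.deg_ne (r : Rl s H) {v : Vx} (hv : s.isV v) : H.mg.deg (H.psi v) ≠ 0 := by
  obtain ⟨h, h1, rfl⟩ := exists_oe s hv
  rw [← r.src_oe h1]; exact H.mg.deg_src _

theorem sum_le_tsum_inj {X Y : Type} (t : Finset X) (f : X → Y) (hf : InjOn f t)
    (F : Y → ℝ≥0∞) : ∑ x ∈ t, F (f x) ≤ ∑' y, F y := by
  classical
  rw [← Finset.sum_image hf]
  exact ENNReal.sum_le_tsum _

/-- energy of the model part -/
noncomputable def St.mEn (s : St) (τ : NNReal) (ES : Finset Eid) (VS : Finset Vx)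
    (φ : Vx → ℝ) : ℝ :=
  ∑ e ∈ ES, (φ e.lft - φ (s.rgt e)) ^ 2 + τ * ∑ v ∈ VS, φ v ^ 2

theorem Rl.energy (r : Rl s H) (τ : NNReal) (ES : Finset Eid) (VS : Finset Vx)
    (hE : ∀ e ∈ ES, s.isE e) (hV : ∀ v ∈ VS, s.isV v) (φ : ℕ → ℝ) :
    ENNReal.ofReal (s.mEn τ ES VS fun v => φ (H.psi v)) ≤ H.mg.En τ φ := by
  rw [St.mEn, ENNReal.ofReal_add (by positivity) (by positivity), MG.En]
  refine add_le_add ?_ ?_
  · have h := sum_le_tsum_inj (ES ×ˢ (Finset.univ : Finset Bool)) H.oe (by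
      intro h hh h' hh' e
      exact r.oe_inj (hE _ (Finset.mem_product.1 hh).1) (hE _ (Finset.mem_product.1 hh').1) e)
      (fun o => ENNReal.ofReal ((φ (H.mg.src o) - φ (H.mg.tgt o)) ^ 2))
    refine le_trans (le_of_eq ?_) (mul_le_mul_right h _)
    rw [Finset.sum_product, ENNReal.ofReal_sum_of_nonneg (fun _ _ => sq_nonneg _),
      Finset.mul_sum]
    refine Finset.sum_congr rfl fun e he => ?_
    rw [Fintype.sum_bool, r.src_oe (h := (e, true)) (hE e he),
      r.tgt_oe (h := (e, true)) (hE e he), r.src_oe (h := (e, false)) (hE e he),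
      r.tgt_oe (h := (e, false)) (hE e he)]
    simp only [hs, ht, if_true, Bool.false_eq_true, if_false]
    rw [show (φ (H.psi (s.rgt e)) - φ (H.psi e.lft)) ^ 2 =
      (φ (H.psi e.lft) - φ (H.psi (s.rgt e))) ^ 2 by ring, ← two_mul, ← mul_assoc,
      ENNReal.inv_mul_cancel (by simp) (by simp), one_mul]
  · rw [ENNReal.ofReal_mul (by positivity), ENNReal.ofReal_coe_nnreal,
      ENNReal.ofReal_sum_of_nonneg (fun _ _ => sq_nonneg _)]
    refine mul_le_mul_right ?_ _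
    have : ∀ v, ∃ h : Eid × Bool, s.isV v → s.isE h.1 ∧ s.hs h = v := fun v => by
      by_cases hv : s.isV v
      · obtain ⟨h, hh⟩ := exists_oe s hv; exact ⟨h, fun _ => hh⟩
      · exact ⟨(.orig 0, true), fun k => absurd k hv⟩
    choose g hg using this
    have h := sum_le_tsum_inj VS (fun v => H.oe (g v)) (by
      intro v hv v' hv' e
      have := r.oe_inj (hg v (hV v hv)).1 (hg v' (hV v' hv')).1 e
      rw [← (hg v (hV v hv)).2, this, (hg v' (hV v' hv')).2])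
      (fun o => ENNReal.ofReal (φ (H.mg.src o) ^ 2))
    refine le_trans (le_of_eq (Finset.sum_congr rfl fun v hv => ?_)) h
    rw [r.src_oe (hg v (hV v hv)).1, (hg v (hV v hv)).2]

open Classical in
theorem Rl.volume (r : Rl s H) (hi : Inv s) (p : ℕ → Prop)
    (hp : ∀ y, p y → ∃ v, s.isV v ∧ ¬ s.expo v ∧ H.psi v = y) :
    ∑' o, (if p (H.mg.src o) then (1 : ℝ≥0∞) else 0) ≤ 4 * s.n := by
  let U : Finset H.OE := ((s.A ∪ s.B ∪ s.B.image s.mate) ×ˢ (Finset.univ : Finset Bool)).image H.oe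
  rw [tsum_eq_sum (s := U)]
  · refine le_trans (Finset.sum_le_sum (g := fun _ => 1) fun o _ => by split_ifs <;> simp) ?_
    rw [Finset.sum_const, nsmul_eq_mul, mul_one]
    have h1 : U.card ≤ 4 * s.n := by
      refine Finset.card_image_le.trans ?_
      rw [Finset.card_product]
      have := Finset.card_union_le (s.A ∪ s.B) (s.B.image s.mate)
      have := Finset.card_union_le s.A s.B
      have := Finset.card_image_le (s := s.B) (f := s.mate)
      simp only [Finset.card_univ, Fintype.card_bool, St.n]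
      omega
    exact_mod_cast h1
  · intro o ho
    rw [if_neg]
    intro k
    obtain ⟨v, h1, h2, h3⟩ := hp _ k
    obtain ⟨h, h4, rfl⟩ := r.star_surj hi h1 h2 h3.symm
    rw [hi.mem_mst] at h4
    refine ho (Finset.mem_image_of_mem _ (Finset.mem_product.2 ⟨?_, Finset.mem_univ _⟩))
    rcases hi.cov_of_int h4.1 (h4.2 ▸ h2) with k | k | ⟨e, k, k'⟩ <;>
      simp only [Finset.mem_union, Finset.mem_image]
    exacts [Or.inl (Or.inl k), Or.inl (Or.inr k), Or.inr ⟨e, k, k'⟩]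

end Pool.Agent.MP_7a2e76_pr
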