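import Pool.Agent.MP_7a2e76_pr.Fill

/-! The abstract explored region: canonical names for edges and vertices, states, moves. -/

namespace Pool.Agent.MP_7a2e76_pr

inductive Eid where
  | orig : ℤ → Eid
  | s1 : Eid → Eid
  | s2 : Eid → Eid
  deriving DecidableEq

inductive Vx where
  | orig : ℤ → Vx
  | apex : Eid → Vx
  deriving DecidableEq

def Eid.code : Eid → ℕ
  | .orig i => 3 * Encodable.encode i
  | .s1 e => 3 * code e + 1
  | .s2 e => 3 * code e + 2

theorem Eid.code_inj : Function.Injective Eid.code := by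
  intro e
  induction e with
  | orig i =>
    intro e' h
    cases e' with
    | orig i' =>
      simp only [code] at h
      rw [Encodable.encode_injective (by omega : Encodable.encode i = Encodable.encode i')]
    | s1 e' => simp only [code] at h; omega
    | s2 e' => simp only [code] at h; omega
  | s1 e ih =>
    intro e' h
    cases e' with
    | orig i' => simp only [code] at h; omega
    | s1 e' => simp only [code] at h; rw [ih (by omega : code e = code e')]
    | s2 e' => simp only [code] at h; omega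
  | s2 e ih =>
    intro e' h
    cases e' with
    | orig i' => simp only [code] at h; omega
    | s1 e' => simp only [code] at h; omega
    | s2 e' => simp only [code] at h; rw [ih (by omega : code e = code e')]

instance : Countable Eid := Eid.code_inj.countable

instance : Countable Vx := by
  refine Function.Injective.countable (f := fun v : Vx => match v with
    | .orig i => (Sum.inl i : ℤ ⊕ Eid)
    | .apex e => Sum.inr e) ?_
  intro v w h
  cases v <;> cases w <;> simp_all

def Eid.lft : Eid → Vx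
  | .orig i => .orig i
  | .s1 e => .apex e
  | .s2 e => lft e

def Eid.isO : Eid → Prop
  | .orig _ => True
  | _ => False

def Vx.isO : Vx → Prop
  | .orig _ => True
  | _ => False

structure St where
  A : Finset Eid
  B : Finset Eid
  es : ℤ → Eid
  rgt : Eid → Vx
  mate : Eid → Eid

namespace St

def vs (s : St) (j : ℤ) : Vx := (s.es j).lft

def isE (s : St) : Eid → Prop
  | .orig _ => True
  | .s1 e => e ∈ s.A
  | .s2 e => e ∈ s.A ∨ e ∈ s.B

def isV (s : St) : Vx → Prop
  | .orig _ => True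
  | .apex e => e ∈ s.A

def cov (s : St) (e : Eid) : Prop := e ∈ s.A ∨ e ∈ s.B ∨ ∃ e' ∈ s.B, s.mate e' = e

def expo (s : St) (v : Vx) : Prop := ∃ j, s.vs j = v

def init : St where
  A := ∅
  B := ∅
  es := Eid.orig
  rgt := fun e => match e with
    | .orig i => .orig (i + 1)
    | _ => .orig 0
  mate := id

def mvA (s : St) (j : ℤ) : St where
  A := insert (s.es j) s.A
  B := s.B
  es := fun i => if i < j then s.es i else if i = j then .s2 (s.es j)
    else if i = j + 1 then .s1 (s.es j) else s.es (i - 1)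
  rgt := fun e => if e = .s2 (s.es j) then .apex (s.es j)
    else if e = .s1 (s.es j) then s.rgt (s.es j) else s.rgt e
  mate := s.mate

def mvB (s : St) (j : ℤ) : St where
  A := s.A
  B := insert (s.es j) s.B
  es := fun i => if i < j then s.es i else if i = j then .s2 (s.es j) else s.es (i + 1)
  rgt := fun e => if e = .s2 (s.es j) then s.rgt (s.es (j + 1)) else s.rgt e
  mate := fun e => if e = s.es j then s.es (j + 1) else s.mate e

structure Inv (s : St) : Prop where
  esE : ∀ j, s.isE (s.es j)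
  esN : ∀ j, ¬ s.cov (s.es j)
  covE : ∀ e, s.isE e → s.cov e ∨ ∃ j, s.es j = e
  vinj : Function.Injective s.vs
  rgtes : ∀ j, s.rgt (s.es j) = s.vs (j + 1)
  AE : ∀ e ∈ s.A, s.isE e
  BE : ∀ e ∈ s.B, s.isE e
  ME : ∀ e ∈ s.B, s.isE (s.mate e)
  AB : ∀ e ∈ s.A, e ∉ s.B
  Minj : ∀ e ∈ s.B, ∀ e' ∈ s.B, s.mate e = s.mate e' → e = e'
  MA : ∀ e ∈ s.B, s.mate e ∉ s.A
  MB : ∀ e ∈ s.B, s.mate e ∉ s.B
  ro : ∀ i, s.rgt (.orig i) = .orig (i + 1)
  r1 : ∀ e ∈ s.A, s.rgt (.s1 e) = s.rgt e
  r2 : ∀ e ∈ s.A, s.rgt (.s2 e) = .apex e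
  lm : ∀ e ∈ s.B, (s.mate e).lft = s.rgt e
  rm : ∀ e ∈ s.B, s.rgt (.s2 e) = s.rgt (s.mate e)
  lV : ∀ e, s.isE e → s.isV e.lft
  rV : ∀ e, s.isE e → s.isV (s.rgt e)
  ne : ∀ e, s.isE e → e.lft ≠ s.rgt e
  fin : ∃ p q : ℤ, ∀ j, (j < p ∨ q ≤ j) → (s.es j).isO

theorem inv_init : Inv init := by
  refine ⟨fun _ => trivial, fun j => by simp [cov, init], ?_, ?_, fun j => rfl,
    by simp [init], by simp [init], by simp [init], by simp [init], by simp [init],
    by simp [init], by simp [init], fun _ => rfl, by simp [init], by simp [init],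
    by simp [init], by simp [init], ?_, ?_, ?_, ⟨0, 0, fun _ _ => trivial⟩⟩
  · intro e he
    cases e with
    | orig i => exact Or.inr ⟨i, rfl⟩
    | s1 e => simp [isE, init] at he
    | s2 e => simp [isE, init] at he
  · intro i j h
    simpa [vs, init, Eid.lft] using h
  · intro e he
    cases e with
    | orig i => trivial
    | s1 e => simp [isE, init] at he
    | s2 e => simp [isE, init] at he
  · intro e he
    cases e <;> trivial
  · intro e he
    cases e with
    | orig i => simp [init, Eid.lft]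
    | s1 e => simp [isE, init] at he
    | s2 e => simp [isE, init] at he

variable {s : St}

theorem Inv.esinj (h : Inv s) : Function.Injective s.es := fun i j hij =>
  h.vinj (by simp [vs, hij])

theorem Inv.nA (h : Inv s) (j : ℤ) : s.es j ∉ s.A := fun hh => h.esN j (Or.inl hh)
theorem Inv.nB (h : Inv s) (j : ℤ) : s.es j ∉ s.B := fun hh => h.esN j (Or.inr (Or.inl hh))
theorem Inv.nM (h : Inv s) (j : ℤ) {e : Eid} (he : e ∈ s.B) : s.mate e ≠ s.es j :=
  fun hh => h.esN j (Or.inr (Or.inr ⟨e, he, hh⟩))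
theorem Inv.n1 (h : Inv s) (j : ℤ) : ¬ s.isE (.s1 (s.es j)) := h.nA j
theorem Inv.n2 (h : Inv s) (j : ℤ) : ¬ s.isE (.s2 (s.es j)) := fun hh =>
  hh.elim (h.nA j) (h.nB j)
theorem Inv.nV (h : Inv s) (j : ℤ) : ¬ s.isV (.apex (s.es j)) := h.nA j
theorem Inv.vsV (h : Inv s) (j : ℤ) : s.isV (s.vs j) := h.lV _ (h.esE j)
theorem Inv.covisE (h : Inv s) {e : Eid} (he : s.cov e) : s.isE e := by
  rcases he with he | he | ⟨e', he, rfl⟩
  exacts [h.AE _ he, h.BE _ he, h.ME _ he]

theorem mvA_es (j i : ℤ) : (s.mvA j).es i = if i < j then s.es i else if i = j then .s2 (s.es j)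
    else if i = j + 1 then .s1 (s.es j) else s.es (i - 1) := rfl

theorem mvA_vs (j i : ℤ) : (s.mvA j).vs i = if i ≤ j then s.vs i
    else if i = j + 1 then .apex (s.es j) else s.vs (i - 1) := by
  simp only [vs, mvA_es]
  split_ifs <;> first | rfl | omega | (subst_vars; rfl)

theorem mvA_isE (j : ℤ) (e : Eid) :
    (s.mvA j).isE e ↔ s.isE e ∨ e = .s1 (s.es j) ∨ e = .s2 (s.es j) := by
  cases e <;> simp [isE, mvA] <;> tauto

theorem mvA_isV (j : ℤ) (v : Vx) : (s.mvA j).isV v ↔ s.isV v ∨ v = .apex (s.es j) := by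
  cases v <;> simp [isV, mvA]; tauto

theorem mvA_cov (j : ℤ) (e : Eid) : (s.mvA j).cov e ↔ s.cov e ∨ e = s.es j := by
  simp only [cov, mvA, Finset.mem_insert]
  generalize (∃ e' ∈ s.B, s.mate e' = e) = P
  tauto

theorem mvA_rgt (h : Inv s) (j : ℤ) {e : Eid} (he : s.isE e) : (s.mvA j).rgt e = s.rgt e := by
  simp only [mvA]
  rw [if_neg (by rintro rfl; exact h.n2 j he), if_neg (by rintro rfl; exact h.n1 j he)]

theorem mvA_rgt1 (j : ℤ) : (s.mvA j).rgt (.s1 (s.es j)) = s.rgt (s.es j) := by simp [mvA]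
theorem mvA_rgt2 (j : ℤ) : (s.mvA j).rgt (.s2 (s.es j)) = .apex (s.es j) := by simp [mvA]

theorem mvB_es (j i : ℤ) : (s.mvB j).es i = if i < j then s.es i else if i = j then .s2 (s.es j)
    else s.es (i + 1) := rfl

theorem mvB_vs (j i : ℤ) : (s.mvB j).vs i = if i ≤ j then s.vs i else s.vs (i + 1) := by
  simp only [vs, mvB_es]
  split_ifs <;> first | rfl | omega | (subst_vars; rfl)

theorem mvB_isE (j : ℤ) (e : Eid) : (s.mvB j).isE e ↔ s.isE e ∨ e = .s2 (s.es j) := by
  cases e <;> simp [isE, mvB]; tauto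

theorem mvB_isV (j : ℤ) (v : Vx) : (s.mvB j).isV v ↔ s.isV v := by
  cases v <;> simp [isV, mvB]

theorem mvB_mate (h : Inv s) (j : ℤ) {e : Eid} (he : e ∈ s.B) :
    (s.mvB j).mate e = s.mate e := by
  simp only [mvB]
  rw [if_neg (by rintro rfl; exact h.nB j he)]

theorem mvB_mate' (j : ℤ) : (s.mvB j).mate (s.es j) = s.es (j + 1) := by simp [mvB]

theorem mvB_mem (j : ℤ) (e : Eid) : e ∈ (s.mvB j).B ↔ e = s.es j ∨ e ∈ s.B := by simp [mvB]

theorem mvA_mem (j : ℤ) (e : Eid) : e ∈ (s.mvA j).A ↔ e = s.es j ∨ e ∈ s.A := by simp [mvA]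

theorem mvB_cov (h : Inv s) (j : ℤ) (e : Eid) :
    (s.mvB j).cov e ↔ s.cov e ∨ e = s.es j ∨ e = s.es (j + 1) := by
  constructor
  · rintro (he | he | ⟨e', he', rfl⟩)
    · exact Or.inl (Or.inl he)
    · rcases (mvB_mem j e).1 he with he | he
      · exact Or.inr (Or.inl he)
      · exact Or.inl (Or.inr (Or.inl he))
    · rcases (mvB_mem j e').1 he' with rfl | he'
      · exact Or.inr (Or.inr (mvB_mate' j))
      · exact Or.inl (Or.inr (Or.inr ⟨e', he', (mvB_mate h j he').symm⟩))
  · rintro ((he | he | ⟨e', he', rfl⟩) | rfl | rfl)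
    · exact Or.inl he
    · exact Or.inr (Or.inl ((mvB_mem j e).2 (Or.inr he)))
    · exact Or.inr (Or.inr ⟨e', (mvB_mem j e').2 (Or.inr he'), mvB_mate h j he'⟩)
    · exact Or.inr (Or.inl ((mvB_mem j _).2 (Or.inl rfl)))
    · exact Or.inr (Or.inr ⟨_, (mvB_mem j _).2 (Or.inl rfl), mvB_mate' j⟩)

theorem mvB_rgt (h : Inv s) (j : ℤ) {e : Eid} (he : s.isE e) : (s.mvB j).rgt e = s.rgt e := by
  simp only [mvB]
  rw [if_neg (by rintro rfl; exact h.n2 j he)]

theorem mvB_rgt2 (j : ℤ) : (s.mvB j).rgt (.s2 (s.es j)) = s.rgt (s.es (j + 1)) := by simp [mvB]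

theorem Inv.mvA (h : Inv s) (j : ℤ) : Inv (s.mvA j) := by
  have hE : ∀ {e}, s.isE e → (s.mvA j).isE e := fun he => (mvA_isE j _).2 (Or.inl he)
  have hV : ∀ {v}, s.isV v → (s.mvA j).isV v := fun he => (mvA_isV j _).2 (Or.inl he)
  have c1 : ¬ s.cov (.s1 (s.es j)) := fun hh => h.n1 j (h.covisE hh)
  have c2 : ¬ s.cov (.s2 (s.es j)) := fun hh => h.n2 j (h.covisE hh)
  have d1 : Eid.s1 (s.es j) ≠ s.es j := fun hh => h.n1 j (hh.symm ▸ h.esE j)
  have d2 : Eid.s2 (s.es j) ≠ s.es j := fun hh => h.n2 j (hh.symm ▸ h.esE j)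
  have hva : ∀ i, s.vs i ≠ .apex (s.es j) := fun i hh => h.nV j (hh ▸ h.vsV i)
  refine ⟨?_, ?_, ?_, ?_, ?_, ?_, ?_, ?_, ?_, h.Minj, ?_, h.MB, ?_, ?_, ?_, ?_, ?_, ?_, ?_,
    ?_, ?_⟩
  · intro i
    rw [mvA_isE, mvA_es]
    split_ifs <;> simp [h.esE]
  · intro i
    rw [mvA_cov, mvA_es]
    split_ifs with h1 h2 h3
    · exact not_or.2 ⟨h.esN i, fun hh => by have := h.esinj hh; omega⟩
    · exact not_or.2 ⟨c2, d2⟩
    · exact not_or.2 ⟨c1, d1⟩
    · exact not_or.2 ⟨h.esN _, fun hh => by have := h.esinj hh; omega⟩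
  · intro e he
    rw [mvA_cov]
    rcases (mvA_isE j e).1 he with he | rfl | rfl
    · rcases h.covE e he with hc | ⟨i, rfl⟩
      · exact Or.inl (Or.inl hc)
      · rcases lt_trichotomy i j with hi | rfl | hi
        · exact Or.inr ⟨i, by rw [mvA_es, if_pos hi]⟩
        · exact Or.inl (Or.inr rfl)
        · refine Or.inr ⟨i + 1, ?_⟩
          rw [mvA_es, if_neg (by omega), if_neg (by omega), if_neg (by omega)]
          simp
    · exact Or.inr ⟨j + 1, by rw [mvA_es, if_neg (by omega), if_neg (by omega), if_pos rfl]⟩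
    · exact Or.inr ⟨j, by rw [mvA_es, if_neg (by omega), if_pos rfl]⟩
  · intro i i' hh
    rw [mvA_vs, mvA_vs] at hh
    split_ifs at hh <;>
      first | omega | exact absurd hh (hva _) | exact absurd hh.symm (hva _)
            | (have := h.vinj hh; omega)
  · intro i
    rw [mvA_vs, mvA_es]
    split_ifs with h1 h2 h3 <;> try omega
    · rw [mvA_rgt h j (h.esE i), h.rgtes]
    · exact mvA_rgt2 j
    · rw [mvA_rgt1, h.rgtes]; congr 1; omega
    · rw [mvA_rgt h j (h.esE _), h.rgtes]; congr 1; omega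
  · intro e he
    rcases (mvA_mem j e).1 he with rfl | he
    exacts [hE (h.esE j), hE (h.AE e he)]
  · exact fun e he => hE (h.BE e he)
  · exact fun e he => hE (h.ME e he)
  · intro e he
    rcases (mvA_mem j e).1 he with rfl | he
    exacts [h.nB j, h.AB e he]
  · intro e he hh
    rcases (mvA_mem j _).1 hh with hh | hh
    exacts [h.nM j he hh, h.MA e he hh]
  · intro i; rw [mvA_rgt h j (e := .orig i) trivial, h.ro]
  · intro e he
    rcases (mvA_mem j e).1 he with rfl | he
    · rw [mvA_rgt1, mvA_rgt h j (h.esE j)]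
    · rw [mvA_rgt h j (e := .s1 e) he, mvA_rgt h j (h.AE e he), h.r1 e he]
  · intro e he
    rcases (mvA_mem j e).1 he with rfl | he
    · rw [mvA_rgt2]
    · rw [mvA_rgt h j (e := .s2 e) (Or.inl he), h.r2 e he]
  · intro e he
    rw [mvA_rgt h j (h.BE e he)]; exact h.lm e he
  · intro e he
    rw [mvA_rgt h j (e := .s2 e) (Or.inr he)]
    exact (h.rm e he).trans (mvA_rgt h j (h.ME e he)).symm
  · intro e he
    rcases (mvA_isE j e).1 he with he | rfl | rfl
    · exact hV (h.lV e he)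
    · exact (mvA_isV j _).2 (Or.inr rfl)
    · exact hV (h.vsV j)
  · intro e he
    rcases (mvA_isE j e).1 he with he | rfl | rfl
    · rw [mvA_rgt h j he]; exact hV (h.rV e he)
    · rw [mvA_rgt1]; exact hV (h.rV _ (h.esE j))
    · rw [mvA_rgt2]; exact (mvA_isV j _).2 (Or.inr rfl)
  · intro e he
    rcases (mvA_isE j e).1 he with he | rfl | rfl
    · rw [mvA_rgt h j he]; exact h.ne e he
    · rw [mvA_rgt1, h.rgtes]; exact (hva _).symm
    · rw [mvA_rgt2]; exact hva j
  · obtain ⟨p, q, hpq⟩ := h.fin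
    refine ⟨min p j, max (q + 1) (j + 2), fun i hi => ?_⟩
    rw [mvA_es]
    split_ifs <;> first | omega | exact hpq _ (by omega)

theorem Inv.mvB (h : Inv s) (j : ℤ) : Inv (s.mvB j) := by
  have hE : ∀ {e}, s.isE e → (s.mvB j).isE e := fun he => (mvB_isE j _).2 (Or.inl he)
  have hV : ∀ {v}, s.isV v → (s.mvB j).isV v := fun he => (mvB_isV j _).2 he
  have c2 : ¬ s.cov (.s2 (s.es j)) := fun hh => h.n2 j (h.covisE hh)
  have d2 : ∀ i, Eid.s2 (s.es j) ≠ s.es i := fun i hh => h.n2 j (hh.symm ▸ h.esE i)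
  refine ⟨?_, ?_, ?_, ?_, ?_, ?_, ?_, ?_, ?_, ?_, ?_, ?_, ?_, ?_, ?_, ?_, ?_, ?_, ?_,
    ?_, ?_⟩
  · intro i
    rw [mvB_isE, mvB_es]
    split_ifs <;> simp [h.esE]
  · intro i
    rw [mvB_cov h, mvB_es]
    split_ifs with h1 h2
    · exact not_or.2 ⟨h.esN i, not_or.2 ⟨fun hh => by have := h.esinj hh; omega,
        fun hh => by have := h.esinj hh; omega⟩⟩
    · exact not_or.2 ⟨c2, not_or.2 ⟨d2 _, d2 _⟩⟩
    · exact not_or.2 ⟨h.esN _, not_or.2 ⟨fun hh => by have := h.esinj hh; omega,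
        fun hh => by have := h.esinj hh; omega⟩⟩
  · intro e he
    rw [mvB_cov h]
    rcases (mvB_isE j e).1 he with he | rfl
    · rcases h.covE e he with hc | ⟨i, rfl⟩
      · exact Or.inl (Or.inl hc)
      · rcases lt_trichotomy i j with hi | rfl | hi
        · exact Or.inr ⟨i, by rw [mvB_es, if_pos hi]⟩
        · exact Or.inl (Or.inr (Or.inl rfl))
        · by_cases h1 : i = j + 1
          · exact Or.inl (Or.inr (Or.inr (by rw [h1])))
          · refine Or.inr ⟨i - 1, ?_⟩
            rw [mvB_es, if_neg (by omega), if_neg (by omega)]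
            simp
    · exact Or.inr ⟨j, by rw [mvB_es, if_neg (by omega), if_pos rfl]⟩
  · intro i i' hh
    rw [mvB_vs, mvB_vs] at hh
    split_ifs at hh <;> (have := h.vinj hh; omega)
  · intro i
    rw [mvB_vs, mvB_es]
    split_ifs with h1 h2 h3 <;> try omega
    · rw [mvB_rgt h j (h.esE i), h.rgtes]
    · rw [mvB_rgt2, h.rgtes]; congr 1; omega
    · rw [mvB_rgt h j (h.esE _), h.rgtes]
  · exact fun e he => hE (h.AE e he)
  · intro e he
    rcases (mvB_mem j e).1 he with rfl | he
    exacts [hE (h.esE j), hE (h.BE e he)]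
  · intro e he
    rcases (mvB_mem j e).1 he with rfl | he
    · rw [mvB_mate']; exact hE (h.esE _)
    · rw [mvB_mate h j he]; exact hE (h.ME e he)
  · intro e he hh
    rcases (mvB_mem j e).1 hh with rfl | hh
    exacts [h.nA j he, h.AB e he hh]
  · intro e he e' he' hh
    rcases (mvB_mem j e).1 he with rfl | he <;> rcases (mvB_mem j e').1 he' with rfl | he'
    · rfl
    · rw [mvB_mate', mvB_mate h j he'] at hh; exact absurd hh.symm (h.nM _ he')
    · rw [mvB_mate', mvB_mate h j he] at hh; exact absurd hh (h.nM _ he)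
    · rw [mvB_mate h j he, mvB_mate h j he'] at hh; exact h.Minj e he e' he' hh
  · intro e he
    rcases (mvB_mem j e).1 he with rfl | he
    · rw [mvB_mate']; exact h.nA _
    · rw [mvB_mate h j he]; exact h.MA e he
  · intro e he hh
    rcases (mvB_mem j e).1 he with rfl | he
    · rw [mvB_mate'] at hh
      rcases (mvB_mem j _).1 hh with hh | hh
      · have := h.esinj hh; omega
      · exact h.nB _ hh
    · rw [mvB_mate h j he] at hh
      rcases (mvB_mem j _).1 hh with hh | hh
      · exact h.nM _ he hh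
      · exact h.MB e he hh
  · intro i; rw [mvB_rgt h j (e := .orig i) trivial, h.ro]
  · intro e he
    rw [mvB_rgt h j (e := .s1 e) he, mvB_rgt h j (h.AE e he), h.r1 e he]
  · intro e he
    rw [mvB_rgt h j (e := .s2 e) (Or.inl he), h.r2 e he]
  · intro e he
    rcases (mvB_mem j e).1 he with rfl | he
    · rw [mvB_mate', mvB_rgt h j (h.esE j), h.rgtes]; rfl
    · rw [mvB_mate h j he, mvB_rgt h j (h.BE e he)]; exact h.lm e he
  · intro e he
    rcases (mvB_mem j e).1 he with rfl | he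
    · rw [mvB_mate', mvB_rgt2, mvB_rgt h j (h.esE _)]
    · rw [mvB_mate h j he, mvB_rgt h j (e := .s2 e) (Or.inr he), mvB_rgt h j (h.ME e he)]
      exact h.rm e he
  · intro e he
    rcases (mvB_isE j e).1 he with he | rfl
    · exact hV (h.lV e he)
    · exact hV (h.vsV j)
  · intro e he
    rcases (mvB_isE j e).1 he with he | rfl
    · rw [mvB_rgt h j he]; exact hV (h.rV e he)
    · rw [mvB_rgt2]; exact hV (h.rV _ (h.esE _))
  · intro e he
    rcases (mvB_isE j e).1 he with he | rfl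
    · rw [mvB_rgt h j he]; exact h.ne e he
    · rw [mvB_rgt2, h.rgtes]
      intro hh
      have := h.vinj (show s.vs j = s.vs (j + 1 + 1) from hh)
      omega
  · obtain ⟨p, q, hpq⟩ := h.fin
    refine ⟨min p j, max q (j + 1), fun i hi => ?_⟩
    rw [mvB_es]
    split_ifs <;> first | omega | exact hpq _ (by omega)

inductive Reach : St → Prop
  | init : Reach init
  | a {s : St} (j : ℤ) : Reach s → Reach (s.mvA j)
  | b {s : St} (j : ℤ) : Reach s → Reach (s.mvB j)

theorem Reach.inv (h : Reach s) : Inv s := by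
  induction h with
  | init => exact inv_init
  | a j _ ih => exact ih.mvA j
  | b j _ ih => exact ih.mvB j

end St

end Pool.Agent.MP_7a2e76_pr
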