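import Pool.Agent.MP_7a2e76_pr.Model

/-! Fillings and peeling steps on abstract states. -/

namespace Pool.Agent.MP_7a2e76_pr

open scoped ENNReal
open Set

namespace St

structure Ext (s s' : St) : Prop where
  A : s.A ⊆ s'.A
  B : s.B ⊆ s'.B
  rgt : ∀ e, s.isE e → s'.rgt e = s.rgt e
  mate : ∀ e ∈ s.B, s'.mate e = s.mate e

variable {s s' s'' : St}

theorem Ext.isE (h : Ext s s') {e : Eid} (he : s.isE e) : s'.isE e := by
  cases e with
  | orig i => trivial
  | s1 e => exact h.A he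
  | s2 e => exact he.imp (fun x => h.A x) (fun x => h.B x)

theorem Ext.isV (h : Ext s s') {v : Vx} (he : s.isV v) : s'.isV v := by
  cases v with
  | orig i => trivial
  | apex e => exact h.A he

theorem Ext.cov (h : Ext s s') {e : Eid} (he : s.cov e) : s'.cov e := by
  rcases he with he | he | ⟨e', he, rfl⟩
  · exact Or.inl (h.A he)
  · exact Or.inr (Or.inl (h.B he))
  · exact Or.inr (Or.inr ⟨e', h.B he, h.mate e' he⟩)

theorem Ext.refl (s : St) : Ext s s :=
  ⟨Finset.Subset.refl _, Finset.Subset.refl _, fun _ _ => rfl, fun _ _ => rfl⟩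

theorem Ext.trans (h : Ext s s') (h' : Ext s' s'') : Ext s s'' :=
  ⟨h.A.trans h'.A, h.B.trans h'.B,
    fun e he => (h'.rgt e (h.isE he)).trans (h.rgt e he),
    fun e he => (h'.mate e (h.B he)).trans (h.mate e he)⟩

theorem ext_mvA (h : Inv s) (j : ℤ) : Ext s (s.mvA j) :=
  ⟨Finset.subset_insert _ _, Finset.Subset.refl _, fun _ he => mvA_rgt h j he, fun _ _ => rfl⟩

theorem ext_mvB (h : Inv s) (j : ℤ) : Ext s (s.mvB j) :=
  ⟨Finset.Subset.refl _, Finset.subset_insert _ _, fun _ he => mvB_rgt h j he,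
    fun _ he => mvB_mate h j he⟩

/-- new edges only touch `S` and new vertices -/
def NewIn (s s' : St) (S : Set Vx) : Prop :=
  ∀ e, s'.isE e → ¬ s.isE e →
    (e.lft ∈ S ∨ ¬ s.isV e.lft) ∧ (s'.rgt e ∈ S ∨ ¬ s.isV (s'.rgt e))

theorem NewIn.mono {S S' : Set Vx} (h : NewIn s s' S) (hS : S ⊆ S') : NewIn s s' S' :=
  fun e h1 h2 => ⟨(h e h1 h2).1.imp (fun x => hS x) id, (h e h1 h2).2.imp (fun x => hS x) id⟩

theorem NewIn.trans {S S' : Set Vx} (h : NewIn s s' S) (h' : NewIn s' s'' S')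
    (e1 : Ext s s') (e2 : Ext s' s'') (hS : ∀ v ∈ S', v ∈ S ∨ ¬ s.isV v) : NewIn s s'' S := by
  intro e h1 h2
  by_cases h3 : s'.isE e
  · rw [e2.rgt e h3]; exact h e h3 h2
  · obtain ⟨k1, k2⟩ := h' e h1 h3
    exact ⟨k1.elim (hS _) (fun x => Or.inr fun y => x (e1.isV y)),
      k2.elim (hS _) (fun x => Or.inr fun y => x (e1.isV y))⟩

theorem newIn_mvA (h : Inv s) (j : ℤ) : NewIn s (s.mvA j) (s.vs '' Icc j (j + 1)) := by
  intro e h1 h2
  rcases (mvA_isE j e).1 h1 with he | rfl | rfl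
  · exact absurd he h2
  · refine ⟨Or.inr (h.nV j), Or.inl ?_⟩
    rw [mvA_rgt1, h.rgtes]
    exact ⟨j + 1, ⟨by omega, le_rfl⟩, rfl⟩
  · refine ⟨Or.inl ⟨j, ⟨le_rfl, by omega⟩, rfl⟩, Or.inr ?_⟩
    rw [mvA_rgt2]; exact h.nV j

theorem newIn_mvB (h : Inv s) (j : ℤ) : NewIn s (s.mvB j) {s.vs j, s.vs (j + 2)} := by
  intro e h1 h2
  rcases (mvB_isE j e).1 h1 with he | rfl
  · exact absurd he h2
  · refine ⟨Or.inl (Or.inl rfl), Or.inl (Or.inr ?_)⟩
    rw [mvB_rgt2, h.rgtes, mem_singleton_iff]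
    congr 1; ring

theorem card_mvA (h : Inv s) (j : ℤ) : (s.mvA j).A.card = s.A.card + 1 :=
  Finset.card_insert_of_notMem (h.nA j)

theorem card_mvB (h : Inv s) (j : ℤ) : (s.mvB j).B.card = s.B.card + 1 :=
  Finset.card_insert_of_notMem (h.nB j)

def fill : Fill → St → ℤ → St
  | .nil, s, _ => s
  | .new A, s, p => fill A (s.mvA p) p
  | .split A B, s, p => fill B ((fill A s (p + 1)).mvB p) p

structure FillOut (s s' : St) (p : ℤ) (k a b : ℕ) : Prop where
  reach : Reach s'
  ext : Ext s s'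
  lo : ∀ i < p, s'.es i = s.es i
  hi : ∀ i, p < i → s'.es i = s.es (i + k - 1)
  vp : s'.vs p = s.vs p
  new : NewIn s s' (s.vs '' Icc p (p + k))
  cA : s'.A.card = s.A.card + a
  cB : s'.B.card = s.B.card + b

theorem FillOut.vs {p : ℤ} {k a b : ℕ} (h : FillOut s s' p k a b) (i : ℤ) :
    s'.vs i = if i ≤ p then s.vs i else s.vs (i + k - 1) := by
  split_ifs with h1
  · rcases h1.lt_or_eq with h1 | rfl
    · simp only [St.vs, h.lo i h1]
    · exact h.vp
  · simp only [St.vs, h.hi i (by omega)]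

/-- result of swallowing the `k` vertices after position `p` -/
structure Sw (s s' : St) (p : ℤ) (k a b : ℕ) : Prop where
  reach : Reach s'
  ext : Ext s s'
  lo : ∀ i < p, s'.es i = s.es i
  hi : ∀ i, p < i → s'.es i = s.es (i + k)
  vp : s'.vs p = s.vs p
  top : ¬ (s'.es p).isO
  new : NewIn s s' (s.vs '' Icc p (p + k + 1))
  cA : s'.A.card = s.A.card + a
  cB : s'.B.card = s.B.card + b

theorem Sw.vs {p : ℤ} {k a b : ℕ} (h : Sw s s' p k a b) (i : ℤ) :
    s'.vs i = if i ≤ p then s.vs i else s.vs (i + k) := by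
  split_ifs with h1
  · rcases h1.lt_or_eq with h1 | rfl
    · simp only [St.vs, h.lo i h1]
    · exact h.vp
  · simp only [St.vs, h.hi i (by omega)]

theorem FillOut.right {p : ℤ} {k a b : ℕ} (h : FillOut s s' (p + 1) k a b) :
    Sw s (s'.mvB p) p k a (b + 1) := by
  have hi := h.reach.inv
  refine ⟨h.reach.b p, h.ext.trans (ext_mvB hi p), ?_, ?_, ?_, ?_, ?_, h.cA, ?_⟩
  · intro i h1; rw [mvB_es, if_pos h1, h.lo i (by omega)]
  · intro i h1
    rw [mvB_es, if_neg (by omega), if_neg (by omega), h.hi _ (by omega)]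
    congr 1; ring
  · rw [mvB_vs, if_pos le_rfl, h.vs, if_pos (by omega)]
  · rw [mvB_es, if_neg (by omega), if_pos rfl]; exact id
  · refine NewIn.trans (h.new.mono (image_mono (Icc_subset_Icc (by omega) (by omega))))
      (newIn_mvB hi p) h.ext (ext_mvB hi p) ?_
    rintro v (rfl | rfl)
    · rw [h.vs, if_pos (by omega)]
      exact Or.inl ⟨p, ⟨le_rfl, by omega⟩, rfl⟩
    · rw [h.vs, if_neg (by omega)]
      exact Or.inl ⟨_, ⟨by omega, by omega⟩, rfl⟩
  · rw [card_mvB hi, h.cB]; ring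

theorem FillOut.left {p : ℤ} {k a b : ℕ} (h : FillOut s s' p k a b) :
    Sw s (s'.mvB p) p k a (b + 1) := by
  have hi := h.reach.inv
  refine ⟨h.reach.b p, h.ext.trans (ext_mvB hi p), ?_, ?_, ?_, ?_, ?_, h.cA, ?_⟩
  · intro i h1; rw [mvB_es, if_pos h1, h.lo i (by omega)]
  · intro i h1
    rw [mvB_es, if_neg (by omega), if_neg (by omega), h.hi _ (by omega)]
    congr 1; ring
  · rw [mvB_vs, if_pos le_rfl, h.vs, if_pos (by omega)]
  · rw [mvB_es, if_neg (by omega), if_pos rfl]; exact id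
  · refine NewIn.trans (h.new.mono (image_mono (Icc_subset_Icc (by omega) (by omega))))
      (newIn_mvB hi p) h.ext (ext_mvB hi p) ?_
    rintro v (rfl | rfl)
    · rw [h.vs, if_pos (by omega)]
      exact Or.inl ⟨p, ⟨le_rfl, by omega⟩, rfl⟩
    · rw [h.vs, if_neg (by omega)]
      exact Or.inl ⟨_, ⟨by omega, by omega⟩, rfl⟩
  · rw [card_mvB hi, h.cB]; ring

theorem fill_out : ∀ (A : Fill) (s : St) (p : ℤ), A.ok → Reach s →
    FillOut s (fill A s p) p A.len A.nA A.nB
  | .nil, s, p, _, hs =>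
    ⟨hs, Ext.refl s, fun _ _ => rfl, fun i _ => by simp [fill, Fill.len], rfl,
      fun e h1 h2 => absurd h1 h2, rfl, rfl⟩
  | .new A, s, p, hA, hs => by
    have h := fill_out A (s.mvA p) p hA.1 (hs.a p)
    have hi := hs.inv
    have h2 := hA.2
    have hl : ((Fill.len (.new A) : ℕ) : ℤ) = A.len - 1 := by simp only [Fill.len]; omega
    refine ⟨h.reach, (ext_mvA hi p).trans h.ext, ?_, ?_, ?_, ?_, ?_, h.cB⟩
    · intro i h1; exact (h.lo i h1).trans (by rw [mvA_es, if_pos h1])
    · intro i h1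
      refine (h.hi i h1).trans ?_
      rw [mvA_es, if_neg (by omega), if_neg (by omega), if_neg (by omega), hl]
      congr 1; ring
    · exact h.vp.trans (by rw [mvA_vs, if_pos le_rfl])
    · refine NewIn.trans ((newIn_mvA hi p).mono
        (image_mono (Icc_subset_Icc le_rfl (by omega)))) h.new (ext_mvA hi p) h.ext ?_
      rintro v ⟨i, ⟨h3, h4⟩, rfl⟩
      rw [mvA_vs]
      split_ifs
      · exact Or.inl ⟨i, ⟨h3, by omega⟩, rfl⟩
      · exact Or.inr (hi.nV p)
      · exact Or.inl ⟨i - 1, ⟨by omega, by omega⟩, rfl⟩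
    · refine h.cA.trans ?_
      rw [card_mvA hi]; simp only [Fill.nA]; ring
  | .split A B, s, p, hA, hs => by
    have h1 := (fill_out A s (p + 1) hA.1 hs).right
    have h := fill_out B _ p hA.2 h1.reach
    have hl : ((Fill.len (.split A B) : ℕ) : ℤ) = A.len + B.len := by
      simp only [Fill.len]; omega
    have hB := Fill.len_pos hA.2
    refine ⟨h.reach, h1.ext.trans h.ext, ?_, ?_, h.vp.trans h1.vp, ?_, ?_, ?_⟩
    · intro i h2; exact (h.lo i h2).trans (h1.lo i h2)
    · intro i h2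
      refine (h.hi i h2).trans ((h1.hi _ (by omega)).trans ?_)
      rw [hl]; congr 1; ring
    · refine NewIn.trans (h1.new.mono
        (image_mono (Icc_subset_Icc le_rfl (by omega)))) h.new h1.ext h.ext ?_
      rintro v ⟨i, ⟨h3, h4⟩, rfl⟩
      rw [h1.vs]
      split_ifs
      · exact Or.inl ⟨i, ⟨h3, by omega⟩, rfl⟩
      · exact Or.inl ⟨_, ⟨by omega, by omega⟩, rfl⟩
    · refine h.cA.trans ?_
      rw [h1.cA]; simp only [Fill.nA]; ring
    · refine h.cB.trans ?_
      rw [h1.cB]; simp only [Fill.nB]; ring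

end St

inductive Step where
  | new : Step
  | right : Fill → Step
  | left : Fill → Step

namespace Step

def ok : Step → Prop
  | new => True
  | right A => A.ok
  | left A => A.ok

def isL : Step → Prop
  | left _ => True
  | _ => False

noncomputable def w (a b : ℝ≥0∞) : Step → ℝ≥0∞
  | new => a
  | right A => A.bw a b
  | left A => A.bw a b

def eqv : Step ≃ Option (Fill ⊕ Fill) where
  toFun
    | new => none
    | right A => some (Sum.inl A)
    | left A => some (Sum.inr A)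
  invFun
    | none => new
    | some (Sum.inl A) => right A
    | some (Sum.inr A) => left A
  left_inv := by intro A; cases A <;> rfl
  right_inv := by rintro (_ | A | A) <;> rfl

instance : Countable Step := eqv.injective.countable

theorem tsum_step (g : Step → ℝ≥0∞) :
    ∑' σ, g σ = g new + ∑' A, g (right A) + ∑' A, g (left A) := by
  rw [← eqv.symm.tsum_eq, Fill.tsum_option, Fill.tsum_sum', add_assoc]
  rfl

theorem w_of_not_ok {a b : ℝ≥0∞} {σ : Step} (h : ¬ σ.ok) : σ.w a b = 0 := by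
  cases σ with
  | new => exact absurd trivial h
  | right A => exact Fill.bw_of_not_ok h
  | left A => exact Fill.bw_of_not_ok h

end Step

namespace St

variable {s : St}

def stp (s : St) (j : ℤ) : Step → St
  | .new => s.mvA j
  | .right A => (fill A s (j + 1)).mvB j
  | .left A => (fill A s (j - A.len)).mvB (j - A.len)

theorem sw_right (hs : Reach s) (j : ℤ) {A : Fill} (hA : A.ok) :
    Sw s (s.stp j (.right A)) j A.len A.nA (A.nB + 1) :=
  (fill_out A s (j + 1) hA hs).right

theorem sw_left (hs : Reach s) (j : ℤ) {A : Fill} (hA : A.ok) :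
    Sw s (s.stp j (.left A)) (j - A.len) A.len A.nA (A.nB + 1) :=
  (fill_out A s (j - A.len) hA hs).left

theorem reach_stp (hs : Reach s) (j : ℤ) {σ : Step} (hσ : σ.ok) : Reach (s.stp j σ) := by
  cases σ with
  | new => exact hs.a j
  | right A => exact (sw_right hs j hσ).reach
  | left A => exact (sw_left hs j hσ).reach

theorem ext_stp (hs : Reach s) (j : ℤ) {σ : Step} (hσ : σ.ok) : Ext s (s.stp j σ) := by
  cases σ with
  | new => exact ext_mvA hs.inv j
  | right A => exact (sw_right hs j hσ).ext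
  | left A => exact (sw_left hs j hσ).ext

noncomputable def w (a b : ℝ≥0∞) (s : St) : ℝ≥0∞ := a ^ s.A.card * b ^ s.B.card

theorem w_stp (a b : ℝ≥0∞) (hs : Reach s) (j : ℤ) {σ : Step} (hσ : σ.ok) :
    (s.stp j σ).w a b = s.w a b * σ.w a b := by
  cases σ with
  | new =>
    simp only [w, stp, card_mvA hs.inv, Step.w]
    rw [show (s.mvA j).B = s.B from rfl]; ring
  | right A =>
    have h := sw_right hs j hσ
    have hA : A.ok := hσ
    simp only [w, h.cA, h.cB, Step.w, Fill.bw, if_pos hA]; ring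
  | left A =>
    have h := sw_left hs j hσ
    have hA : A.ok := hσ
    simp only [w, h.cA, h.cB, Step.w, Fill.bw, if_pos hA]; ring

end St

end Pool.Agent.MP_7a2e76_pr
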