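import Pool.Agent.MP_7a2e76_pr.Defs
import Pool.Agent.MP_7a2e76_pr.Steps

/-! Realisation of abstract states inside a half-plane triangulation. -/

namespace Pool.Agent.MP_7a2e76_pr

open Set

namespace Tri

variable {D V : Type} (T : Tri D V)

theorem src_rev {d : D} (h : T.rev d ≠ d) : T.src (T.rev d) = T.src (T.nxt d) := by
  symm
  rw [T.vert]
  refine Relation.EqvGen.rel _ _ ⟨?_, ?_⟩
  · rw [T.rev2]; exact h.symm
  · rw [T.rev2]

theorem nxt_inj : Function.Injective T.nxt := fun a b h => by
  rw [← T.nxt3 a, h, T.nxt3]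

theorem rev_inj : Function.Injective T.rev := fun a b h => by
  rw [← T.rev2 a, h, T.rev2]

theorem nxt_rev {d : D} (h : T.rev d ≠ d) : T.src (T.nxt (T.rev d)) = T.src d := by
  rw [← T.src_rev (by rw [T.rev2]; exact h.symm), T.rev2]

end Tri

namespace HalfPlane

def out (H : HalfPlane) : Eid → ℕ
  | .orig i => H.bd i
  | .s1 e => H.rev (H.nxt (out H e))
  | .s2 e => H.rev (H.nxt (H.nxt (out H e)))

def psi (H : HalfPlane) : Vx → ℕ
  | .orig i => H.src (H.bd i)
  | .apex e => H.src (H.nxt (H.nxt (H.out e)))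

theorem bd_inj (H : HalfPlane) : Function.Injective H.bd := fun i j h =>
  H.simple (by simp only [h])

theorem rev_bd (H : HalfPlane) (i : ℤ) : H.rev (H.bd i) = H.bd i := (H.bdry _).2 ⟨i, rfl⟩

end HalfPlane

structure Rl (s : St) (H : HalfPlane) : Prop where
  l : ∀ e, s.isE e → H.src (H.out e) = H.psi e.lft
  r : ∀ e, s.isE e → H.src (H.nxt (H.out e)) = H.psi (s.rgt e)
  m : ∀ e, e ∈ s.B → H.nxt (H.out e) = H.out (s.mate e)
  v : ∀ u, s.isV u → ∀ u', s.isV u' → H.psi u = H.psi u' → u = u'
  i : ∀ e, s.isE e → ∀ e', s.isE e' → H.out e = H.out e' → e = e'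
  j : ∀ e, s.isE e → ∀ e', s.isE e' → ¬ e'.isO → H.out e ≠ H.rev (H.out e')

def St.R (s : St) : Set HalfPlane := {H | Rl s H}

variable {s s' : St} {H : HalfPlane}

theorem Rl.mono (h : Rl s' H) (e : s.Ext s') : Rl s H :=
  ⟨fun x hx => h.l x (e.isE hx), fun x hx => by rw [← e.rgt x hx]; exact h.r x (e.isE hx),
    fun x hx => by rw [← e.mate x hx]; exact h.m x (e.B hx),
    fun u hu u' hu' => h.v u (e.isV hu) u' (e.isV hu'),
    fun u hu u' hu' => h.i u (e.isE hu) u' (e.isE hu'),
    fun u hu u' hu' => h.j u (e.isE hu) u' (e.isE hu')⟩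

theorem rl_init (H : HalfPlane) : Rl St.init H := by
  have hE : ∀ e, St.init.isE e → ∃ i, e = .orig i := by
    intro e he
    cases e with
    | orig i => exact ⟨i, rfl⟩
    | s1 e => simp [St.isE, St.init] at he
    | s2 e => simp [St.isE, St.init] at he
  have hV : ∀ e, St.init.isV e → ∃ i, e = .orig i := by
    intro e he
    cases e with
    | orig i => exact ⟨i, rfl⟩
    | apex e => simp [St.isV, St.init] at he
  refine ⟨?_, ?_, by simp [St.init], ?_, ?_, ?_⟩
  · intro e he; obtain ⟨i, rfl⟩ := hE e he; rfl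
  · intro e he; obtain ⟨i, rfl⟩ := hE e he; exact H.path i
  · intro u hu u' hu' h
    obtain ⟨i, rfl⟩ := hV u hu
    obtain ⟨i', rfl⟩ := hV u' hu'
    rw [H.simple h]
  · intro u hu u' hu' h
    obtain ⟨i, rfl⟩ := hE u hu
    obtain ⟨i', rfl⟩ := hE u' hu'
    rw [H.bd_inj h]
  · intro u _ u' hu' h
    obtain ⟨i', rfl⟩ := hE u' hu'
    exact absurd trivial h

theorem R_init : St.init.R = univ := eq_univ_of_forall rl_init

section meas

theorem meas_coord : Measurable fun H : HalfPlane => (H.nxt, H.rev, H.src, H.bd) :=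
  comap_measurable _

theorem meas_app {f : HalfPlane → ℕ → ℕ} (hf : Measurable f) {g : HalfPlane → ℕ}
    (hg : Measurable g) : Measurable fun H => f H (g H) := by
  have h : Measurable fun p : HalfPlane × ℕ => f p.1 p.2 :=
    measurable_from_prod_countable_left fun n => (measurable_pi_apply n).comp hf
  exact h.comp (measurable_id.prodMk hg)

theorem meas_nxt {g : HalfPlane → ℕ} (hg : Measurable g) :
    Measurable fun H : HalfPlane => H.nxt (g H) :=
  meas_app (f := fun H => H.nxt) meas_coord.fst hg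

theorem meas_rev {g : HalfPlane → ℕ} (hg : Measurable g) :
    Measurable fun H : HalfPlane => H.rev (g H) :=
  meas_app (f := fun H => H.rev) meas_coord.snd.fst hg

theorem meas_src {g : HalfPlane → ℕ} (hg : Measurable g) :
    Measurable fun H : HalfPlane => H.src (g H) :=
  meas_app (f := fun H => H.src) meas_coord.snd.snd.fst hg

theorem meas_bd (i : ℤ) : Measurable fun H : HalfPlane => H.bd i :=
  (measurable_pi_apply i).comp meas_coord.snd.snd.snd

theorem meas_out (e : Eid) : Measurable fun H : HalfPlane => H.out e := by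
  induction e with
  | orig i => exact meas_bd i
  | s1 e ih => exact meas_rev (meas_nxt ih)
  | s2 e ih => exact meas_rev (meas_nxt (meas_nxt ih))

theorem meas_psi (v : Vx) : Measurable fun H : HalfPlane => H.psi v := by
  cases v with
  | orig i => exact meas_src (meas_bd i)
  | apex e => exact meas_src (meas_nxt (meas_nxt (meas_out e)))

theorem meas_eq {f g : HalfPlane → ℕ} (hf : Measurable f) (hg : Measurable g) :
    Measurable fun H => f H = g H :=
  measurableSet_setOfPred.1 (measurableSet_eq_fun hf hg)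

theorem meas_R (s : St) : MeasurableSet s.R := by
  have e : s.R = {H | (∀ e, s.isE e → H.src (H.out e) = H.psi e.lft) ∧
      (∀ e, s.isE e → H.src (H.nxt (H.out e)) = H.psi (s.rgt e)) ∧
      (∀ e, e ∈ s.B → H.nxt (H.out e) = H.out (s.mate e)) ∧
      (∀ u, s.isV u → ∀ u', s.isV u' → H.psi u = H.psi u' → u = u') ∧
      (∀ e, s.isE e → ∀ e', s.isE e' → H.out e = H.out e' → e = e') ∧
      (∀ e, s.isE e → ∀ e', s.isE e' → ¬ e'.isO → ¬ H.out e = H.rev (H.out e'))} := by
    ext H
    exact ⟨fun h => ⟨h.l, h.r, h.m, h.v, h.i, h.j⟩,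
      fun h => ⟨h.1, h.2.1, h.2.2.1, h.2.2.2.1, h.2.2.2.2.1, h.2.2.2.2.2⟩⟩
  rw [e, measurableSet_setOfPred]
  refine Measurable.and ?_ (Measurable.and ?_ (Measurable.and ?_ (Measurable.and ?_
    (Measurable.and ?_ ?_))))
  · exact Measurable.forall fun e => measurable_const.imp
      (meas_eq (meas_src (meas_out e)) (meas_psi _))
  · exact Measurable.forall fun e => measurable_const.imp
      (meas_eq (meas_src (meas_nxt (meas_out e))) (meas_psi _))
  · exact Measurable.forall fun e => measurable_const.imp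
      (meas_eq (meas_nxt (meas_out e)) (meas_out _))
  · exact Measurable.forall fun u => measurable_const.imp (Measurable.forall fun u' =>
      measurable_const.imp ((meas_eq (meas_psi _) (meas_psi _)).imp measurable_const))
  · exact Measurable.forall fun u => measurable_const.imp (Measurable.forall fun u' =>
      measurable_const.imp ((meas_eq (meas_out _) (meas_out _)).imp measurable_const))
  · exact Measurable.forall fun u => measurable_const.imp (Measurable.forall fun u' =>
      measurable_const.imp (measurable_const.imp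
        (meas_eq (meas_out _) (meas_rev (meas_out _))).not))

end meas

section disj

open St

theorem Rl.ofB (_hs : Inv s) {p : ℤ} (h : Rl (s.mvB p) H) :
    H.nxt (H.out (s.es p)) = H.out (s.es (p + 1)) := by
  have := h.m (s.es p) ((mvB_mem p _).2 (Or.inl rfl))
  rwa [mvB_mate'] at this

theorem Rl.srcE (hs : Inv s) (h : Rl s H) (p : ℤ) : H.src (H.out (s.es p)) = H.psi (s.vs p) :=
  h.l _ (hs.esE p)

theorem Rl.tgtE (hs : Inv s) (h : Rl s H) (p : ℤ) :
    H.src (H.nxt (H.out (s.es p))) = H.psi (s.vs (p + 1)) := by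
  rw [h.r _ (hs.esE p), hs.rgtes]

theorem Rl.vs_inj (hs : Inv s) (h : Rl s H) {i i' : ℤ}
    (e : H.psi (s.vs i) = H.psi (s.vs i')) : i = i' :=
  hs.vinj (h.v _ (hs.vsV i) _ (hs.vsV i') e)

theorem Rl.new_ne (hs : Inv s) {j : ℤ} (h : Rl (s.mvA j) H) (i : ℤ) :
    H.psi (.apex (s.es j)) ≠ H.psi (s.vs i) := fun e =>
  hs.nV j (by
    rw [h.v _ ((mvA_isV j _).2 (Or.inr rfl)) _ ((mvA_isV j _).2 (Or.inl (hs.vsV i))) e]
    exact hs.vsV i)

theorem tv_right (hs : Reach s) {j : ℤ} {A : Fill} (hA : A.ok)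
    (h : Rl ((fill A s (j + 1)).mvB j) H) :
    H.nxt (H.out (s.es j)) = H.out ((fill A s (j + 1)).es (j + 1)) ∧
    H.psi (.apex (s.es j)) = H.psi (s.vs (j + A.len + 1)) := by
  have f := fill_out A s (j + 1) hA hs
  have hi := f.reach.inv
  have h1 := h.ofB hi
  rw [f.lo j (by omega)] at h1
  refine ⟨h1, ?_⟩
  have h2 := (h.mono (ext_mvB hi j)).tgtE hi (j + 1)
  rw [f.vs, if_neg (by omega), ← h1] at h2
  rw [show j + A.len + 1 = j + 1 + 1 + A.len - 1 by ring]
  exact h2

theorem tv_left (hs : Reach s) {j : ℤ} {A : Fill} (hA : A.ok)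
    (h : Rl ((fill A s (j - A.len)).mvB (j - A.len)) H) :
    H.nxt (H.nxt (H.out (s.es j))) = H.out ((fill A s (j - A.len)).es (j - A.len)) ∧
    H.psi (.apex (s.es j)) = H.psi (s.vs (j - A.len)) := by
  have f := fill_out A s (j - A.len) hA hs
  have hi := f.reach.inv
  have h1 := h.ofB hi
  rw [f.hi (j - A.len + 1) (by omega), show j - A.len + 1 + A.len - 1 = j by ring] at h1
  have h3 : H.nxt (H.nxt (H.out (s.es j))) =
      H.out ((fill A s (j - A.len)).es (j - A.len)) := by rw [← h1, H.nxt3]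
  refine ⟨h3, ?_⟩
  have h2 := (h.mono (ext_mvB hi _)).srcE hi (j - A.len)
  rw [f.vp, ← h3] at h2
  exact h2

theorem fill_cov : ∀ {A : Fill} {s : St} {p : ℤ}, A.ok → Reach s → A ≠ .nil →
    (fill A s p).cov (s.es p)
  | .nil, _, _, _, _, h => absurd rfl h
  | .new A, s, p, hA, hs, _ =>
    (fill_out A _ p hA.1 (hs.a p)).ext.cov ((mvA_cov p _).2 (Or.inr rfl))
  | .split A B, s, p, hA, hs, _ => by
    have f := fill_out A s (p + 1) hA.1 hs
    refine (fill_out B _ p hA.2 f.right.reach).ext.cov ?_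
    rw [mvB_cov f.reach.inv, f.lo p (by omega)]
    exact Or.inr (Or.inl rfl)

theorem fill_nil {A : Fill} {p : ℤ} (hA : A.ok) (hs : Reach s) (h : Rl (fill A s p) H)
    (e : H.out (s.es p) = H.out ((fill A s p).es p)) : A = .nil := by
  by_contra hn
  have f := fill_out A s p hA hs
  have e2 := h.i _ (f.ext.isE (hs.inv.esE p)) _ (f.reach.inv.esE p) e
  exact f.reach.inv.esN p (e2 ▸ fill_cov hA hs hn)

theorem fill_unique : ∀ (A A' : Fill) (s : St) (p : ℤ), A.ok → A'.ok → Reach s →
    Rl (fill A s p) H → Rl (fill A' s p) H →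
    H.out ((fill A s p).es p) = H.out ((fill A' s p).es p) → A = A'
  | .nil, A', s, p, _, hA', hs, _, h', e => (fill_nil hA' hs h' e).symm
  | .new A, .nil, s, p, hA, _, hs, h, _, e => fill_nil hA hs h e.symm
  | .split A B, .nil, s, p, hA, _, hs, h, _, e => fill_nil hA hs h e.symm
  | .new A, .new A', s, p, hA, hA', hs, h, h', e => by
    rw [fill_unique A A' _ p hA.1 hA'.1 (hs.a p) h h' e]
  | .new A, .split A' B', s, p, hA, hA', hs, h, h', _ => by
    have h1 := h.mono (fill_out A _ p hA.1 (hs.a p)).ext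
    have h2 := h'.mono (fill_out B' _ p hA'.2 (fill_out A' s (p + 1) hA'.1 hs).right.reach).ext
    exact absurd (tv_right hs hA'.1 h2).2 (h1.new_ne hs.inv _)
  | .split A' B', .new A, s, p, hA', hA, hs, h', h, _ => by
    have h1 := h.mono (fill_out A _ p hA.1 (hs.a p)).ext
    have h2 := h'.mono (fill_out B' _ p hA'.2 (fill_out A' s (p + 1) hA'.1 hs).right.reach).ext
    exact absurd (tv_right hs hA'.1 h2).2 (h1.new_ne hs.inv _)
  | .split A B, .split A' B', s, p, hA, hA', hs, h, h', e => by
    have f := fill_out A s (p + 1) hA.1 hs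
    have f' := fill_out A' s (p + 1) hA'.1 hs
    have h2 := h.mono (fill_out B _ p hA.2 f.right.reach).ext
    have h2' := h'.mono (fill_out B' _ p hA'.2 f'.right.reach).ext
    have e1 : A = A' := fill_unique A A' s (p + 1) hA.1 hA'.1 hs
      (h2.mono (ext_mvB f.reach.inv p)) (h2'.mono (ext_mvB f'.reach.inv p))
      ((tv_right hs hA.1 h2).1.symm.trans (tv_right hs hA'.1 h2').1)
    subst e1
    rw [fill_unique B B' _ p hA.2 hA'.2 f.right.reach h h' e]

theorem step_unique (hs : Reach s) (j : ℤ) {σ σ' : Step} (hσ : σ.ok) (hσ' : σ'.ok)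
    (h : Rl (s.stp j σ) H) (h' : Rl (s.stp j σ') H) : σ = σ' := by
  have h0 : Rl s H := h.mono (ext_stp hs j hσ)
  cases σ with
  | new =>
    cases σ' with
    | new => rfl
    | right A => exact absurd (tv_right hs hσ' h').2 (Rl.new_ne hs.inv h _)
    | left A => exact absurd (tv_left hs hσ' h').2 (Rl.new_ne hs.inv h _)
  | right A =>
    cases σ' with
    | new => exact absurd (tv_right hs hσ h).2 (Rl.new_ne hs.inv h' _)
    | right A' =>
      have f := fill_out A s (j + 1) hσ hs
      have f' := fill_out A' s (j + 1) hσ' hs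
      rw [fill_unique A A' s (j + 1) hσ hσ' hs (Rl.mono h (ext_mvB f.reach.inv j))
        (Rl.mono h' (ext_mvB f'.reach.inv j))
        ((tv_right hs hσ h).1.symm.trans (tv_right hs hσ' h').1)]
    | left A' =>
      have := h0.vs_inj hs.inv ((tv_right hs hσ h).2.symm.trans (tv_left hs hσ' h').2)
      omega
  | left A =>
    cases σ' with
    | new => exact absurd (tv_left hs hσ h).2 (Rl.new_ne hs.inv h' _)
    | right A' =>
      have := h0.vs_inj hs.inv ((tv_left hs hσ h).2.symm.trans (tv_right hs hσ' h').2)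
      omega
    | left A' =>
      have e := h0.vs_inj hs.inv ((tv_left hs hσ h).2.symm.trans (tv_left hs hσ' h').2)
      have f := fill_out A s (j - A.len) hσ hs
      have f' := fill_out A' s (j - A'.len) hσ' hs
      have t := (tv_left hs hσ h).1.symm.trans (tv_left hs hσ' h').1
      have r' := Rl.mono h' (ext_mvB f'.reach.inv _)
      rw [← e] at t r'
      rw [fill_unique A A' s _ hσ hσ' hs (Rl.mono h (ext_mvB f.reach.inv _)) r' t]

end disj

end Pool.Agent.MP_7a2e76_pr
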